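import Mathlib

/-!
# Residues of integers of the algebraic closure of the `p`-adic numbers
-/

set_option autoImplicit false

open Polynomial

namespace Pool.Agent.H21.Leh

variable (p : ℕ) [hp : Fact p.Prime]

/-- Elements of norm at most one in the algebraic closure of `ℚ_p`. -/
def OO : Subring (PadicAlgCl p) where
  carrier := {x | ‖x‖ ≤ 1}
  mul_mem' := by
    intro a b ha hb
    simp only [Set.mem_ofPred_eq, norm_mul] at *
    exact mul_le_one₀ ha (norm_nonneg _) hb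
  one_mem' := by simp
  add_mem' := by
    intro a b ha hb
    exact (IsUltrametricDist.norm_add_le_max a b).trans (max_le ha hb)
  zero_mem' := by simp
  neg_mem' := by
    intro a ha
    simpa using ha

lemma OO_norm_le (x : OO p) : ‖(x : PadicAlgCl p)‖ ≤ 1 := x.2

/-- Elements of norm less than one. -/
def PP : Ideal (OO p) where
  carrier := {x | ‖(x : PadicAlgCl p)‖ < 1}
  add_mem' := by
    intro a b ha hb
    exact (IsUltrametricDist.norm_add_le_max (a : PadicAlgCl p) b).trans_lt (max_lt ha hb)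
  zero_mem' := by simp
  smul_mem' := by
    intro c x hx
    simp only [Set.mem_ofPred_eq, smul_eq_mul, Subring.coe_mul, norm_mul] at *
    exact lt_of_le_of_lt (mul_le_of_le_one_left (norm_nonneg _) (OO_norm_le p c)) hx

lemma mem_PP (x : OO p) : x ∈ PP p ↔ ‖(x : PadicAlgCl p)‖ < 1 := Iff.rfl

instance : (PP p).IsPrime where
  ne_top' := by
    rw [Ideal.ne_top_iff_one, mem_PP]
    simp
  mem_or_mem' := by
    intro x y hxy
    rw [mem_PP, mem_PP]
    rw [mem_PP, Subring.coe_mul, norm_mul] at hxy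
    by_contra hcon
    push Not at hcon
    have := one_le_mul_of_one_le_of_one_le hcon.1 hcon.2
    linarith

/-- A residue map to an algebraically closed field. -/
lemma exists_residue : ∃ (K : Type) (_ : Field K) (_ : IsAlgClosed K) (φ : OO p →+* K),
    ∀ x, φ x = 0 ↔ ‖(x : PadicAlgCl p)‖ < 1 := by
  let R := OO p ⧸ PP p
  let F := FractionRing R
  let K := AlgebraicClosure F
  refine ⟨K, inferInstance, inferInstance,
    (algebraMap F K).comp ((algebraMap R F).comp (Ideal.Quotient.mk (PP p))), ?_⟩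
  intro x
  rw [RingHom.comp_apply, RingHom.comp_apply, map_eq_zero_iff _ (algebraMap F K).injective,
    map_eq_zero_iff _ (IsFractionRing.injective R F), Ideal.Quotient.eq_zero_iff_mem, mem_PP]

lemma norm_p : ‖(p : PadicAlgCl p)‖ = (p : ℝ)⁻¹ := by
  rw [← map_natCast (algebraMap ℚ_[p] (PadicAlgCl p))]
  rw [PadicAlgCl.norm_extends, Padic.norm_p]

lemma norm_int (z : ℤ) : ‖(z : PadicAlgCl p)‖ = ‖(z : ℚ_[p])‖ := by
  rw [← map_intCast (algebraMap ℚ_[p] (PadicAlgCl p))]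
  rw [PadicAlgCl.norm_extends]

/-- The product formula inequality. -/
lemma one_le_abs_mul_norm (z : ℤ) (hz : z ≠ 0) : 1 ≤ |(z : ℝ)| * ‖(z : PadicAlgCl p)‖ := by
  rw [norm_int]
  obtain ⟨m, c, hc, h⟩ : ∃ (m : ℕ) (c : ℤ), ¬ ((p : ℤ) ∣ c) ∧ z = (p : ℤ) ^ m * c := by
    have hfin : FiniteMultiplicity (p : ℤ) z := by
      rw [Int.finiteMultiplicity_iff]
      refine ⟨?_, hz⟩
      simpa using hp.out.ne_one
    obtain ⟨c, hc, hc'⟩ := hfin.exists_eq_pow_mul_and_not_dvd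
    exact ⟨_, c, hc', hc⟩
  have hc1 : ‖(c : ℚ_[p])‖ = 1 := by
    refine le_antisymm (Padic.norm_int_le_one c) ?_
    by_contra hcon
    push Not at hcon
    exact hc (Padic.norm_intCast_lt_one_iff.1 hcon)
  have hc0 : c ≠ 0 := by
    rintro rfl
    exact hc (dvd_zero _)
  rw [h]
  push_cast
  rw [norm_mul, norm_pow, Padic.norm_p, hc1, mul_one, abs_mul, abs_pow, Nat.abs_cast]
  have hp0 : (p : ℝ) ≠ 0 := by exact_mod_cast hp.out.ne_zero
  have : (p : ℝ) ^ m * |(c : ℝ)| * (p : ℝ)⁻¹ ^ m = |(c : ℝ)| := by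
    rw [mul_right_comm, ← mul_pow, mul_inv_cancel₀ hp0, one_pow, one_mul]
  rw [this]
  exact_mod_cast Int.one_le_abs hc0

/-- Roots of monic integer polynomials are integers. -/
lemma root_norm_le (f : ℤ[X]) (hf : f.Monic) (b : PadicAlgCl p) (hb : aeval b f = 0) :
    ‖b‖ ≤ 1 := by
  by_contra hcon
  push Not at hcon
  rw [aeval_eq_sum_range] at hb
  rw [Finset.sum_range_succ, hf.coeff_natDegree, one_smul] at hb
  have h1 : b ^ f.natDegree = -∑ i ∈ Finset.range f.natDegree, f.coeff i • b ^ i := by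
    linear_combination hb
  have h2 : ‖b ^ f.natDegree‖ < ‖b‖ ^ f.natDegree := by
    rcases Nat.eq_zero_or_pos f.natDegree with h0 | h0
    · rw [h0] at h1
      simp at h1
    · rw [h1, norm_neg]
      have hb0 : 0 < ‖b‖ := by linarith
      apply (IsUltrametricDist.norm_sum_le_of_forall_le_of_nonneg
        (C := ‖b‖ ^ (f.natDegree - 1)) (by positivity) ?_).trans_lt
      · exact pow_lt_pow_right₀ hcon (by omega)
      · intro i hi
        rw [Finset.mem_range] at hi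
        rw [zsmul_eq_mul, norm_mul, norm_pow]
        calc ‖((f.coeff i : ℤ) : PadicAlgCl p)‖ * ‖b‖ ^ i ≤ 1 * ‖b‖ ^ i := by
              gcongr
              rw [norm_int]
              exact Padic.norm_int_le_one _
          _ ≤ ‖b‖ ^ (f.natDegree - 1) := by
              rw [one_mul]
              exact pow_le_pow_right₀ hcon.le (by omega)
  rw [norm_pow] at h2
  exact lt_irrefl _ h2

/-- The exponents gained by iterating `p`-th powers. -/
def KK (m : ℕ) : ℕ → ℕ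
  | 0 => min 1 m
  | k + 1 => min (p * KK m k) (KK m k + m)

omit hp in
lemma KK_zero_left (k : ℕ) : KK p 0 k = 0 := by
  induction k with
  | zero => rfl
  | succ k ih => simp [KK, ih]

/-- One step. -/
lemma norm_step (ε : ℤ) (hε : ε = 1 ∨ ε = -1 ∧ Odd p) (y : OO p) :
    ‖((y ^ p - (ε : OO p) : OO p) : PadicAlgCl p)‖ ≤
      max (‖((y - (ε : OO p) : OO p) : PadicAlgCl p)‖ ^ p)
        (‖((y - (ε : OO p) : OO p) : PadicAlgCl p)‖ * (p : ℝ)⁻¹) := by
  obtain ⟨r, hr⟩ := exists_add_pow_prime_eq hp.out ((ε : OO p)) (y - (ε : OO p))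
  have hεp : ((ε : OO p)) ^ p = ε := by
    rcases hε with h | ⟨h, h2⟩
    · rw [h]; simp
    · rw [h]
      push_cast
      exact h2.neg_one_pow
  have h1 : y ^ p - (ε : OO p) = (y - ε) ^ p + p * ε * (y - ε) * r := by
    have : (ε : OO p) + (y - ε) = y := by ring
    rw [this, hεp] at hr
    rw [hr]; ring
  rw [h1]
  push_cast
  refine (IsUltrametricDist.norm_add_le_max _ _).trans ?_
  apply max_le_max
  · rw [norm_pow]
  · rw [norm_mul, norm_mul, norm_mul, norm_p]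
    have h2 : ‖((ε : ℤ) : PadicAlgCl p)‖ ≤ 1 := by
      rw [norm_int]; exact Padic.norm_int_le_one _
    have h3 : ‖(r : PadicAlgCl p)‖ ≤ 1 := OO_norm_le p r
    have hp0 : (0 : ℝ) ≤ (p : ℝ)⁻¹ := by positivity
    calc (p : ℝ)⁻¹ * ‖((ε : ℤ) : PadicAlgCl p)‖ * ‖(y : PadicAlgCl p) - (ε : ℤ)‖ * ‖(r : PadicAlgCl p)‖
        ≤ (p : ℝ)⁻¹ * 1 * ‖(y : PadicAlgCl p) - (ε : ℤ)‖ * 1 := by gcongr
      _ = _ := by ring

/-- Iteration. -/
lemma norm_iter (ε : ℤ) (hε : ε = 1 ∨ ε = -1 ∧ Odd p) (y : OO p) (m : ℕ)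
    (h : ‖((y - (ε : OO p) : OO p) : PadicAlgCl p)‖ ^ m ≤ (p : ℝ)⁻¹) (k : ℕ) :
    ‖((y ^ p ^ k - (ε : OO p) : OO p) : PadicAlgCl p)‖ ^ m ≤ (p : ℝ)⁻¹ ^ KK p m k := by
  have hp1 : (p : ℝ)⁻¹ ≤ 1 := by
    rw [inv_le_one_iff₀]
    right
    exact_mod_cast hp.out.one_lt.le
  have hp0 : (0 : ℝ) ≤ (p : ℝ)⁻¹ := by positivity
  induction k with
  | zero =>
    simp only [pow_zero, pow_one, KK]
    rcases Nat.eq_zero_or_pos m with h0 | h0
    · subst h0; simp
    · rw [min_eq_left h0, pow_one]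
      exact h
  | succ k ih =>
    rw [pow_succ, pow_mul]
    set z := y ^ p ^ k with hz
    have h1 := norm_step p ε hε z
    have h2 : ‖((z ^ p - (ε : OO p) : OO p) : PadicAlgCl p)‖ ^ m ≤
        (max (‖((z - (ε : OO p) : OO p) : PadicAlgCl p)‖ ^ p)
        (‖((z - (ε : OO p) : OO p) : PadicAlgCl p)‖ * (p : ℝ)⁻¹)) ^ m :=
      pow_le_pow_left₀ (norm_nonneg _) h1 m
    refine h2.trans ?_
    rcases max_cases (‖((z - (ε : OO p) : OO p) : PadicAlgCl p)‖ ^ p)
        (‖((z - (ε : OO p) : OO p) : PadicAlgCl p)‖ * (p : ℝ)⁻¹) with ⟨h3, _⟩ | ⟨h3, _⟩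
    · rw [h3, ← pow_mul, mul_comm p m, pow_mul]
      calc (‖((z - (ε : OO p) : OO p) : PadicAlgCl p)‖ ^ m) ^ p
          ≤ ((p : ℝ)⁻¹ ^ KK p m k) ^ p := pow_le_pow_left₀ (by positivity) ih p
        _ = (p : ℝ)⁻¹ ^ (p * KK p m k) := by rw [← pow_mul, mul_comm]
        _ ≤ _ := pow_le_pow_of_le_one hp0 hp1 (min_le_left _ _)
    · rw [h3, mul_pow]
      calc ‖((z - (ε : OO p) : OO p) : PadicAlgCl p)‖ ^ m * (p : ℝ)⁻¹ ^ m
          ≤ (p : ℝ)⁻¹ ^ KK p m k * (p : ℝ)⁻¹ ^ m := by gcongr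
        _ = (p : ℝ)⁻¹ ^ (KK p m k + m) := by rw [pow_add]
        _ ≤ _ := pow_le_pow_of_le_one hp0 hp1 (min_le_right _ _)

end Pool.Agent.H21.Leh
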