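import Pool.Agent.H21.Leh.Primes

/-!
# The inequality for a generator of an abelian extension: the different cases
-/

open Polynomial N60ffa576 Module NumberField IntermediateField Ideal

open scoped Pointwise

namespace Pool.Agent.H21.Leh

open Pool.Agent.H25

section final

variable {F : Type*} [Field F] [NumberField F]

/-- The Mahler measure of the minimal polynomial. -/
noncomputable def MM (α : 𝓞 F) : ℝ := mahlerMeasureZ (minpoly ℤ (α : F))

/-- The degree. -/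
noncomputable def dg (α : 𝓞 F) : ℕ := (minpoly ℤ (α : F)).natDegree

omit [NumberField F] in
lemma isInt (α : 𝓞 F) : IsIntegral ℤ (α : F) := RingOfIntegers.isIntegral_coe α

omit [NumberField F] in
lemma one_le_MM (α : 𝓞 F) : 1 ≤ MM α := one_le_mmZ (minpoly.ne_zero (isInt α))

lemma dg_eq (α : 𝓞 F) : dg α = (minpoly ℚ (α : F)).natDegree := by
  unfold dg
  rw [minpoly.isIntegrallyClosed_eq_field_fractions' ℚ (isInt α),
    (minpoly.monic (isInt α)).natDegree_map]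

omit [NumberField F] in
lemma dg_pos (α : 𝓞 F) : 0 < dg α := minpoly.natDegree_pos (isInt α)

lemma dg_mul (α : 𝓞 F) : dg α * finrank ℚ⟮(α : F)⟯ F = finrank ℚ F := by
  rw [dg_eq, ← IntermediateField.adjoin.finrank (Algebra.IsIntegral.isIntegral (α : F))]
  exact Module.finrank_mul_finrank ℚ ℚ⟮(α : F)⟯ F

lemma hgt_MM (α : 𝓞 F) : hgt (α : F) = MM α ^ finrank ℚ⟮(α : F)⟯ F := hgt_eq _ (isInt α)

lemma final_aux (α : 𝓞 F) (a : ℕ) (h : (2 : ℝ) ^ finrank ℚ F ≤ hgt (α : F) ^ a)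
    (ha : a ≤ 4 * dg α) : 2 ≤ MM α ^ 4 := by
  have hr : 0 < finrank ℚ⟮(α : F)⟯ F := finrank_pos
  rw [hgt_MM, ← dg_mul α, pow_mul, pow_right_comm (MM α)] at h
  have h1 := le_of_pow_le_pow_left₀ hr.ne' (pow_nonneg (zero_le_one.trans (one_le_MM α)) _) h
  have h2 : MM α ^ a ≤ (MM α ^ 4) ^ dg α := by
    rw [← pow_mul]
    exact pow_le_pow_right₀ (one_le_MM α) ha
  exact le_of_pow_le_pow_left₀ (dg_pos α).ne'
    (pow_nonneg (zero_le_one.trans (one_le_MM α)) _) (h1.trans h2)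

lemma final_one (α : 𝓞 F) (R : Ideal (𝓞 F)) (E : ℕ) (hE : 0 < E) (h2 : (2 : 𝓞 F) ∈ R ^ E)
    (hN : (Ideal.absNorm R) ^ E = 2 ^ finrank ℚ F) (x y : 𝓞 F) (hxy : x - y ∈ R)
    (hne : ∀ m, 0 < m → x ^ m ≠ y ^ m) (c : ℕ)
    (hh : hgt (x : F) * hgt (y : F) = hgt (α : F) ^ c) (hc : c * E ≤ 2 * dg α) :
    2 ≤ MM α ^ 4 := by
  have h := key_one R E hE h2 hN x y hxy hne
  rw [hh, ← pow_mul] at h
  exact final_aux α _ h (by nlinarith)

lemma final_two (α : 𝓞 F) (R : Ideal (𝓞 F)) (E : ℕ) (hE : 0 < E) (h2 : (2 : 𝓞 F) ∈ R ^ E)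
    (hN : (Ideal.absNorm R) ^ (E * 2) = 2 ^ finrank ℚ F) (x y : 𝓞 F) (hxy : x - y ∈ R)
    (hne : ∀ m, 0 < m → x ^ m ≠ y ^ m) (c : ℕ)
    (hh : hgt (x : F) * hgt (y : F) = hgt (α : F) ^ c) (hc : 2 * c * E ≤ dg α) :
    2 ≤ MM α ^ 4 := by
  have h := key_two R E hE h2 hN x y hxy hne
  rw [hh, ← pow_mul] at h
  exact final_aux α _ h (by nlinarith)

end final

section

variable {k F : Type*} [Field k] [NumberField k] [Field F] [NumberField F] [Algebra k F]

lemma hgt_smul (σ : Gal(F/k)) (x : 𝓞 F) : hgt ((σ • x : 𝓞 F) : F) = hgt (x : F) := by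
  have h : ((σ • x : 𝓞 F) : F) = (σ.restrictScalars ℚ) (x : F) := rfl
  rw [h, hgt_alg]

lemma hgt_coe_pow (x : 𝓞 F) (m : ℕ) : hgt ((x ^ m : 𝓞 F) : F) = hgt (x : F) ^ m := by
  rw [← hgt_pow]
  simp

/-- A Frobenius element never maps a power of `α` to its `q`-th power. -/
lemma frob_ne (φ : Gal(F/k)) (α : 𝓞 F) (hα0 : α ≠ 0) (hα : ∀ m, 0 < m → α ^ m ≠ 1) (q : ℕ)
    (hq : 2 ≤ q) (m : ℕ) (hm : 0 < m) : (α ^ q) ^ m ≠ (φ • α) ^ m := by
  intro h
  set β := α ^ m with hβ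
  have hβ0 : β ≠ 0 := pow_ne_zero _ hα0
  have h1 : φ • β = β ^ q := by
    rw [hβ, smul_pow', ← h, ← pow_mul, ← pow_mul, mul_comm]
  have h2 : ∀ j : ℕ, φ ^ j • β = β ^ (q ^ j) := by
    intro j
    induction j with
    | zero => simp
    | succ j ih => rw [pow_succ', mul_smul, ih, smul_pow', h1, ← pow_mul, ← pow_succ']
  have h3 := h2 (orderOf φ)
  rw [pow_orderOf_eq_one, one_smul] at h3
  have h4 : 0 < orderOf φ := orderOf_pos φ
  have h5 : 2 ≤ q ^ orderOf φ := hq.trans (Nat.le_self_pow h4.ne' q)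
  have h6 : β ^ (q ^ orderOf φ - 1) = 1 := by
    have h7 : β * β ^ (q ^ orderOf φ - 1) = β * 1 := by
      rw [← pow_succ', Nat.sub_add_cancel (by omega), ← h3, mul_one]
    exact mul_left_cancel₀ hβ0 h7
  rw [hβ, ← pow_mul] at h6
  exact hα _ (Nat.mul_pos hm (by omega)) h6

lemma finrank_le_dg (α : 𝓞 F) (hgen : k⟮(α : F)⟯ = ⊤) : finrank k F ≤ dg α := by
  have h1 : finrank k F = (minpoly k (α : F)).natDegree := by
    rw [← IntermediateField.adjoin.finrank (Algebra.IsIntegral.isIntegral (α : F)), hgen,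
      IntermediateField.finrank_top']
  rw [h1, dg_eq]
  have h2 := minpoly.dvd_map_of_isScalarTower ℚ k (α : F)
  refine (natDegree_le_of_dvd h2 ?_).trans (natDegree_map_le)
  exact (Polynomial.map_ne_zero_iff (algebraMap ℚ k).injective).2
    (minpoly.ne_zero (Algebra.IsIntegral.isIntegral (α : F)))

variable [IsGalois k F]

/-- If all of the Galois group acts trivially modulo the primes above `p`, and `p` has norm `2`,
then `α` is congruent to `1`. -/
lemma total_rad (p : Ideal (𝓞 k)) [p.IsMaximal] (hp : p ≠ ⊥) (h2p : (2 : 𝓞 k) ∈ p)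
    (hN : absNorm p = 2) (hc : ∀ σ τ : Gal(F/k), σ * τ = τ * σ)
    (h : ∀ σ : Gal(F/k), ∀ x : 𝓞 F, σ • x - x ∈ rad F p) (α : 𝓞 F)
    (hunit : ∀ P : Ideal (𝓞 F), P.IsPrime → (2 : 𝓞 F) ∈ P → α ∉ P) : α - 1 ∈ rad F p := by
  obtain ⟨φ, hφ⟩ := frob_rad (F := F) p hp hc
  have h1 := hφ α
  have h2 := h φ α
  rw [hN] at h1
  rw [mem_rad p hp] at h1 h2 ⊢
  intro P hP
  have h3 : α * (α - 1) ∈ P := by
    have h4 : α * (α - 1) = (φ • α - α) - (φ • α - α ^ 2) := by ring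
    rw [h4]
    exact P.sub_mem (h2 P hP) (h1 P hP)
  have hP1 : P.IsPrime := hP.1
  have := hP.2
  rcases hP1.mem_or_mem h3 with h5 | h5
  · exfalso
    refine hunit P hP.1 ?_ h5
    have h6 : algebraMap (𝓞 k) (𝓞 F) 2 ∈ P := (Ideal.mem_of_liesOver P p 2).1 h2p
    rwa [map_ofNat] at h6
  · exact h5

section nonsplit

variable (p : Ideal (𝓞 k)) [p.IsMaximal] (hp : p ≠ ⊥)

include hp

lemma rad_facts (e0 f0 : ℕ) (h2 : (2 : 𝓞 k) ∈ p ^ e0) (hN : absNorm p = 2 ^ f0) :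
    (2 : 𝓞 F) ∈ rad F p ^ (p.ramificationIdxIn (𝓞 F) * e0) ∧
    absNorm (rad F p) ^ (p.ramificationIdxIn (𝓞 F) * e0) = 2 ^ (finrank k F * (e0 * f0)) := by
  constructor
  · rw [pow_mul, rad_pow p hp, ← Ideal.map_pow]
    have h := Ideal.mem_map_of_mem (algebraMap (𝓞 k) (𝓞 F)) h2
    rwa [map_ofNat] at h
  · rw [pow_mul, absNorm_rad_pow p hp, hN, ← pow_mul, ← pow_mul]
    congr 1
    ring

/-- The case of a base field in which `2` does not split. -/
theorem nonsplit_case (hc : ∀ σ τ : Gal(F/k), σ * τ = τ * σ) (α : 𝓞 F) (e0 f0 : ℕ)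
    (hef : e0 * f0 = finrank ℚ k) (hd : finrank ℚ k ≤ 2) (h2 : (2 : 𝓞 k) ∈ p ^ e0)
    (h2p : (2 : 𝓞 k) ∈ p) (hN : absNorm p = 2 ^ f0) (hgen : k⟮(α : F)⟯ = ⊤) (hα0 : α ≠ 0)
    (hα : ∀ m, 0 < m → α ^ m ≠ 1)
    (hT : ∀ σ : Gal(F/k), σ ≠ 1 → ∀ m, 0 < m → (σ • α) ^ m ≠ α ^ m)
    (hunit : ∀ P : Ideal (𝓞 F), P.IsPrime → (2 : 𝓞 F) ∈ P → α ∉ P) (hn : 3 ≤ dg α) :
    2 ≤ MM α ^ 4 := by
  have hd0 : 0 < finrank ℚ k := finrank_pos
  obtain ⟨hR2, hRN⟩ := rad_facts (F := F) p hp e0 f0 h2 hN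
  set e := p.ramificationIdxIn (𝓞 F) with he
  have hepos : 0 < e := ramIdx_pos p
  have he0 : 0 < e0 := Nat.pos_of_ne_zero (by rintro rfl; simp at hef; omega)
  have hf0 : 0 < f0 := Nat.pos_of_ne_zero (by rintro rfl; simp at hef; omega)
  have he02 : e0 ≤ 2 := by nlinarith
  have hf02 : f0 ≤ 2 := by nlinarith
  have hRN' : absNorm (rad F p) ^ (e * e0) = 2 ^ finrank ℚ F := by
    rw [hRN, hef, mul_comm, Module.finrank_mul_finrank]
  have hE : 0 < e * e0 := Nat.mul_pos hepos he0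
  have hB := finrank_le_dg (k := k) α hgen
  obtain ⟨I, hIc, hI⟩ := inertia_rad (F := F) p hp hc
  have hcard : Nat.card Gal(F/k) = finrank k F := IsGalois.card_aut_eq_finrank k F
  have hdvd : e ∣ finrank k F := by
    rw [← hcard, he, ← hIc]
    exact Subgroup.card_subgroup_dvd_card I
  by_cases he1 : e = 1
  · -- unramified over `k`
    obtain ⟨φ, hφ⟩ := frob_rad (F := F) p hp hc
    rw [hN] at hφ
    refine final_one α (rad F p) (e * e0) hE hR2 hRN' (α ^ (2 ^ f0)) (φ • α) ?_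
      (frob_ne φ α hα0 hα _ (Nat.le_self_pow hf0.ne' 2)) (2 ^ f0 + 1) ?_ ?_
    · rw [← neg_mem_iff, neg_sub]
      exact hφ α
    · rw [hgt_coe_pow, hgt_smul, ← pow_succ]
    · rw [he1, one_mul]
      have h3 : e0 = 1 ∧ f0 = 1 ∨ e0 = 1 ∧ f0 = 2 ∨ e0 = 2 ∧ f0 = 1 := by
        have : e0 * f0 ≤ 2 := hef ▸ hd
        interval_cases e0 <;> interval_cases f0 <;> simp_all
      rcases h3 with ⟨h4, h5⟩ | ⟨h4, h5⟩ | ⟨h4, h5⟩ <;> rw [h4, h5] <;> norm_num <;> omega
  by_cases hle : e * e0 ≤ dg α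
  · -- a non-trivial element of the inertia group
    have hIne : I ≠ ⊥ := by
      intro h
      rw [h] at hIc
      simp at hIc
      omega
    obtain ⟨⟨σ, hσ⟩, hσ1⟩ := Subgroup.ne_bot_iff_exists_ne_one.1 hIne
    have hσ1' : σ ≠ 1 := fun h => hσ1 (Subtype.ext h)
    exact final_one α (rad F p) (e * e0) hE hR2 hRN' (σ • α) α ((hI σ).1 hσ α) (hT σ hσ1') 2
      (by rw [hgt_smul, sq]) (by omega)
  · -- totally ramified
    obtain ⟨t, ht⟩ := hdvd
    have ht0 : 0 < t := by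
      refine Nat.pos_of_ne_zero ?_
      rintro rfl
      have : 0 < finrank k F := finrank_pos
      omega
    have he02' : e0 = 2 := by
      have : e0 ≠ 1 := by
        rintro rfl
        nlinarith
      omega
    have hf01 : f0 = 1 := by
      subst he02'
      omega
    have ht1 : t = 1 := by
      by_contra hcon
      have : 2 ≤ t := by omega
      subst he02'
      nlinarith
    have hIt : I = ⊤ := by
      rw [← Subgroup.card_eq_iff_eq_top, hcard, ht, ht1, mul_one, hIc]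
    have h3 : α - 1 ∈ rad F p := total_rad p hp h2p (by rw [hN, hf01, pow_one]) hc
      (fun σ => (hI σ).1 (by rw [hIt]; exact Subgroup.mem_top σ)) α hunit
    refine final_one α (rad F p) (e * e0) hE hR2 hRN' α 1 h3 (fun m hm => ?_) 1 ?_ ?_
    · rw [one_pow]
      exact hα m hm
    · rw [show ((1 : 𝓞 F) : F) = 1 from rfl, hgt_one, mul_one, pow_one]
    · rw [ht, ht1, mul_one] at hB
      rw [he02']
      omega

/-- The case of a prime of degree one, not ramified, in a quadratic field. -/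
theorem split_case (hc : ∀ σ τ : Gal(F/k), σ * τ = τ * σ) (α : 𝓞 F)
    (hd : finrank ℚ k = 2) (h2 : (2 : 𝓞 k) ∈ p) (hN : absNorm p = 2)
    (hα0 : α ≠ 0) (hα : ∀ m, 0 < m → α ^ m ≠ 1)
    (hT : ∀ σ : Gal(F/k), σ ≠ 1 → ∀ m, 0 < m → (σ • α) ^ m ≠ α ^ m)
    (hunit : ∀ P : Ideal (𝓞 F), P.IsPrime → (2 : 𝓞 F) ∈ P → α ∉ P) (hn : 6 ≤ dg α)
    (hcase : p.ramificationIdxIn (𝓞 F) = 1 ∨ 4 * p.ramificationIdxIn (𝓞 F) ≤ dg α ∨
      finrank ℚ⟮(α : F)⟯ F = 1) :
    2 ≤ MM α ^ 4 := by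
  obtain ⟨hR2, hRN⟩ := rad_facts (F := F) p hp 1 1 (by simpa using h2) (by simpa using hN)
  rw [mul_one, mul_one] at hRN
  rw [mul_one] at hR2
  set e := p.ramificationIdxIn (𝓞 F) with he
  have hepos : 0 < e := ramIdx_pos p
  have hRN' : absNorm (rad F p) ^ (e * 2) = 2 ^ finrank ℚ F := by
    rw [pow_mul, hRN, ← pow_mul, mul_one, mul_comm, ← hd, Module.finrank_mul_finrank]
  obtain ⟨I, hIc, hI⟩ := inertia_rad (F := F) p hp hc
  have hcard : Nat.card Gal(F/k) = finrank k F := IsGalois.card_aut_eq_finrank k F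
  have hdvd : e ∣ finrank k F := by
    rw [← hcard, he, ← hIc]
    exact Subgroup.card_subgroup_dvd_card I
  by_cases he1 : e = 1
  · -- unramified over `k`
    obtain ⟨φ, hφ⟩ := frob_rad (F := F) p hp hc
    rw [hN] at hφ
    refine final_two α (rad F p) e hepos hR2 hRN' (α ^ 2) (φ • α) ?_
      (frob_ne φ α hα0 hα _ le_rfl) 3 ?_ ?_
    · rw [← neg_mem_iff, neg_sub]
      exact hφ α
    · rw [hgt_coe_pow, hgt_smul, ← pow_succ]
    · omega
  by_cases hle : 4 * e ≤ dg α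
  · -- a non-trivial element of the inertia group
    have hIne : I ≠ ⊥ := by
      intro h
      rw [h] at hIc
      simp at hIc
      omega
    obtain ⟨⟨σ, hσ⟩, hσ1⟩ := Subgroup.ne_bot_iff_exists_ne_one.1 hIne
    have hσ1' : σ ≠ 1 := fun h => hσ1 (Subtype.ext h)
    exact final_two α (rad F p) e hepos hR2 hRN' (σ • α) α ((hI σ).1 hσ α) (hT σ hσ1') 2
      (by rw [hgt_smul, sq]) (by omega)
  · -- totally ramified
    have hr : finrank ℚ⟮(α : F)⟯ F = 1 := by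
      rcases hcase with h | h | h
      · exact absurd h he1
      · exact absurd h hle
      · exact h
    have hdg : dg α = 2 * finrank k F := by
      have h3 := dg_mul α
      rw [hr, mul_one, ← Module.finrank_mul_finrank ℚ k F, hd] at h3
      exact h3
    obtain ⟨t, ht⟩ := hdvd
    have ht0 : 0 < t := by
      refine Nat.pos_of_ne_zero ?_
      rintro rfl
      have : 0 < finrank k F := finrank_pos
      omega
    have ht1 : t = 1 := by
      by_contra hcon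
      have : 2 ≤ t := by omega
      apply hle
      rw [hdg, ht]
      nlinarith
    have hIt : I = ⊤ := by
      rw [← Subgroup.card_eq_iff_eq_top, hcard, ht, ht1, mul_one, hIc]
    have h3 : α - 1 ∈ rad F p := total_rad p hp h2 hN hc
      (fun σ => (hI σ).1 (by rw [hIt]; exact Subgroup.mem_top σ)) α hunit
    refine final_two α (rad F p) e hepos hR2 hRN' α 1 h3 (fun m hm => ?_) 1 ?_ ?_
    · rw [one_pow]
      exact hα m hm
    · rw [show ((1 : 𝓞 F) : F) = 1 from rfl, hgt_one, mul_one, pow_one]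
    · rw [hdg, ht, ht1]
      omega

end nonsplit

end

end Pool.Agent.H21.Leh
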