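import Pool.Agent.H21.Leh.Swap

/-!
# The inequality for a generator of an abelian extension of the rationals or a quadratic field
-/

open Polynomial N60ffa576 Module NumberField IntermediateField Ideal

open scoped Pointwise

namespace Pool.Agent.H21.Leh

open Pool.Agent.H25

lemma norm_two (k : Type*) [Field k] [NumberField k] :
    Algebra.norm ℤ (2 : 𝓞 k) = 2 ^ finrank ℚ k := by
  have h := Algebra.norm_algebraMap (S := 𝓞 k) (2 : ℤ)
  rw [RingOfIntegers.rank] at h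
  have h2 : algebraMap ℤ (𝓞 k) 2 = 2 := map_ofNat _ 2
  rwa [h2] at h

lemma exists_prime_two (k : Type*) [Field k] [NumberField k] : ∃ p : Ideal (𝓞 k), p.IsMaximal ∧
    p ≠ ⊥ ∧ (2 : 𝓞 k) ∈ p ∧ absNorm p ∣ 2 ^ finrank ℚ k ∧ absNorm p ≠ 1 := by
  have h1 : (span {(2 : 𝓞 k)}) ≠ ⊤ := by
    intro h
    rw [Ideal.span_singleton_eq_top] at h
    have h2 := h.map (Algebra.norm ℤ)
    rw [norm_two, isUnit_pow_iff finrank_pos.ne', Int.isUnit_iff] at h2
    omega
  obtain ⟨p, hp, h2⟩ := Ideal.exists_le_maximal _ h1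
  have h2p : (2 : 𝓞 k) ∈ p := h2 (Ideal.mem_span_singleton_self 2)
  refine ⟨p, hp, ?_, h2p, ?_, ?_⟩
  · rintro rfl
    rw [Ideal.mem_bot] at h2p
    exact two_ne_zero h2p
  · have h3 := Ideal.absNorm_dvd_absNorm_of_le h2
    rw [Ideal.absNorm_span_singleton] at h3
    rw [norm_two, Int.natAbs_pow] at h3
    exact h3
  · rw [Ne, Ideal.absNorm_eq_one_iff]
    exact hp.ne_top

variable {k F : Type*} [Field k] [NumberField k] [Field F] [NumberField F] [Algebra k F]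
  [IsGalois k F]

/-- The inequality for a generator. -/
theorem core (hc : ∀ σ τ : Gal(F/k), σ * τ = τ * σ) (α : 𝓞 F)
    (hd : finrank ℚ k ≤ 2) (hgen : k⟮(α : F)⟯ = ⊤) (hα0 : α ≠ 0)
    (hα : ∀ m, 0 < m → α ^ m ≠ 1)
    (hT : ∀ σ : Gal(F/k), σ ≠ 1 → ∀ m, 0 < m → (σ • α) ^ m ≠ α ^ m)
    (hunit : ∀ P : Ideal (𝓞 F), P.IsPrime → (2 : 𝓞 F) ∈ P → α ∉ P) (hn : 6 ≤ dg α)
    (heven : Even (dg α)) : 2 ≤ MM α ^ 4 := by
  have hd0 : 0 < finrank ℚ k := finrank_pos
  obtain ⟨p, hp, hp0, h2p, hNd, hN1⟩ := exists_prime_two k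
  obtain ⟨f0, hf, hNf⟩ := (Nat.dvd_prime_pow Nat.prime_two).1 hNd
  have hf0 : f0 ≠ 0 := by
    rintro rfl
    exact hN1 (hNf.trans (pow_zero 2))
  rcases (by omega : finrank ℚ k = 1 ∨ finrank ℚ k = 2) with hd1 | hd2
  · have hf1 : f0 = 1 := by omega
    exact nonsplit_case p hp0 hc α 1 f0 (by omega) hd (by rwa [pow_one]) h2p hNf hgen hα0 hα hT
      hunit (by omega)
  by_cases hf2 : f0 = 2
  · exact nonsplit_case p hp0 hc α 1 f0 (by omega) hd (by rwa [pow_one]) h2p hNf hgen hα0 hα hT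
      hunit (by omega)
  have hf1 : f0 = 1 := by omega
  rw [hf1, pow_one] at hNf
  -- the complementary prime
  obtain ⟨q, hq⟩ := Ideal.dvd_iff_le.2 ((Ideal.span_singleton_le_iff_mem p).2 h2p)
  have hNq : absNorm q = 2 := by
    have h3 : absNorm (span {(2 : 𝓞 k)}) = 4 := by
      rw [Ideal.absNorm_span_singleton, norm_two, hd2]
      rfl
    rw [hq, map_mul, hNf] at h3
    omega
  have hqp : q.IsPrime := Ideal.isPrime_of_irreducible_absNorm (by
    rw [hNq]; exact Nat.prime_two.prime.irreducible)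
  have hq0 : q ≠ ⊥ := by
    rintro rfl
    simp at hNq
  have hqm : q.IsMaximal := hqp.isMaximal hq0
  have h2q : (2 : 𝓞 k) ∈ q := by
    have h3 : (2 : 𝓞 k) ∈ p * q := hq ▸ Ideal.mem_span_singleton_self 2
    exact Ideal.mul_le_left (I := q) (J := p) (by rwa [mul_comm] at h3)
  by_cases hpq : p = q
  · subst hpq
    have h3 : (2 : 𝓞 k) ∈ p ^ 2 := by
      rw [sq]
      exact hq ▸ Ideal.mem_span_singleton_self 2
    exact nonsplit_case p hp0 hc α 2 1 (by omega) hd h3 h2p (by rwa [pow_one]) hgen hα0 hα hT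
      hunit (by omega)
  by_cases hcase : p.ramificationIdxIn (𝓞 F) = 1 ∨ 4 * p.ramificationIdxIn (𝓞 F) ≤ dg α ∨
      finrank ℚ⟮(α : F)⟯ F = 1
  · exact split_case p hp0 hc α hd2 h2p hNf hα0 hα hT hunit hn hcase
  push Not at hcase
  obtain ⟨hc1, hc2, hc3⟩ := hcase
  have hr : finrank ℚ⟮(α : F)⟯ F = 2 := by
    have h3 := dg_mul α
    have h4 := finrank_le_dg (k := k) α hgen
    rw [← Module.finrank_mul_finrank ℚ k F, hd2] at h3
    have h5 : 0 < finrank ℚ⟮(α : F)⟯ F := finrank_pos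
    have h6 : 0 < dg α := dg_pos α
    have h7 : finrank ℚ⟮(α : F)⟯ F ≤ 2 := by
      by_contra hcon
      have : 3 ≤ finrank ℚ⟮(α : F)⟯ F := by omega
      nlinarith
    omega
  exact swap_case hc α hd2 p q hp0 hpq h2p h2q hNf hNq hgen hT hn heven hr (by omega)

end Pool.Agent.H21.Leh
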