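import Pool.Agent.H21.Leh.Core

/-!
# Descent: a ratio of conjugates which is a root of unity
-/

open Polynomial N60ffa576 Module NumberField IntermediateField

namespace Pool.Agent.H21.Leh

open Pool.Agent.H25

/-- Descent in the field generated by the element. -/
lemma descent_gen {K : Type*} [Field K] [NumberField K] (a : 𝓞 K) (hgen : ℚ⟮(a : K)⟯ = ⊤)
    (m : ℕ) (hm : 0 < m) (h : ℚ⟮(a : K) ^ m⟯ ≠ ⊤) :
    ∃ (b : 𝓞 K) (d : ℕ), 0 < d ∧ b ^ m = a ^ (m * d) ∧ dg b < dg a ∧ MM b ≤ MM a := by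
  set E : IntermediateField ℚ K := ℚ⟮(a : K) ^ m⟯ with hE
  set d := finrank E K with hd
  have hd0 : 0 < d := finrank_pos
  have hd1 : d ≠ 1 := by
    intro h1
    apply h
    exact IntermediateField.finrank_eq_one_iff_eq_top.1 h1
  set b' : E := Algebra.norm E (a : K) with hb'
  have hb'int : IsIntegral ℤ (algebraMap E K b') := by
    have h1 : IsIntegral ℤ b' := Algebra.isIntegral_norm E (isInt a)
    exact h1.map (IsScalarTower.toAlgHom ℤ E K)
  set b : 𝓞 K := ⟨algebraMap E K b', hb'int⟩ with hb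
  have hbK : (b : K) = algebraMap E K b' := rfl
  have hmem : (a : K) ^ m ∈ E := mem_adjoin_simple_self ℚ _
  have hpowK : (b : K) ^ m = (a : K) ^ (m * d) := by
    have h1 : Algebra.norm E ((a : K) ^ m) = (⟨(a : K) ^ m, hmem⟩ : E) ^ d :=
      Algebra.norm_algebraMap (⟨(a : K) ^ m, hmem⟩ : E)
    rw [hbK, hb', ← map_pow, ← map_pow, h1, map_pow, pow_mul]
    rfl
  have hpow : b ^ m = a ^ (m * d) := by
    apply RingOfIntegers.ext
    simpa using hpowK
  have ha1 : finrank ℚ⟮(a : K)⟯ K = 1 := by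
    rw [hgen]
    exact IntermediateField.finrank_top
  have hNa : dg a = finrank ℚ K := by
    have := dg_mul a
    rw [ha1, mul_one] at this
    exact this
  have hEd : finrank ℚ E * d = finrank ℚ K := Module.finrank_mul_finrank ℚ E K
  have hdgb : dg b ≤ finrank ℚ E := by
    have h1 := dg_eq b
    have h2 : minpoly ℚ (b : K) = minpoly ℚ b' := minpoly.algebraMap_eq (algebraMap E K).injective b'
    rw [h1, h2]
    exact minpoly.natDegree_le b'
  have hlt : dg b < dg a := by
    rw [hNa, ← hEd]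
    have h1 : 0 < finrank ℚ E := finrank_pos
    have h2 : 2 ≤ d := by omega
    nlinarith
  refine ⟨b, d, hd0, hpow, hlt, ?_⟩
  have hH : hgt (b : K) = hgt (a : K) ^ d := by
    have h1 : hgt (b : K) ^ m = (hgt (a : K) ^ d) ^ m := by
      rw [← hgt_pow, hpowK, hgt_pow, pow_mul, pow_right_comm]
    exact (pow_left_inj₀ (hgt_pos _).le (pow_nonneg (hgt_pos _).le _) hm.ne').1 h1
  rw [hgt_MM, hgt_MM, ha1, pow_one] at hH
  have h3 : d ≤ finrank ℚ⟮(b : K)⟯ K := by
    have h4 := dg_mul b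
    rw [← hEd] at h4
    by_contra hcon
    push Not at hcon
    have h5 : 0 < finrank ℚ⟮(b : K)⟯ K := finrank_pos
    have h6 : 0 < finrank ℚ E := finrank_pos
    nlinarith
  have h4 : MM b ^ d ≤ MM a ^ d := by
    rw [← hH]
    exact pow_le_pow_right₀ (one_le_MM b) h3
  exact le_of_pow_le_pow_left₀ hd0.ne' (zero_le_one.trans (one_le_MM a)) h4

end Pool.Agent.H21.Leh
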