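import Pool.Agent.H21.Leh.Forms

/-!
# The field with eight elements
-/

set_option autoImplicit false

namespace Pool.Agent.H21.Leh

variable {F : Type*} [Field F] [Fintype F] [DecidableEq F]
variable {m : F → ℕ} {n : ℕ} {x μ : ℝ}

lemma eight_const (hq : Fintype.card F = 8) (h : Prof 2 m n 1 μ) {a b : F} (ha0 : a ≠ 0)
    (ha1 : a ≠ 1) (hb0 : b ≠ 0) (hb1 : b ≠ 1) : m b = m a := by
  have hcard : Nat.card Fˣ = 7 := by
    rw [Nat.card_eq_fintype_card, Fintype.card_units, hq]
  have h7 : Fact (Nat.Prime 7) := ⟨by norm_num⟩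
  set ua := Units.mk0 a ha0 with hua
  set ub := Units.mk0 b hb0 with hub
  have hua1 : ua ≠ 1 := by
    intro h1
    apply ha1
    have := congrArg Units.val h1
    simpa [hua] using this
  obtain ⟨k, hk⟩ := mem_powers_of_prime_card (g := ua) (g' := ub) hcard hua1
  have hk' : a ^ k = b := by
    have := congrArg Units.val hk
    simpa [hua, hub] using this
  have ha7 : a ^ 7 = 1 := by
    have := FiniteField.pow_card_sub_one_eq_one a ha0
    rw [hq] at this
    exact this
  have hkr : a ^ (k % 7) = b := by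
    rw [← hk']
    conv_rhs => rw [← Nat.div_add_mod k 7, pow_add, pow_mul, ha7, one_pow, one_mul]
  have hlt : k % 7 < 7 := Nat.mod_lt _ (by norm_num)
  have hfrob : ∀ c : F, m (c ^ 2) = m c := h.frob
  have hinv6 : a ^ 6 = a⁻¹ := eq_inv_of_mul_eq_one_left (by rw [← pow_succ, ha7])
  have hinv5 : a ^ 5 = (a ^ 2)⁻¹ := eq_inv_of_mul_eq_one_left (by rw [← pow_add, ha7])
  have hinv3 : a ^ 3 = ((a ^ 2) ^ 2)⁻¹ :=
    eq_inv_of_mul_eq_one_left (by rw [← pow_mul, ← pow_add, ha7])
  have h4 : a ^ 4 = (a ^ 2) ^ 2 := by rw [← pow_mul]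
  generalize k % 7 = r at hkr hlt
  interval_cases r
  · rw [pow_zero] at hkr
    exact absurd hkr.symm hb1
  · rw [← hkr, pow_one]
  · rw [← hkr, hfrob]
  · rw [← hkr, hinv3, h.inv, hfrob, hfrob]
  · rw [← hkr, h4, hfrob, hfrob]
  · rw [← hkr, hinv5, h.inv, hfrob]
  · rw [← hkr, hinv6, h.inv]

theorem no_eight (hq : Fintype.card F = 8) (h : Prof 2 m n 1 μ) : False := by
  obtain ⟨a, ha0, ha, hmax⟩ := h.exists_max
  have hn := h.n_pos
  have h1 := h.all0 (m a) ha hmax
  rw [hq] at h1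
  norm_num at h1
  -- an element different from 0 and 1
  obtain ⟨g, hg⟩ : ∃ g : F, g ∉ ({0, 1} : Finset F) := by
    by_contra hcon
    push Not at hcon
    have h2 : (Finset.univ : Finset F) ⊆ {0, 1} := fun g _ => hcon g
    have h3 := Finset.card_le_card h2
    rw [Finset.card_univ, hq] at h3
    have h4 : ({0, 1} : Finset F).card ≤ 2 := Finset.card_le_two
    omega
  rw [Finset.mem_insert, Finset.mem_singleton, not_or] at hg
  obtain ⟨hg0, hg1⟩ := hg
  set c := m g with hc
  set S' : Finset F := (Finset.univ.erase 0).erase 1 with hS'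
  have hS'card : S'.card = 6 := by
    rw [hS', Finset.card_erase_of_mem (by simp), Finset.card_erase_of_mem (by simp),
      Finset.card_univ, hq]
  have hS'c : ∀ b ∈ S', m b = c := by
    intro b hb
    rw [hS', Finset.mem_erase, Finset.mem_erase] at hb
    exact eight_const hq h hg0 hg1 hb.2.1 hb.1
  have hS1 : (1 : F) ∉ S' := by simp [hS']
  have hS0 : (0 : F) ∉ insert 1 S' := by simp [hS']
  have huniv : (Finset.univ : Finset F) = insert 0 (insert 1 S') := by
    ext y
    simp only [Finset.mem_univ, Finset.mem_insert, hS', Finset.mem_erase, and_true, true_iff]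
    tauto
  have hnsum : n = m 1 + 6 * c := by
    rw [← h.sum, huniv, Finset.sum_insert hS0, Finset.sum_insert hS1, h.zero,
      Finset.sum_congr rfl hS'c, Finset.sum_const, hS'card]
    simp
  have hnr : (n : ℝ) = m 1 + 6 * c := by exact_mod_cast hnsum
  have ha1 : a = 1 := by
    by_contra hne
    have h2 : m a = c := eight_const hq h hg0 hg1 ha0 hne
    rw [h2] at h1
    have : (0 : ℝ) ≤ m 1 := Nat.cast_nonneg _
    have : (0 : ℝ) ≤ c := Nat.cast_nonneg _
    linarith
  subst ha1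
  set e := m 1 with he
  have he0 : (0 : ℝ) < e := by exact_mod_cast ha
  by_cases h2e : (n : ℝ) ≤ 2 * e
  · have h6 := h.single1 1 ha 1 (Or.inl rfl) 1 one_pos (by simp) (by
      have : (0 : ℝ) ≤ c := Nat.cast_nonneg _
      rw [← he]; linarith) (by rw [← he]; linarith)
    rw [← he] at h6
    norm_num at h6
    linarith
  push Not at h2e
  have hc0 : 0 < c := by
    by_contra hcon
    have : c = 0 := by omega
    rw [this] at hnr
    push_cast at hnr
    linarith
  have hc0' : (0 : ℝ) < c := by exact_mod_cast hc0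
  obtain ⟨j, hj, hj'⟩ := exists_lev (p := 2) le_rfl (e : ℝ) (by exact_mod_cast ha)
  obtain ⟨i, hi, hi'⟩ := exists_lev (p := 2) le_rfl (c : ℝ) (by exact_mod_cast hc0)
  have hj1 : (2 : ℝ) ^ j ≤ 2 * e := by push_cast at hj; linarith
  have hj2 : (e : ℝ) ≤ 2 ^ j := by push_cast at hj'; linarith
  have hi1 : (2 : ℝ) ^ i ≤ 2 * c := by push_cast at hi; linarith
  have hi2 : (c : ℝ) ≤ 2 ^ i := by push_cast at hi'; linarith
  have hij : i ≤ j := by
    by_contra hcon
    push Not at hcon
    have h3 : (2 : ℝ) ^ (j + 1) ≤ 2 ^ i := pow_le_pow_right₀ (by norm_num) hcon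
    rw [pow_succ] at h3
    linarith
  obtain ⟨s, rfl⟩ := Nat.exists_eq_add_of_le hij
  have hlow1 := KK_high (p := 2) le_rfl e (i + s) 0 e (by exact_mod_cast ha) le_rfl hj hj'
  have hlow2 := KK_high (p := 2) le_rfl c i s c (by exact_mod_cast hc0) le_rfl hi hi'
  have hl1 : (2 : ℝ) ^ (i + s) ≤ KK 2 e (i + s) := by
    have h3 := le_of_mul_le_mul_left hlow1 he0
    push_cast at h3
    simpa using h3
  have hl2 : (2 : ℝ) ^ i + s * c ≤ KK 2 c (i + s) := by
    have h3 := le_of_mul_le_mul_left hlow2 hc0'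
    push_cast at h3
    exact h3
  have hmain := h.sub 1 (Or.inl rfl) 7 (i + s) (by norm_num) (insert 1 S') (by
    intro b hb
    have hb0 : b ≠ 0 := by
      rintro rfl
      exact hS0 hb
    have := FiniteField.pow_card_sub_one_eq_one b hb0
    rw [hq] at this
    rw [this]; simp)
  have hsum2 : (∑ b ∈ S', (KK 2 (m b) (i + s) : ℝ)) = 6 * KK 2 c (i + s) := by
    rw [Finset.sum_congr rfl (fun b hb => by rw [hS'c b hb]), Finset.sum_const, hS'card]
    simp
  rw [Finset.sum_insert hS1, hsum2, ← he, mul_one] at hmain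
  have hμ := h.small
  have hJ0 : (0 : ℝ) < 2 ^ (i + s) := by positivity
  have hmain2 : (2 : ℝ) ^ (i + s) + 6 * (2 ^ i + s * c) ≤ n + 7 * 2 ^ (i + s) * (15 / 64) := by
    have h5 : 7 * (2 : ℝ) ^ (i + s) * μ ≤ 7 * 2 ^ (i + s) * (15 / 64) := by gcongr
    push_cast at hmain
    linarith
  have hJi : (0 : ℝ) < 2 ^ i := by positivity
  rw [pow_add] at hmain2 hj1 hj2
  rcases (by omega : s = 0 ∨ s = 1 ∨ s = 2 ∨ s = 3 ∨ 4 ≤ s) with rfl | rfl | rfl | rfl | hs
  · norm_num at hmain2 hj1 hj2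
    linarith
  · norm_num at hmain2 hj1 hj2
    linarith
  · norm_num at hmain2 hj1 hj2
    linarith
  · norm_num at hmain2 hj1 hj2
    linarith
  · have h16 : (16 : ℝ) ≤ 2 ^ s := by
      have := pow_le_pow_right₀ (by norm_num : (1 : ℝ) ≤ 2) hs
      norm_num at this
      exact this
    have h17 : (2 : ℝ) ^ i * 16 ≤ 2 ^ i * 2 ^ s := by gcongr
    linarith

end Pool.Agent.H21.Leh
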