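import Pool.Agent.H21.Leh.Forms

/-!
# The fields with at most seven elements, and with eleven elements
-/

set_option autoImplicit false

namespace Pool.Agent.H21.Leh

variable {F : Type*} [Field F] [Fintype F] [DecidableEq F]
variable {m : F → ℕ} {n : ℕ} {x μ : ℝ}

theorem no_two (hq : Fintype.card F = 2) (h : Prof 2 m n 1 μ) : False := by
  obtain ⟨a, ha0, ha, hmax⟩ := h.exists_max
  have hn := h.n_pos
  have h1 := h.all0 (m a) ha hmax
  have h2 : (m a : ℝ) ≤ n := by
    have := h.sum_le {a}
    rw [Finset.sum_singleton] at this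
    exact_mod_cast this
  rw [hq] at h1
  norm_num at h1
  linarith

theorem no_three (hq : Fintype.card F = 3) (h : Prof 3 m n x μ) (hx : 1.58 ≤ x) :
    False := by
  obtain ⟨a, ha0, ha, hmax⟩ := h.exists_max
  have hn := h.n_pos
  have h1 := h.all0 (m a) ha hmax
  have h2 : (m a : ℝ) ≤ n := by
    have := h.sum_le {a}
    rw [Finset.sum_singleton] at this
    exact_mod_cast this
  rw [hq] at h1
  norm_num at h1
  have h3 : 15 * (m a : ℝ) * 2 * (x + 2) ≤ 15 * n * 2 * (x + 2) := by
    have : 0 < x + 2 := by linarith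
    gcongr
  have h4 : 15 * n * 2 * (x + 2) ≤ 64 * n * x ^ 2 := by
    have : 0 ≤ n * (64 * x ^ 2 - 30 * (x + 2)) := by
      apply mul_nonneg hn.le
      nlinarith
    linarith
  linarith

theorem no_four (hq : Fintype.card F = 4) (h : Prof 2 m n 1 μ) : False := by
  obtain ⟨a, ha0, ha, hmax⟩ := h.exists_max
  have hn := h.n_pos
  have h1 := h.all0 (m a) ha hmax
  have h2 : (m a : ℝ) ≤ n := by
    have := h.sum_le {a}
    rw [Finset.sum_singleton] at this
    exact_mod_cast this
  rw [hq] at h1
  norm_num at h1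
  by_cases hinv : a = a⁻¹
  · have h3 : a * a = 1 := by
      nth_rewrite 2 [hinv]
      exact mul_inv_cancel₀ ha0
    have h4 : a ^ 3 = 1 := by
      have := FiniteField.pow_card_sub_one_eq_one a ha0
      rw [hq] at this
      exact this
    have h5 : a ^ 1 = ((1 : ℤ) : F) := by
      have : a ^ 3 = a * a * a := by ring
      rw [this, h3, one_mul] at h4
      rw [h4]; simp
    have h6 := h.single1 a ha 1 (Or.inl rfl) 1 one_pos h5 (by linarith) (by linarith)
    norm_num at h6
    linarith
  · have := h.two_mul_le a hinv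
    linarith

/-- Common part of the cases of prime fields: the largest class is not a sign, or small. -/
theorem no_five (hq : Fintype.card F = 5) (h : Prof 5 m n x μ) (hx : 2.32 ≤ x) :
    False := by
  obtain ⟨a, ha0, ha, hmax⟩ := h.exists_max
  have hn := h.n_pos
  have h1 := h.all0 (m a) ha hmax
  rw [hq] at h1
  norm_num at h1
  have hma : (0 : ℝ) < m a := by exact_mod_cast ha
  have h3 : 0.9 * n ≤ (m a : ℝ) := by
    by_contra hcon
    push Not at hcon
    have h4 : 15 * (m a : ℝ) * 4 * (x + 4) ≤ 15 * (0.9 * n) * 4 * (x + 4) := by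
      have : 0 < x + 4 := by linarith
      gcongr
    have h5 : 0 ≤ n * (64 * x ^ 2 - 54 * (x + 4)) := by
      apply mul_nonneg hn.le
      nlinarith
    linarith
  by_cases hinv : a = a⁻¹
  · have h4 : a ^ (2 * 1) = 1 := by
      have : a * a = 1 := by
        nth_rewrite 2 [hinv]
        exact mul_inv_cancel₀ ha0
      rw [mul_one, sq, this]
    obtain ⟨ε, hε, haε⟩ := exists_sign (p := 5) (by decide) h4
    have h9 : 2.32 * (m a : ℝ) ≤ m a * x := by
      rw [mul_comm]; exact mul_le_mul_of_nonneg_left hx hma.le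
    have h6 := h.single0 a ha ε hε 1 one_pos haε (by linarith)
    norm_num at h6
    have h8 : 2.32 * (m a * x) ≤ m a * x ^ 2 := by
      calc 2.32 * (m a * x) ≤ x * (m a * x) := by gcongr
        _ = _ := by ring
    linarith
  · have := h.two_mul_le a hinv
    linarith

theorem no_seven (hq : Fintype.card F = 7) (h : Prof 7 m n x μ) (hx : 2.8 ≤ x) :
    False := by
  obtain ⟨a, ha0, ha, hmax⟩ := h.exists_max
  have hn := h.n_pos
  have h1 := h.all0 (m a) ha hmax
  rw [hq] at h1
  norm_num at h1
  have hma : (0 : ℝ) < m a := by exact_mod_cast ha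
  have h3 : 0.63 * n ≤ (m a : ℝ) := by
    by_contra hcon
    push Not at hcon
    have h4 : 15 * (m a : ℝ) * 6 * (x + 6) ≤ 15 * (0.63 * n) * 6 * (x + 6) := by
      have : 0 < x + 6 := by linarith
      gcongr
    have h5 : 0 ≤ n * (64 * x ^ 2 - 56.7 * (x + 6)) := by
      apply mul_nonneg hn.le
      nlinarith
    linarith
  by_cases hinv : a = a⁻¹
  · have h4 : a ^ (2 * 1) = 1 := by
      have : a * a = 1 := by
        nth_rewrite 2 [hinv]
        exact mul_inv_cancel₀ ha0
      rw [mul_one, sq, this]
    obtain ⟨ε, hε, haε⟩ := exists_sign (p := 7) (by decide) h4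
    have h9 : 2.8 * (m a : ℝ) ≤ m a * x := by
      rw [mul_comm]; exact mul_le_mul_of_nonneg_left hx hma.le
    have h6 := h.single0 a ha ε hε 1 one_pos haε (by linarith)
    norm_num at h6
    have h8 : 2.8 * (m a * x) ≤ m a * x ^ 2 := by
      calc 2.8 * (m a * x) ≤ x * (m a * x) := by gcongr
        _ = _ := by ring
    linarith
  · have := h.two_mul_le a hinv
    linarith

theorem no_eleven (hq : Fintype.card F = 11) (h : Prof 11 m n x μ) (hx : 3.45 ≤ x) :
    False := by
  obtain ⟨a, ha0, ha, hmax⟩ := h.exists_max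
  have hn := h.n_pos
  have h1 := h.all0 (m a) ha hmax
  rw [hq] at h1
  norm_num at h1
  have hma : (0 : ℝ) < m a := by exact_mod_cast ha
  have h3 : 0.37 * n ≤ (m a : ℝ) := by
    by_contra hcon
    push Not at hcon
    have h4 : 15 * (m a : ℝ) * 10 * (x + 10) ≤ 15 * (0.37 * n) * 10 * (x + 10) := by
      have : 0 < x + 10 := by linarith
      gcongr
    have h5 : 0 ≤ n * (64 * x ^ 2 - 55.5 * (x + 10)) := by
      apply mul_nonneg hn.le
      nlinarith
    linarith
  have h7 : 0.37 * n * 3.45 ≤ m a * x := by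
    apply mul_le_mul h3 hx (by norm_num) hma.le
  by_cases hinv : a = a⁻¹
  · have h4 : a ^ (2 * 1) = 1 := by
      have : a * a = 1 := by
        nth_rewrite 2 [hinv]
        exact mul_inv_cancel₀ ha0
      rw [mul_one, sq, this]
    obtain ⟨ε, hε, haε⟩ := exists_sign (p := 11) (by decide) h4
    have h6 := h.single0 a ha ε hε 1 one_pos haε (by linarith)
    norm_num at h6
    nlinarith
  · have h4 : a ^ (2 * 5) = 1 := by
      have := FiniteField.pow_card_sub_one_eq_one a ha0
      rw [hq] at this
      exact this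
    obtain ⟨ε, hε, haε⟩ := exists_sign (p := 11) (by decide) h4
    have h6 := h.pair0 a ha hinv ε hε 5 (by norm_num) haε (by linarith)
    norm_num at h6
    nlinarith

end Pool.Agent.H21.Leh
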