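import Pool.Agent.H21.Leh.Lev

/-!
# Special forms of the elimination inequality
-/

set_option autoImplicit false

namespace Pool.Agent.H21.Leh

variable {F : Type*} [Field F] [Fintype F] [DecidableEq F]

namespace Prof

variable {p : ℕ} {m : F → ℕ} {n : ℕ} {x μ : ℝ}

lemma sum_le (h : Prof p m n x μ) (S : Finset F) : ∑ a ∈ S, m a ≤ n := by
  rw [← h.sum]
  exact Finset.sum_le_sum_of_subset_of_nonneg (Finset.subset_univ _) (fun _ _ _ => Nat.zero_le _)

lemma n_pos (h : Prof p m n x μ) : (0 : ℝ) < n := by exact_mod_cast h.pos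

/-- A class of maximal multiplicity. -/
lemma exists_max (h : Prof p m n x μ) : ∃ a : F, a ≠ 0 ∧ 0 < m a ∧ ∀ b, m b ≤ m a := by
  obtain ⟨a, _, ha⟩ := Finset.exists_max_image Finset.univ m ⟨0, Finset.mem_univ _⟩
  have h1 : 0 < m a := by
    by_contra hcon
    have h2 : m a = 0 := by omega
    have h3 : ∑ b, m b = 0 := by
      apply Finset.sum_eq_zero
      intro b hb
      have := ha b hb
      omega
    have := h.sum
    have := h.pos
    omega
  refine ⟨a, ?_, h1, fun b => ha b (Finset.mem_univ _)⟩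
  rintro rfl
  rw [h.zero] at h1
  exact lt_irrefl _ h1

/-- All classes. -/
lemma all0 (h : Prof p m n x μ) (E : ℕ) (hE : 0 < E) (hE' : ∀ a, m a ≤ E) :
    64 * n * x ^ 2 < 15 * E * (Fintype.card F - 1 : ℕ) * (x + (p - 1)) := by
  have hx := h.one_le
  have hn := h.n_pos
  have hcard : 0 < Fintype.card F - 1 := by
    have := Fintype.one_lt_card (α := F)
    omega
  have hsum : (n : ℝ) = ∑ a ∈ Finset.univ.filter (fun a : F => a ≠ 0), (m a : ℝ) := by
    rw [← h.sum, Nat.cast_sum, Finset.sum_filter]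
    apply Finset.sum_congr rfl
    intro a _
    by_cases ha : a = 0
    · rw [ha, h.zero]; simp
    · simp [ha]
  have h1 := h.elim 1 (Or.inl rfl) (Fintype.card F - 1) 0 hcard
    (Finset.univ.filter (fun a : F => a ≠ 0)) (by
      intro a ha
      rw [Finset.mem_filter] at ha
      rw [FiniteField.pow_card_sub_one_eq_one a ha.2]
      simp) E (by exact_mod_cast hE) (by intro a _; exact_mod_cast hE' a) n hsum
      (by rw [Nat.cast_zero, zero_mul]; exact hn.le)
      (by push_cast; nlinarith)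
  rw [pow_zero, mul_one, Nat.cast_zero, zero_mul, sub_zero] at h1
  have h2 : (n : ℝ) * (64 * n * x ^ 2) <
      n * (15 * E * (Fintype.card F - 1 : ℕ) * (x + (p - 1))) := by
    calc (n : ℝ) * (64 * n * x ^ 2) = 64 * (n * x) ^ 2 := by ring
      _ < _ := h1
      _ = _ := by ring
  exact lt_of_mul_lt_mul_left h2 hn.le

/-- One class, first range. -/
lemma single0 (h : Prof p m n x μ) (a : F) (ha : 0 < m a) (ε : ℤ)
    (hε : ε = 1 ∨ ε = -1 ∧ Odd p) (T : ℕ) (hT : 0 < T) (haT : a ^ T = (ε : F))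
    (h1 : (n : ℝ) ≤ m a * x) :
    64 * (m a : ℝ) * x ^ 2 < 15 * T * (m a * x + (p - 1) * n) := by
  have hn := h.n_pos
  have hm : (0 : ℝ) < m a := by exact_mod_cast ha
  have h2 := h.elim ε hε T 0 hT {a} (by
      intro b hb
      rw [Finset.mem_singleton] at hb
      rw [hb, haT]) (m a) (by exact_mod_cast ha) (by
      intro b hb
      rw [Finset.mem_singleton] at hb
      rw [hb]) (m a) (by simp)
      (by rw [Nat.cast_zero, zero_mul]; exact hn.le)
      (by push_cast; linarith)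
  rw [pow_zero, mul_one, Nat.cast_zero, zero_mul, sub_zero] at h2
  have h3 : (m a : ℝ) * (64 * (m a : ℝ) * x ^ 2) <
      m a * (15 * T * (m a * x + (p - 1) * n)) := by
    calc (m a : ℝ) * (64 * (m a : ℝ) * x ^ 2) = 64 * (m a * x) ^ 2 := by ring
      _ < _ := h2
      _ = _ := by ring
  exact lt_of_mul_lt_mul_left h3 hm.le

/-- One class, second range. -/
lemma single1 (h : Prof p m n x μ) (a : F) (ha : 0 < m a) (ε : ℤ)
    (hε : ε = 1 ∨ ε = -1 ∧ Odd p) (T : ℕ) (hT : 0 < T) (haT : a ^ T = (ε : F))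
    (h0 : (m a : ℝ) * x ≤ n) (h1 : (n : ℝ) ≤ 2 * (m a * x)) :
    64 * (m a : ℝ) * x ^ 2 < 15 * T * p * (m a * x + (p - 1) * (n - m a * x)) := by
  have hn := h.n_pos
  have hm : (0 : ℝ) < m a := by exact_mod_cast ha
  have h2 := h.elim ε hε T 1 hT {a} (by
      intro b hb
      rw [Finset.mem_singleton] at hb
      rw [hb, haT]) (m a) (by exact_mod_cast ha) (by
      intro b hb
      rw [Finset.mem_singleton] at hb
      rw [hb]) (m a) (by simp)
      (by rw [Nat.cast_one, one_mul]; exact h0)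
      (by push_cast; linarith)
  rw [pow_one, Nat.cast_one, one_mul] at h2
  have h3 : (m a : ℝ) * (64 * (m a : ℝ) * x ^ 2) <
      m a * (15 * T * p * (m a * x + (p - 1) * (n - m a * x))) := by
    calc (m a : ℝ) * (64 * (m a : ℝ) * x ^ 2) = 64 * (m a * x) ^ 2 := by ring
      _ < _ := h2
      _ = _ := by ring
  exact lt_of_mul_lt_mul_left h3 hm.le

/-- A class and its inverse, first range. -/
lemma pair0 (h : Prof p m n x μ) (a : F) (ha : 0 < m a) (hinv : a ≠ a⁻¹) (ε : ℤ)
    (hε : ε = 1 ∨ ε = -1 ∧ Odd p) (T : ℕ) (hT : 0 < T) (haT : a ^ T = (ε : F))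
    (h1 : (n : ℝ) ≤ 2 * m a * x) :
    256 * (m a : ℝ) * x ^ 2 < 15 * T * (2 * m a * x + (p - 1) * n) := by
  have hn := h.n_pos
  have hm : (0 : ℝ) < m a := by exact_mod_cast ha
  have hεinv : ((ε : F))⁻¹ = ε := by
    rcases hε with h | ⟨h, _⟩ <;> rw [h] <;> simp [inv_neg]
  have h2 := h.elim ε hε T 0 hT {a, a⁻¹} (by
      intro b hb
      rw [Finset.mem_insert, Finset.mem_singleton] at hb
      rcases hb with rfl | rfl
      · exact haT
      · rw [inv_pow, haT, hεinv]) (m a) (by exact_mod_cast ha) (by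
      intro b hb
      rw [Finset.mem_insert, Finset.mem_singleton] at hb
      rcases hb with rfl | rfl
      · exact le_rfl
      · rw [h.inv]) (2 * m a) (by rw [Finset.sum_pair hinv, h.inv]; ring)
      (by rw [Nat.cast_zero, zero_mul]; exact hn.le)
      (by push_cast; linarith)
  rw [pow_zero, mul_one, Nat.cast_zero, zero_mul, sub_zero] at h2
  have h3 : (m a : ℝ) * (256 * (m a : ℝ) * x ^ 2) <
      m a * (15 * T * (2 * m a * x + (p - 1) * n)) := by
    calc (m a : ℝ) * (256 * (m a : ℝ) * x ^ 2) = 64 * (2 * m a * x) ^ 2 := by ring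
      _ < _ := h2
      _ = _ := by ring
  exact lt_of_mul_lt_mul_left h3 hm.le

/-- A class and its inverse, second range. -/
lemma pair1 (h : Prof p m n x μ) (a : F) (ha : 0 < m a) (hinv : a ≠ a⁻¹) (ε : ℤ)
    (hε : ε = 1 ∨ ε = -1 ∧ Odd p) (T : ℕ) (hT : 0 < T) (haT : a ^ T = (ε : F))
    (h0 : 2 * (m a : ℝ) * x ≤ n) (h1 : (n : ℝ) ≤ 4 * m a * x) :
    256 * (m a : ℝ) * x ^ 2 < 15 * T * p * (2 * m a * x + (p - 1) * (n - 2 * m a * x)) := by
  have hn := h.n_pos
  have hm : (0 : ℝ) < m a := by exact_mod_cast ha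
  have hεinv : ((ε : F))⁻¹ = ε := by
    rcases hε with h | ⟨h, _⟩ <;> rw [h] <;> simp [inv_neg]
  have h2 := h.elim ε hε T 1 hT {a, a⁻¹} (by
      intro b hb
      rw [Finset.mem_insert, Finset.mem_singleton] at hb
      rcases hb with rfl | rfl
      · exact haT
      · rw [inv_pow, haT, hεinv]) (m a) (by exact_mod_cast ha) (by
      intro b hb
      rw [Finset.mem_insert, Finset.mem_singleton] at hb
      rcases hb with rfl | rfl
      · exact le_rfl
      · rw [h.inv]) (2 * m a) (by rw [Finset.sum_pair hinv, h.inv]; ring)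
      (by rw [Nat.cast_one, one_mul]; exact h0)
      (by push_cast; linarith)
  rw [pow_one, Nat.cast_one, one_mul] at h2
  have h3 : (m a : ℝ) * (256 * (m a : ℝ) * x ^ 2) <
      m a * (15 * T * p * (2 * m a * x + (p - 1) * (n - 2 * m a * x))) := by
    calc (m a : ℝ) * (256 * (m a : ℝ) * x ^ 2) = 64 * (2 * m a * x) ^ 2 := by ring
      _ < _ := h2
      _ = _ := by ring
  exact lt_of_mul_lt_mul_left h3 hm.le

lemma two_mul_le (h : Prof p m n x μ) (a : F) (hinv : a ≠ a⁻¹) : 2 * (m a : ℝ) ≤ n := by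
  have h1 := h.sum_le {a, a⁻¹}
  rw [Finset.sum_pair hinv, h.inv] at h1
  have : 2 * m a ≤ n := by omega
  exact_mod_cast this

end Prof

omit [Fintype F] [DecidableEq F] in
lemma ne_inv {a : F} (h0 : a ≠ 0) (h1 : a ≠ 1) (h2 : a ≠ -1) : a ≠ a⁻¹ := by
  intro h
  have h3 : a * a = 1 := by
    nth_rewrite 2 [h]
    exact mul_inv_cancel₀ h0
  rcases mul_self_eq_one_iff.1 h3 with h4 | h4
  · exact h1 h4
  · exact h2 h4

omit [Fintype F] [DecidableEq F] in
/-- Square roots of one, as integers. -/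
lemma exists_sign {p : ℕ} (hp : Odd p) {a : F} {T : ℕ} (h : a ^ (2 * T) = 1) :
    ∃ ε : ℤ, (ε = 1 ∨ ε = -1 ∧ Odd p) ∧ a ^ T = (ε : F) := by
  have h1 : a ^ T * a ^ T = 1 := by rw [← pow_add, ← two_mul]; exact h
  rcases mul_self_eq_one_iff.1 h1 with h2 | h2
  · exact ⟨1, Or.inl rfl, by rw [h2]; simp⟩
  · exact ⟨-1, Or.inr ⟨rfl, hp⟩, by rw [h2]; simp⟩

end Pool.Agent.H21.Leh
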