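import Mathlib
import Pool.Agent.H25.TwoAdic

/-!
# The product of `max 1 |τ x|` over the embeddings, and the Mahler measure
-/

open Polynomial N60ffa576 Module NumberField IntermediateField

namespace Pool.Agent.H21.Leh

open Pool.Agent.H25

variable {F : Type*} [Field F] [NumberField F]

/-- The product of `max 1 |τ x|` over all embeddings `τ` of `F`. -/
noncomputable def hgt (x : F) : ℝ := ∏ τ : F →ₐ[ℚ] ℂ, max 1 ‖τ x‖

lemma one_le_hgt (x : F) : 1 ≤ hgt x := by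
  unfold hgt
  exact Finset.prod_induction _ (fun r : ℝ => 1 ≤ r) (fun a b ha hb => one_le_mul_of_one_le_of_one_le ha hb)
    le_rfl fun _ _ => le_max_left _ _

lemma hgt_pos (x : F) : 0 < hgt x := zero_lt_one.trans_le (one_le_hgt x)

lemma hgt_pow (x : F) (m : ℕ) : hgt (x ^ m) = hgt x ^ m := by
  unfold hgt
  rw [← Finset.prod_pow]
  exact Finset.prod_congr rfl fun τ _ => by rw [map_pow, max_pow]

lemma hgt_one : hgt (1 : F) = 1 := by
  simp [hgt]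

lemma hgt_alg (σ : F ≃ₐ[ℚ] F) (x : F) : hgt (σ x) = hgt x := by
  unfold hgt
  exact Fintype.prod_equiv (σ.arrowCongr (AlgEquiv.refl : ℂ ≃ₐ[ℚ] ℂ)).symm _ _ fun τ => by
    simp [AlgEquiv.arrowCongr]

/-- The basic upper bound. -/
lemma abs_norm_sub_le (x y : F) :
    |((Algebra.norm ℚ (x - y) : ℚ) : ℝ)| ≤ 2 ^ finrank ℚ F * (hgt x * hgt y) := by
  have h1 := Algebra.norm_eq_prod_embeddings ℚ ℂ (x - y)
  have h2 : |((Algebra.norm ℚ (x - y) : ℚ) : ℝ)| = ∏ τ : F →ₐ[ℚ] ℂ, ‖τ (x - y)‖ := by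
    rw [← norm_prod, ← h1]
    simp
  rw [h2]
  have h3 : (2 : ℝ) ^ finrank ℚ F = ∏ τ : F →ₐ[ℚ] ℂ, (2 : ℝ) := by
    rw [Finset.prod_const, Finset.card_univ, AlgHom.card]
  rw [h3]
  unfold hgt
  rw [← Finset.prod_mul_distrib, ← Finset.prod_mul_distrib]
  refine Finset.prod_le_prod (fun _ _ => norm_nonneg _) fun τ _ => ?_
  rw [map_sub]
  have ha : 1 ≤ max 1 ‖τ x‖ := le_max_left _ _
  have hb : 1 ≤ max 1 ‖τ y‖ := le_max_left _ _
  have ha' : ‖τ x‖ ≤ max 1 ‖τ x‖ := le_max_right _ _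
  have hb' : ‖τ y‖ ≤ max 1 ‖τ y‖ := le_max_right _ _
  calc ‖τ x - τ y‖ ≤ ‖τ x‖ + ‖τ y‖ := norm_sub_le _ _
    _ ≤ 2 * (max 1 ‖τ x‖ * max 1 ‖τ y‖) := by nlinarith

/-- The values of a function at the conjugates. -/
lemma prod_emb (g : ℂ → ℝ) (x : F) :
    ∏ τ : F →ₐ[ℚ] ℂ, g (τ x) =
      (((minpoly ℚ x).aroots ℂ).map g).prod ^ finrank ℚ⟮x⟯ F := by
  have hx : IsIntegral ℚ x := Algebra.IsIntegral.isIntegral x
  let pb := IntermediateField.adjoin.powerBasis hx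
  have hgen : algebraMap ℚ⟮x⟯ F pb.gen = x := rfl
  have h1 : ∏ τ : F →ₐ[ℚ] ℂ, g (τ x) =
      (∏ σ : ℚ⟮x⟯ →ₐ[ℚ] ℂ, g (σ pb.gen)) ^ finrank ℚ⟮x⟯ F := by
    rw [Fintype.prod_equiv algHomEquivSigma (fun σ : F →ₐ[ℚ] ℂ => _)
      fun σ : (Σ f : ℚ⟮x⟯ →ₐ[ℚ] ℂ, _) => g (σ.1 pb.gen),
      ← Finset.univ_sigma_univ, Finset.prod_sigma, ← Finset.prod_pow]
    · refine Finset.prod_congr rfl fun σ _ => ?_
      let : Algebra ℚ⟮x⟯ ℂ := σ.toRingHom.toAlgebra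
      simp_rw [Finset.prod_const]
      congr
      exact AlgHom.card ℚ⟮x⟯ F ℂ
    · intro σ
      simp only [algHomEquivSigma, Equiv.coe_fn_mk, AlgHom.domRestrict, AlgHom.comp_apply,
        IsScalarTower.coe_toAlgHom']
      rw [hgen]
  rw [h1]
  congr 1
  classical
  have h2 : ∏ σ : ℚ⟮x⟯ →ₐ[ℚ] ℂ, g (σ pb.gen) =
      ∏ z : {y // y ∈ (minpoly ℚ pb.gen).aroots ℂ}, g z.1 :=
    Fintype.prod_equiv pb.liftEquiv' _ _ fun σ => by
      rw [PowerBasis.liftEquiv'_apply_coe]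
      rfl
  rw [h2]
  have hmin : minpoly ℚ pb.gen = minpoly ℚ x := by
    rw [IntermediateField.adjoin.powerBasis_gen]
    exact IntermediateField.minpoly_gen ℚ x
  have hnd : ((minpoly ℚ pb.gen).aroots ℂ).Nodup :=
    nodup_roots (Separable.map (hmin ▸ (minpoly.irreducible hx).separable))
  rw [Finset.prod_mem_multiset ((minpoly ℚ pb.gen).aroots ℂ) (fun z => g z.1) g (fun _ => rfl),
    Finset.prod_eq_multiset_prod, Multiset.toFinset_val, Multiset.dedup_eq_self.mpr hnd, hmin]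

/-- The relation with the Mahler measure of the minimal polynomial. -/
lemma hgt_eq (x : F) (hx : IsIntegral ℤ x) :
    hgt x = mahlerMeasureZ (minpoly ℤ x) ^ finrank ℚ⟮x⟯ F := by
  unfold hgt
  rw [prod_emb (fun z => max 1 ‖z‖) x]
  congr 1
  rw [mmZ_eq, minpoly.monic hx]
  simp only [Int.cast_one, abs_one, one_mul]
  unfold croots Polynomial.aroots
  rw [minpoly.isIntegrallyClosed_eq_field_fractions' ℚ hx, Polynomial.map_map,
    ← IsScalarTower.algebraMap_eq]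

end Pool.Agent.H21.Leh
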