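import Pool.Agent.H21.Leh.Height

/-!
# The key inequality from a congruence
-/

open Polynomial N60ffa576 Module NumberField IntermediateField

namespace Pool.Agent.H21.Leh

open Pool.Agent.H25

lemma sq_step {O : Type*} [CommRing O] {R : Ideal O} {E : ℕ} (h2 : (2 : O) ∈ R ^ E) {x y : O}
    {k : ℕ} (h : x - y ∈ R ^ k) : x ^ 2 - y ^ 2 ∈ R ^ (k + min k E) := by
  have h1 : x + y ∈ R ^ min k E := by
    have h3 : x + y = (x - y) + 2 * y := by ring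
    rw [h3]
    exact Ideal.add_mem _ (Ideal.pow_le_pow_right (min_le_left _ _) h)
      (Ideal.mul_mem_right _ _ (Ideal.pow_le_pow_right (min_le_right _ _) h2))
  have h3 : x ^ 2 - y ^ 2 = (x - y) * (x + y) := by ring
  rw [h3, pow_add]
  exact Ideal.mul_mem_mul h h1

lemma low_step {O : Type*} [CommRing O] {R : Ideal O} {E : ℕ} (h2 : (2 : O) ∈ R ^ E) {x y : O}
    (h : x - y ∈ R) (j : ℕ) (hj : 2 ^ j < 2 * E) :
    x ^ (2 ^ j) - y ^ (2 ^ j) ∈ R ^ (2 ^ j) := by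
  induction j with
  | zero => simpa using h
  | succ j ih =>
    have h3 : 2 ^ j < E := by
      rw [pow_succ] at hj
      omega
    have h4 := sq_step h2 (ih (by omega))
    rw [min_eq_left h3.le, ← two_mul, ← pow_succ', ← pow_mul, ← pow_mul, ← pow_succ] at h4
    exact h4

lemma high_step {O : Type*} [CommRing O] {R : Ideal O} {E : ℕ} (h2 : (2 : O) ∈ R ^ E) {x y : O}
    {j : ℕ} (hj : E ≤ 2 ^ j) (h : x ^ (2 ^ j) - y ^ (2 ^ j) ∈ R ^ (2 ^ j)) (i : ℕ) :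
    x ^ (2 ^ j * 2 ^ i) - y ^ (2 ^ j * 2 ^ i) ∈ R ^ (2 ^ j + i * E) := by
  induction i with
  | zero => simpa using h
  | succ i ih =>
    have h4 := sq_step h2 ih
    rw [min_eq_right (by omega), ← pow_mul, ← pow_mul] at h4
    have h5 : 2 ^ j * 2 ^ (i + 1) = 2 ^ j * 2 ^ i * 2 := by rw [pow_succ]; ring
    have h6 : 2 ^ j + (i + 1) * E = 2 ^ j + i * E + E := by ring
    rw [h5, h6]
    exact h4

lemma exists_two_pow {E : ℕ} (hE : 0 < E) : ∃ j : ℕ, E ≤ 2 ^ j ∧ 2 ^ j < 2 * E := by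
  classical
  have hex : ∃ j : ℕ, E ≤ 2 ^ j := ⟨E, Nat.lt_two_pow_self.le⟩
  refine ⟨Nat.find hex, Nat.find_spec hex, ?_⟩
  rcases h : Nat.find hex with _ | j
  · simpa using (by omega : 1 < 2 * E)
  · have h1 := Nat.find_min hex (m := j) (by omega)
    rw [pow_succ]
    omega

variable {F : Type*} [Field F] [NumberField F]

lemma absNorm_pow_le (R : Ideal (𝓞 F)) (k : ℕ) (z : 𝓞 F) (hz : z ≠ 0) (h : z ∈ R ^ k) :
    ((Ideal.absNorm R : ℝ)) ^ k ≤ |((Algebra.norm ℚ (z : F) : ℚ) : ℝ)| := by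
  have h1 : Ideal.absNorm (R ^ k) ∣ Ideal.absNorm (Ideal.span {z}) :=
    Ideal.absNorm_dvd_absNorm_of_le ((Ideal.span_singleton_le_iff_mem _).2 h)
  rw [map_pow, Ideal.absNorm_span_singleton] at h1
  have h3 : Algebra.norm ℤ z ≠ 0 := Algebra.norm_ne_zero_iff.2 hz
  have h2 := Nat.le_of_dvd (Int.natAbs_pos.2 h3) h1
  have h4 : |((Algebra.norm ℚ (z : F) : ℚ) : ℝ)| = (((Algebra.norm ℤ z).natAbs : ℕ) : ℝ) := by
    rw [← Algebra.coe_norm_int, Nat.cast_natAbs]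
    push_cast
    simp
  rw [h4]
  exact_mod_cast h2

lemma key_aux (R : Ideal (𝓞 F)) (E δ : ℕ) (hE : 0 < E) (h2 : (2 : 𝓞 F) ∈ R ^ E)
    (hN : (Ideal.absNorm R) ^ (E * δ) = 2 ^ finrank ℚ F) (x y : 𝓞 F) (hxy : x - y ∈ R)
    (hne : ∀ m, 0 < m → x ^ m ≠ y ^ m) (i : ℕ) :
    ∃ J, 0 < J ∧ (2 : ℝ) ^ (finrank ℚ F * (J + i * E)) ≤
      (2 ^ finrank ℚ F * (hgt (x : F) * hgt (y : F)) ^ (J * 2 ^ i)) ^ (E * δ) := by
  obtain ⟨j, hj1, hj2⟩ := exists_two_pow hE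
  refine ⟨2 ^ j, by positivity, ?_⟩
  have h3 := high_step h2 hj1 (low_step h2 hxy j hj2) i
  have h4 := absNorm_pow_le R _ _ (sub_ne_zero.2 (hne (2 ^ j * 2 ^ i) (by positivity))) h3
  have h5 := abs_norm_sub_le ((x : F) ^ (2 ^ j * 2 ^ i)) ((y : F) ^ (2 ^ j * 2 ^ i))
  rw [hgt_pow, hgt_pow, ← mul_pow] at h5
  have h6 : (((x ^ (2 ^ j * 2 ^ i) - y ^ (2 ^ j * 2 ^ i) : 𝓞 F)) : F) =
      (x : F) ^ (2 ^ j * 2 ^ i) - (y : F) ^ (2 ^ j * 2 ^ i) := by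
    simp
  rw [h6] at h4
  have h7 := h4.trans h5
  calc (2 : ℝ) ^ (finrank ℚ F * (2 ^ j + i * E))
      = ((Ideal.absNorm R : ℝ) ^ (2 ^ j + i * E)) ^ (E * δ) := by
        rw [pow_mul, ← pow_mul _ _ (E * δ), mul_comm _ (E * δ), pow_mul _ (E * δ)]
        congr 1
        exact_mod_cast hN.symm
    _ ≤ _ := pow_le_pow_left₀ (by positivity) h7 _

/-- The key inequality, full norm. -/
theorem key_one (R : Ideal (𝓞 F)) (E : ℕ) (hE : 0 < E) (h2 : (2 : 𝓞 F) ∈ R ^ E)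
    (hN : (Ideal.absNorm R) ^ E = 2 ^ finrank ℚ F) (x y : 𝓞 F) (hxy : x - y ∈ R)
    (hne : ∀ m, 0 < m → x ^ m ≠ y ^ m) :
    (2 : ℝ) ^ finrank ℚ F ≤ (hgt (x : F) * hgt (y : F)) ^ (2 * E) := by
  obtain ⟨J, hJ, h⟩ := key_aux R E 1 hE h2 (by simpa using hN) x y hxy hne 1
  have hh : 0 < hgt (x : F) * hgt (y : F) := mul_pos (hgt_pos _) (hgt_pos _)
  rw [mul_one, one_mul, mul_pow, mul_add, pow_add, ← pow_mul _ _ E, mul_comm (2 ^ (_ * E) : ℝ)] at h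
  have h1 := le_of_mul_le_mul_right h (by positivity)
  have h3 : ((hgt (x : F) * hgt (y : F)) ^ (J * 2 ^ 1)) ^ E =
      ((hgt (x : F) * hgt (y : F)) ^ (2 * E)) ^ J := by
    rw [← pow_mul, ← pow_mul]; congr 1; ring
  rw [h3, pow_mul] at h1
  exact le_of_pow_le_pow_left₀ hJ.ne' (by positivity) h1

/-- The key inequality, half of the norm. -/
theorem key_two (R : Ideal (𝓞 F)) (E : ℕ) (hE : 0 < E) (h2 : (2 : 𝓞 F) ∈ R ^ E)
    (hN : (Ideal.absNorm R) ^ (E * 2) = 2 ^ finrank ℚ F) (x y : 𝓞 F) (hxy : x - y ∈ R)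
    (hne : ∀ m, 0 < m → x ^ m ≠ y ^ m) :
    (2 : ℝ) ^ finrank ℚ F ≤ (hgt (x : F) * hgt (y : F)) ^ (8 * E) := by
  obtain ⟨J, hJ, h⟩ := key_aux R E 2 hE h2 hN x y hxy hne 2
  have hh : 0 < hgt (x : F) * hgt (y : F) := mul_pos (hgt_pos _) (hgt_pos _)
  rw [mul_pow, mul_add, pow_add, ← pow_mul _ _ (E * 2),
    mul_comm (2 ^ (_ * (E * 2)) : ℝ), mul_comm 2 E] at h
  have h1 := le_of_mul_le_mul_right h (by positivity)
  have h3 : ((hgt (x : F) * hgt (y : F)) ^ (J * 2 ^ 2)) ^ (E * 2) =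
      ((hgt (x : F) * hgt (y : F)) ^ (8 * E)) ^ J := by
    rw [← pow_mul, ← pow_mul]; congr 1; ring
  rw [h3, pow_mul] at h1
  exact le_of_pow_le_pow_left₀ hJ.ne' (by positivity) h1

end Pool.Agent.H21.Leh
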