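import Pool.Agent.H21.Leh.Adic

/-!
# Growth of the exponents, and elimination of the scale
-/

set_option autoImplicit false

namespace Pool.Agent.H21.Leh

/-- Below the level. -/
lemma KK_low {p : ℕ} (hp : 2 ≤ p) (m k : ℕ) (E : ℝ) (hE : 1 ≤ E) (hm : (m : ℝ) ≤ E)
    (hk : ((p : ℝ) - 1) * p ^ k ≤ p * E) : (m : ℝ) * p ^ k ≤ E * KK p m k := by
  have hp' : (2 : ℝ) ≤ p := by exact_mod_cast hp
  induction k with
  | zero =>
    simp only [pow_zero, mul_one, KK]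
    rcases Nat.eq_zero_or_pos m with h | h
    · subst h; simp
    · rw [min_eq_left h]; simpa using hm
  | succ k ih =>
    have h1 : ((p : ℝ) - 1) * p ^ k ≤ E := by
      have h2 : (p : ℝ) * (((p : ℝ) - 1) * p ^ k) ≤ p * E := by
        rw [pow_succ] at hk; linarith
      exact le_of_mul_le_mul_left h2 (by linarith)
    have h2 := ih (h1.trans (by nlinarith))
    have h3 : (KK p m (k + 1) : ℝ) = min ((p : ℝ) * KK p m k) (KK p m k + m) := by
      simp only [KK, Nat.cast_min, Nat.cast_mul, Nat.cast_add]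
    rw [h3, mul_min_of_nonneg _ _ (by linarith)]
    have hm0 : (0 : ℝ) ≤ m := Nat.cast_nonneg m
    apply le_min
    · calc (m : ℝ) * p ^ (k + 1) = p * (m * p ^ k) := by ring
        _ ≤ p * (E * KK p m k) := by gcongr
        _ = E * (p * KK p m k) := by ring
    · calc (m : ℝ) * p ^ (k + 1) = m * p ^ k + m * (((p : ℝ) - 1) * p ^ k) := by ring
        _ ≤ E * KK p m k + m * E := by gcongr
        _ = E * (KK p m k + m) := by ring

/-- Above the level. -/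
lemma KK_high {p : ℕ} (hp : 2 ≤ p) (m j i : ℕ) (E : ℝ) (hE : 1 ≤ E) (hm : (m : ℝ) ≤ E)
    (hj : ((p : ℝ) - 1) * p ^ j ≤ p * E) (hj' : E ≤ ((p : ℝ) - 1) * p ^ j) :
    (m : ℝ) * (p ^ j + i * E) ≤ E * KK p m (j + i) := by
  have hp' : (2 : ℝ) ≤ p := by exact_mod_cast hp
  have hm0 : (0 : ℝ) ≤ m := Nat.cast_nonneg m
  induction i with
  | zero => simpa using KK_low hp m j E hE hm hj
  | succ i ih =>
    have h3 : (KK p m (j + i + 1) : ℝ) = min ((p : ℝ) * KK p m (j + i)) (KK p m (j + i) + m) := by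
      simp only [KK, Nat.cast_min, Nat.cast_mul, Nat.cast_add]
    rw [← add_assoc, h3, mul_min_of_nonneg _ _ (by linarith)]
    apply le_min
    · have h4 : (p : ℝ) ^ j + ((i + 1 : ℕ) : ℝ) * E ≤ p * (p ^ j + i * E) := by
        push_cast
        have : 0 ≤ (i : ℝ) * E := by positivity
        nlinarith
      calc (m : ℝ) * (p ^ j + ((i + 1 : ℕ) : ℝ) * E) ≤ m * (p * (p ^ j + i * E)) := by gcongr
        _ = p * (m * (p ^ j + i * E)) := by ring
        _ ≤ p * (E * KK p m (j + i)) := by gcongr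
        _ = E * (p * KK p m (j + i)) := by ring
    · push_cast
      linarith

/-- Existence of the level. -/
lemma exists_lev {p : ℕ} (hp : 2 ≤ p) (E : ℝ) (hE : 1 ≤ E) :
    ∃ j : ℕ, ((p : ℝ) - 1) * p ^ j ≤ p * E ∧ E ≤ ((p : ℝ) - 1) * p ^ j := by
  have hp' : (2 : ℝ) ≤ p := by exact_mod_cast hp
  have hex : ∃ j : ℕ, E ≤ ((p : ℝ) - 1) * p ^ j := by
    obtain ⟨j, hj⟩ := pow_unbounded_of_one_lt E (by linarith : (1 : ℝ) < p)
    refine ⟨j, ?_⟩
    have : (0 : ℝ) < p ^ j := by positivity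
    nlinarith
  classical
  refine ⟨Nat.find hex, ?_, Nat.find_spec hex⟩
  rcases Nat.eq_zero_or_pos (Nat.find hex) with h | h
  · rw [h, pow_zero, mul_one]
    nlinarith
  · have h1 := Nat.find_min hex (Nat.sub_lt h one_pos)
    push Not at h1
    have h2 : (p : ℝ) ^ (Nat.find hex) = p * p ^ (Nat.find hex - 1) := by
      rw [← pow_succ', Nat.sub_add_cancel h]
    rw [h2]
    nlinarith

variable {F : Type*} [Field F] [Fintype F] [DecidableEq F]

/-- The numerical data of a reciprocal polynomial of small measure that splits over `F`. -/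
structure Prof (p : ℕ) (m : F → ℕ) (n : ℕ) (x μ : ℝ) : Prop where
  two_le : 2 ≤ p
  mas : ∀ ε : ℤ, (ε = 1 ∨ ε = -1 ∧ Odd p) → ∀ T k : ℕ, 0 < T →
    ((∑ a ∈ Finset.univ.filter (fun a : F => a ^ T = (ε : F)), KK p (m a) k : ℕ) : ℝ) * x ≤
      n + T * p ^ k * μ
  inv : ∀ a, m a⁻¹ = m a
  frob : ∀ a, m (a ^ p) = m a
  zero : m 0 = 0
  sum : ∑ a, m a = n
  pos : 0 < n
  nonneg : 0 ≤ μ
  small : μ < 15 / 64
  one_le : 1 ≤ x

namespace Prof

variable {p : ℕ} {m : F → ℕ} {n : ℕ} {x μ : ℝ}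

/-- The master inequality for a subset. -/
lemma sub (h : Prof p m n x μ) (ε : ℤ) (hε : ε = 1 ∨ ε = -1 ∧ Odd p) (T k : ℕ) (hT : 0 < T)
    (S : Finset F) (hS : ∀ a ∈ S, a ^ T = (ε : F)) :
    (∑ a ∈ S, (KK p (m a) k : ℝ)) * x ≤ n + T * p ^ k * μ := by
  refine le_trans ?_ (h.mas ε hε T k hT)
  have hx := h.one_le
  apply mul_le_mul_of_nonneg_right _ (by linarith)
  rw [← Nat.cast_sum, Nat.cast_le]
  apply Finset.sum_le_sum_of_subset_of_nonneg
  · intro a ha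
    rw [Finset.mem_filter]
    exact ⟨Finset.mem_univ _, hS a ha⟩
  · intros; exact Nat.zero_le _

/-- One scale. -/
lemma scale (h : Prof p m n x μ) (ε : ℤ) (hε : ε = 1 ∨ ε = -1 ∧ Odd p) (T j i : ℕ) (hT : 0 < T)
    (S : Finset F) (hS : ∀ a ∈ S, a ^ T = (ε : F)) (E : ℝ) (hE : 1 ≤ E)
    (hE' : ∀ a ∈ S, (m a : ℝ) ≤ E)
    (hj : ((p : ℝ) - 1) * p ^ j ≤ p * E) (hj' : E ≤ ((p : ℝ) - 1) * p ^ j) :
    (∑ a ∈ S, (m a : ℝ)) * (p ^ j + i * E) * x ≤ E * (n + T * p ^ (j + i) * μ) := by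
  have h1 := h.sub ε hε T (j + i) hT S hS
  have hx := h.one_le
  have h2 : (∑ a ∈ S, (m a : ℝ)) * (p ^ j + i * E) ≤ E * ∑ a ∈ S, (KK p (m a) (j + i) : ℝ) := by
    rw [Finset.sum_mul, Finset.mul_sum]
    apply Finset.sum_le_sum
    intro a ha
    exact KK_high h.two_le (m a) j i E hE (hE' a ha) hj hj'
  calc (∑ a ∈ S, (m a : ℝ)) * (p ^ j + i * E) * x
      ≤ (E * ∑ a ∈ S, (KK p (m a) (j + i) : ℝ)) * x :=
        mul_le_mul_of_nonneg_right h2 (by linarith)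
    _ = E * ((∑ a ∈ S, (KK p (m a) (j + i) : ℝ)) * x) := by ring
    _ ≤ _ := mul_le_mul_of_nonneg_left h1 (by linarith)

/-- Elimination of the scale. -/
lemma elim (h : Prof p m n x μ) (ε : ℤ) (hε : ε = 1 ∨ ε = -1 ∧ Odd p) (T i : ℕ) (hT : 0 < T)
    (S : Finset F) (hS : ∀ a ∈ S, a ^ T = (ε : F)) (E : ℝ) (hE : 1 ≤ E)
    (hE' : ∀ a ∈ S, (m a : ℝ) ≤ E) (d : ℝ) (hd : d = ∑ a ∈ S, (m a : ℝ))
    (h1 : i * (d * x) ≤ n) (h2 : (n : ℝ) ≤ (i + 1) * (d * x)) :
    64 * (d * x) ^ 2 < 15 * E * T * p ^ i * (d * x + (p - 1) * (n - i * (d * x))) := by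
  obtain ⟨j, hj, hj'⟩ := exists_lev h.two_le E hE
  have ha := h.scale ε hε T j i hT S hS E hE hE' hj hj'
  have hb := h.scale ε hε T j (i + 1) hT S hS E hE hE' hj hj'
  rw [← hd] at ha hb
  have hp' : (2 : ℝ) ≤ p := by exact_mod_cast h.two_le
  have hx := h.one_le
  have hμ := h.nonneg
  have hμ' := h.small
  have hn : (0 : ℝ) < n := by exact_mod_cast h.pos
  have hT' : (0 : ℝ) < T := by exact_mod_cast hT
  set J : ℝ := (p : ℝ) ^ j with hJ
  have hJ0 : 0 < J := by positivity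
  have hpi : (0 : ℝ) < (p : ℝ) ^ i := by positivity
  rw [pow_add, ← hJ] at ha
  rw [← add_assoc, pow_succ, pow_add, ← hJ] at hb
  push_cast at hb
  set D := d * x with hD
  have ha' : D * (J + i * E) ≤ E * (n + T * (J * p ^ i) * μ) := by
    calc D * (J + i * E) = d * (J + i * E) * x := by rw [hD]; ring
      _ ≤ _ := ha
  have hb' : D * (J + (i + 1) * E) ≤ E * (n + T * (J * p ^ i * p) * μ) := by
    calc D * (J + (i + 1) * E) = d * (J + (i + 1) * E) * x := by rw [hD]; ring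
      _ ≤ _ := hb
  have h3 : 0 ≤ (i + 1) * D - n := by linarith
  have h4 : 0 ≤ n - i * D := by linarith
  have h5 := mul_le_mul_of_nonneg_left ha' h3
  have h6 := mul_le_mul_of_nonneg_left hb' h4
  have hD0 : 0 < D := by
    by_contra hcon
    push Not at hcon
    have : ((i : ℝ) + 1) * D ≤ 0 := mul_nonpos_of_nonneg_of_nonpos (by positivity) hcon
    linarith
  have h7 : J * D ^ 2 ≤ J * (E * T * p ^ i * (D + (p - 1) * (n - i * D)) * μ) := by
    nlinarith [h5, h6]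
  have h8 : D ^ 2 ≤ E * T * p ^ i * (D + (p - 1) * (n - i * D)) * μ :=
    le_of_mul_le_mul_left h7 hJ0
  have h9 : 0 < E * T * p ^ i * (D + (p - 1) * (n - i * D)) := by
    have : 0 ≤ ((p : ℝ) - 1) * (n - i * D) := mul_nonneg (by linarith) h4
    positivity
  have h10 : E * T * p ^ i * (D + (p - 1) * (n - i * D)) * μ <
      E * T * p ^ i * (D + (p - 1) * (n - i * D)) * (15 / 64) :=
    mul_lt_mul_of_pos_left hμ' h9
  nlinarith

end Prof

end Pool.Agent.H21.Leh
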