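import Pool.Agent.H21.Leh.Adic
import Pool.Agent.H25.Basic

/-!
# The local estimate at a root with a given residue
-/

set_option autoImplicit false

open Polynomial

namespace Pool.Agent.H21.Leh

variable (p : ℕ) [hp : Fact p.Prime]

/-- The residue field has characteristic `p`. -/
lemma charP_residue {K : Type} [Field K] (φ : OO p →+* K)
    (hφ : ∀ x, φ x = 0 ↔ ‖(x : PadicAlgCl p)‖ < 1) : CharP K p := by
  rw [CharP.charP_iff_prime_eq_zero hp.out, ← map_natCast φ, hφ]
  push_cast
  rw [norm_p]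
  exact inv_lt_one_of_one_lt₀ (by exact_mod_cast hp.out.one_lt)

/-- The local estimate. -/
lemma local_est {K : Type} [Field K] (φ : OO p →+* K)
    (hφ : ∀ x, φ x = 0 ↔ ‖(x : PadicAlgCl p)‖ < 1) (f : ℤ[X]) (hf : f.Monic) (b : OO p)
    (hb : aeval b f = 0) (ε : ℤ) (T : ℕ) (hT : φ b ^ T = (ε : K)) :
    ‖((b ^ T - (ε : OO p) : OO p) : PadicAlgCl p)‖ ^
      rootMultiplicity (φ b) (f.map (Int.castRingHom K)) ≤ (p : ℝ)⁻¹ := by
  have hK : CharP K p := charP_residue p φ hφ
  set x := φ b with hx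
  set m := rootMultiplicity x (f.map (Int.castRingHom K)) with hm
  let ψ : ZMod p →+* K := ZMod.castHom (dvd_refl p) K
  have hψ : ψ.comp (Int.castRingHom (ZMod p)) = Int.castRingHom K := RingHom.ext_int _ _
  have hmap : ∀ g : ℤ[X], (g.map (Int.castRingHom (ZMod p))).map ψ = g.map (Int.castRingHom K) := by
    intro g
    rw [Polynomial.map_map, hψ]
  set fb := f.map (Int.castRingHom (ZMod p)) with hfb
  set w : ℤ[X] := X ^ T - C ε with hw
  set wb := w.map (Int.castRingHom (ZMod p)) with hwb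
  have hfK0 : f.map (Int.castRingHom K) ≠ 0 := (hf.map _).ne_zero
  obtain ⟨hbar, hhbar⟩ : EuclideanDomain.gcd fb (wb ^ m) ∣ fb := EuclideanDomain.gcd_dvd_left _ _
  obtain ⟨cbar, hcbar⟩ : EuclideanDomain.gcd fb (wb ^ m) ∣ wb ^ m :=
    EuclideanDomain.gcd_dvd_right _ _
  have hne : (hbar.map ψ).eval x ≠ 0 := by
    intro h0
    have h1 : (X - C x) ^ m ∣ f.map (Int.castRingHom K) := pow_rootMultiplicity_dvd _ _
    have h2 : (X - C x) ^ m ∣ (w.map (Int.castRingHom K)) ^ m := by
      apply pow_dvd_pow_of_dvd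
      rw [dvd_iff_isRoot, IsRoot.def, hw]
      simp [hT]
    have h3 : (X - C x) ^ m ∣ (EuclideanDomain.gcd fb (wb ^ m)).map ψ := by
      classical
      rw [← Polynomial.gcd_map]
      apply EuclideanDomain.dvd_gcd
      · rw [hfb, hmap]; exact h1
      · rw [Polynomial.map_pow, hwb, hmap]; exact h2
    have h4 : (X - C x) ^ (m + 1) ∣ f.map (Int.castRingHom K) := by
      rw [← hmap f, ← hfb, hhbar, Polynomial.map_mul, pow_succ]
      exact mul_dvd_mul h3 (dvd_iff_isRoot.2 h0)
    have h5 := (le_rootMultiplicity_iff hfK0).2 h4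
    omega
  obtain ⟨H, hH⟩ := Polynomial.map_surjective (Int.castRingHom (ZMod p))
    (ZMod.intCast_surjective) hbar
  obtain ⟨Cc, hCc⟩ := Polynomial.map_surjective (Int.castRingHom (ZMod p))
    (ZMod.intCast_surjective) cbar
  have hz : (w ^ m * H - f * Cc).map (Int.castRingHom (ZMod p)) = 0 := by
    rw [Polynomial.map_sub, Polynomial.map_mul, Polynomial.map_mul, Polynomial.map_pow, hH, hCc,
      ← hwb, ← hfb]
    linear_combination hbar * hcbar - cbar * hhbar
  have hdvd : C (p : ℤ) ∣ w ^ m * H - f * Cc := by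
    rw [C_dvd_iff_dvd_coeff]
    intro i
    have h1 := congrArg (fun g => g.coeff i) hz
    simp only [coeff_map, coeff_zero, eq_intCast] at h1
    exact (ZMod.intCast_zmod_eq_zero_iff_dvd _ p).1 h1
  obtain ⟨B, hB⟩ := hdvd
  have h1 : (b ^ T - (ε : OO p)) ^ m * aeval b H = p * aeval b B := by
    have h2 := congrArg (aeval b) hB
    rw [map_sub, map_mul, map_mul, map_pow, hb, zero_mul, sub_zero, map_mul, aeval_C] at h2
    rw [hw, map_sub, map_pow, aeval_X, aeval_C] at h2
    simpa using h2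
  have h2 : ‖((aeval b H : OO p) : PadicAlgCl p)‖ = 1 := by
    refine le_antisymm (OO_norm_le p _) ?_
    by_contra hcon
    push Not at hcon
    apply hne
    rw [← hφ] at hcon
    rw [← hH, hmap, hx, eval_map]
    have h3 : φ (aeval b H) = eval₂ (Int.castRingHom K) (φ b) H := by
      rw [aeval_def, hom_eval₂]
      congr 1
      exact RingHom.ext_int _ _
    rw [← h3]
    exact hcon
  have h3 := congrArg (fun z : OO p => ‖(z : PadicAlgCl p)‖) h1
  simp only [Subring.coe_mul, norm_mul, h2, mul_one, Subring.coe_pow, norm_pow] at h3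
  rw [h3]
  push_cast
  rw [norm_p]
  have h4 : ‖((aeval b B : OO p) : PadicAlgCl p)‖ ≤ 1 := OO_norm_le p _
  have hp0 : (0 : ℝ) ≤ (p : ℝ)⁻¹ := by positivity
  exact mul_le_of_le_one_right hp0 h4

end Pool.Agent.H21.Leh
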