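import Pool.Agent.H25.Few
import Pool.Agent.H25.SmythWeak

/-!
# Monic irreducible polynomials of odd degree, and of degree two and four
-/

open Polynomial N60ffa576

namespace Pool.Agent.H21.Leh

open Pool.Agent.H25

lemma coeff_zero_le (f : ℤ[X]) : |(f.coeff 0 : ℝ)| ≤ mahlerMeasureZ f := by
  have h := norm_coeff_le_choose_mul_mahlerMeasure 0 (f.map (algebraMap ℤ ℂ))
  rw [coeff_map] at h
  simpa [mahlerMeasureZ] using h

/-- The properties of the minimal polynomial used below. -/
structure Good (f : ℤ[X]) : Prop where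
  monic : f.Monic
  irr : Irreducible f
  unity : NoUnityRoots f
  deg : 2 ≤ f.natDegree
  zero : f.coeff 0 ≠ 0

lemma no_int_root {f : ℤ[X]} (hf : Good f) (c : ℤ) : f.eval c ≠ 0 := by
  intro h
  obtain ⟨g, hg⟩ := dvd_iff_isRoot.2 h
  rcases hf.irr.isUnit_or_isUnit hg with h1 | h1
  · exact not_isUnit_X_sub_C c h1
  · have h2 := natDegree_mul' (p := X - C c) (q := g) (by
      rw [← leadingCoeff_mul, ← hg, hf.monic.leadingCoeff]; exact one_ne_zero)
    rw [← hg, natDegree_X_sub_C, natDegree_eq_zero_of_isUnit h1] at h2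
    have := hf.deg
    omega

lemma reciprocal_of {f : ℤ[X]} (hf : Good f) (hM : mahlerMeasureZ f < 1.28) :
    f.reverse = f ∨ f.reverse = -f := by
  by_contra hcon
  push Not at hcon
  have := smyth_weak' f hf.zero hcon.1 hcon.2
  linarith

lemma even_of {f : ℤ[X]} (hf : Good f) (hM : mahlerMeasureZ f < 1.28) :
    f.reverse = f ∧ Even f.natDegree := by
  have h1 : f.reverse ≠ -f := by
    intro h
    let i : Invertible (1 : ℤ) := ⟨1, by norm_num, by norm_num⟩
    have h2 := eval₂_reverse_mul_pow (RingHom.id ℤ) (1 : ℤ) f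
    have h4 : ⅟(1 : ℤ) = 1 := rfl
    rw [h4, h, one_pow, mul_one, eval₂_neg] at h2
    have h3 : eval₂ (RingHom.id ℤ) 1 f = 0 := by omega
    exact no_int_root hf 1 h3
  have h2 : f.reverse = f := (reciprocal_of hf hM).resolve_right h1
  refine ⟨h2, ?_⟩
  by_contra hodd
  rw [Nat.not_even_iff_odd] at hodd
  let i : Invertible (-1 : ℤ) := ⟨-1, by norm_num, by norm_num⟩
  have h3 := eval₂_reverse_mul_pow (RingHom.id ℤ) (-1 : ℤ) f
  have h4 : ⅟(-1 : ℤ) = -1 := rfl
  rw [h4, h2, hodd.neg_one_pow] at h3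
  have h5 : eval₂ (RingHom.id ℤ) (-1) f = 0 := by omega
  exact no_int_root hf (-1) h5

lemma two_le_of {M : ℝ} (h : 1.28 ≤ M) : 2 ≤ M ^ 4 := by
  have : (1.28 : ℝ) ^ 4 ≤ M ^ 4 := pow_le_pow_left₀ (by norm_num) h 4
  norm_num at this
  linarith

lemma few_case {f : ℤ[X]} (hf : Good f) (hrev : f.reverse = f)
    (hcard : (f.support.filter (fun i => ¬ (2 : ℤ) ∣ f.coeff i)).card ≤ 4) :
    2 ≤ mahlerMeasureZ f ^ 4 := by
  have hd := hf.deg
  have h := few_odd f 1 f (by rw [one_mul]) (by omega) (by rw [hf.monic.leadingCoeff]; norm_num)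
    (by rw [hf.monic.leadingCoeff]; norm_num) (Or.inl hrev) hf.unity hcard
  rw [pow_mul] at h
  have h1 := le_of_pow_le_pow_left₀ (by omega) (pow_nonneg (mmZ_nonneg f) 2) h
  nlinarith

lemma deg_two {f : ℤ[X]} (hf : Good f) (hd : f.natDegree = 2) : 2 ≤ mahlerMeasureZ f ^ 4 := by
  rcases le_or_gt 1.28 (mahlerMeasureZ f) with h | h
  · exact two_le_of h
  obtain ⟨hrev, -⟩ := even_of hf h
  refine few_case hf hrev ?_
  refine (Finset.card_filter_le _ _).trans ((Finset.card_le_card supp_subset_range_natDegree_succ).trans ?_)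
  rw [hd, Finset.card_range]
  norm_num

lemma deg_four {f : ℤ[X]} (hf : Good f) (hd : f.natDegree = 4) : 2 ≤ mahlerMeasureZ f ^ 4 := by
  rcases le_or_gt 1.28 (mahlerMeasureZ f) with h | h
  · exact two_le_of h
  obtain ⟨hrev, -⟩ := even_of hf h
  by_cases hall : ∃ i, i < 5 ∧ (2 : ℤ) ∣ f.coeff i
  · obtain ⟨i, hi, h2⟩ := hall
    refine few_case hf hrev ?_
    have hsub : f.support.filter (fun i => ¬ (2 : ℤ) ∣ f.coeff i) ⊆ (Finset.range 5).erase i := by
      intro j hj
      rw [Finset.mem_filter] at hj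
      rw [Finset.mem_erase]
      refine ⟨?_, ?_⟩
      · rintro rfl
        exact hj.2 h2
      · have := supp_subset_range_natDegree_succ hj.1
        rwa [hd] at this
    refine (Finset.card_le_card hsub).trans ?_
    rw [Finset.card_erase_of_mem (Finset.mem_range.2 hi), Finset.card_range]
  · push Not at hall
    have hodd : ∀ i, i < 5 → ∃ c, f.coeff i = 2 * c + 1 := by
      intro i hi
      have := hall i hi
      exact ⟨f.coeff i / 2, by omega⟩
    obtain ⟨d, hd0⟩ := hodd 0 (by norm_num)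
    obtain ⟨c, hd1⟩ := hodd 1 (by norm_num)
    obtain ⟨b, hd2⟩ := hodd 2 (by norm_num)
    obtain ⟨a, hd3⟩ := hodd 3 (by norm_num)
    have hd4 : f.coeff 4 = 1 := by rw [← hd]; exact hf.monic.coeff_natDegree
    have hfs := f.as_sum_range
    rw [hd] at hfs
    simp only [Finset.sum_range_succ, Finset.range_zero, Finset.sum_empty, zero_add, hd0, hd1, hd2,
      hd3, hd4, ← C_mul_X_pow_eq_monomial] at hfs
    have h1 := one_binomial f (X - 1) (-(C a * X ^ 4 + C (b - a) * X ^ 3 + C (c - b) * X ^ 2 +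
      C (d - c) * X - C d)) 5 (by norm_num) (by rw [hf.monic.leadingCoeff]; norm_num) hf.unity (by
        rw [hfs]
        simp only [map_sub, map_add, map_mul, map_one, map_ofNat]
        ring)
    rw [hd] at h1
    have hM := mmZ_nonneg f
    by_contra hcon
    push Not at hcon
    have h2 : (mahlerMeasureZ f ^ 4) ^ 15 < 2 ^ 15 :=
      pow_lt_pow_left₀ hcon (pow_nonneg hM 4) (by norm_num)
    rw [← pow_mul] at h2
    norm_num at h1 h2
    linarith

end Pool.Agent.H21.Leh
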