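import Pool.Agent.H21.Leh.Descent
import Pool.Agent.H21.Leh.Small
import Pool.Agent.H25.LehmerVal

/-!
# Lehmer's problem in abelian extensions of the rationals and of quadratic fields
-/

open Polynomial N60ffa576 Module NumberField IntermediateField

open scoped Pointwise

namespace Pool.Agent.H21.Leh

open Pool.Agent.H25

lemma gen_top (K L : Type*) [Field K] [Field L] [Algebra K L] (a : L) :
    K⟮AdjoinSimple.gen K a⟯ = (⊤ : IntermediateField K K⟮a⟯) := by
  apply IntermediateField.lift_injective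
  rw [IntermediateField.lift_adjoin, IntermediateField.lift_top, Set.image_singleton,
    AdjoinSimple.coe_gen]

lemma coeff_zero_ne {L : Type*} [Field L] [CharZero L] (a : L) (ha : IsIntegral ℤ a) (h0 : a ≠ 0) :
    (minpoly ℤ a).coeff 0 ≠ 0 := by
  intro h
  obtain ⟨g, hg⟩ := X_dvd_iff.2 h
  have h1 : IsUnit g := ((minpoly.irreducible ha).isUnit_or_isUnit hg).resolve_left not_isUnit_X
  have h2 := congrArg (aeval a) hg
  rw [minpoly.aeval, map_mul, aeval_X] at h2
  have h3 : IsUnit (aeval a g) := h1.map (aeval a)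
  exact mul_ne_zero h0 h3.ne_zero h2.symm

/-- The minimal polynomial of an integer which is not zero or a root of unity. -/
lemma good_minpoly {L : Type*} [Field L] [CharZero L] (a : L) (ha : IsIntegral ℤ a) (h0 : a ≠ 0)
    (h1 : ∀ m, 0 < m → a ^ m ≠ 1) (hd : 2 ≤ (minpoly ℤ a).natDegree) : Good (minpoly ℤ a) where
  monic := minpoly.monic ha
  irr := minpoly.irreducible ha
  unity := by
    intro z hz m hm hzm
    have hzi : IsIntegral ℤ z := ⟨minpoly ℤ a, minpoly.monic ha, by
      rw [← aeval_def]; exact hz⟩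
    have h2 : minpoly ℤ z ∣ minpoly ℤ a := minpoly.isIntegrallyClosed_dvd hzi hz
    have h3 : minpoly ℤ z ∣ X ^ m - 1 := minpoly.isIntegrallyClosed_dvd hzi (by
      rw [map_sub, map_pow, aeval_X, map_one, hzm, sub_self])
    have h4 : Associated (minpoly ℤ z) (minpoly ℤ a) :=
      ((minpoly.irreducible hzi).associated_of_dvd (minpoly.irreducible ha) h2)
    have h5 : minpoly ℤ a ∣ X ^ m - 1 := h4.symm.dvd.trans h3
    obtain ⟨g, hg⟩ := h5
    have h6 := congrArg (aeval a) hg
    rw [map_mul, minpoly.aeval, zero_mul, map_sub, map_pow, aeval_X, map_one] at h6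
    exact h1 m hm (sub_eq_zero.1 h6)
  deg := hd
  zero := coeff_zero_ne a ha h0

lemma deg_one_case {L : Type*} [Field L] [CharZero L] (a : L) (ha : IsIntegral ℤ a) (h0 : a ≠ 0)
    (h1 : ∀ m, 0 < m → a ^ m ≠ 1) (hd : (minpoly ℤ a).natDegree = 1) :
    2 ≤ mahlerMeasureZ (minpoly ℤ a) ^ 4 := by
  have hmon := minpoly.monic ha
  have h2 : minpoly ℤ a = X + C ((minpoly ℤ a).coeff 0) := by
    have h3 := (minpoly ℤ a).as_sum_range
    rw [hd] at h3
    simp only [Finset.sum_range_succ, Finset.range_zero, Finset.sum_empty, zero_add] at h3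
    have h4 : (minpoly ℤ a).coeff 1 = 1 := by rw [← hd]; exact hmon.coeff_natDegree
    rw [h4] at h3
    rw [monomial_zero_left, ← X_pow_eq_monomial, pow_one, add_comm] at h3
    exact h3
  set c := (minpoly ℤ a).coeff 0 with hc
  have h3 : a + (c : L) = 0 := by
    have h4 := minpoly.aeval ℤ a
    rw [h2] at h4
    simpa using h4
  have hc0 : c ≠ 0 := coeff_zero_ne a ha h0
  have hc1 : c ≠ 1 := by
    intro h
    rw [h] at h3
    apply h1 2 (by norm_num)
    have : a = -1 := by
      rw [Int.cast_one] at h3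
      exact eq_neg_of_add_eq_zero_left h3
    rw [this]; norm_num
  have hc2 : c ≠ -1 := by
    intro h
    rw [h] at h3
    apply h1 1 (by norm_num)
    have : a = 1 := by
      rw [Int.cast_neg, Int.cast_one] at h3
      linear_combination h3
    rw [this]; norm_num
  have h4 : 2 ≤ |c| := by
    rcases abs_cases c with ⟨h, _⟩ | ⟨h, _⟩ <;> omega
  have h5 : (2 : ℝ) ≤ |(c : ℝ)| := by exact_mod_cast h4
  have h6 := coeff_zero_le (minpoly ℤ a)
  rw [← hc] at h6
  exact two_le_of (by linarith)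

variable {k : Type*} [Field k] [NumberField k]

/-- One step of the induction. -/
lemma step {L : Type*} [Field L] [CharZero L] [Algebra k L] [IsAbelianGalois k L]
    (hd : finrank ℚ k ≤ 2)
    (a : L) (ha : IsIntegral ℤ a) (h0 : a ≠ 0) (h1 : ∀ m, 0 < m → a ^ m ≠ 1)
    (hn : 6 ≤ (minpoly ℤ a).natDegree) (heven : Even (minpoly ℤ a).natDegree)
    (hc0 : (minpoly ℤ a).coeff 0 = 1) :
    2 ≤ mahlerMeasureZ (minpoly ℤ a) ^ 4 ∨
    ∃ b : L, IsIntegral ℤ b ∧ b ≠ 0 ∧ (∀ m, 0 < m → b ^ m ≠ 1) ∧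
      (minpoly ℤ b).natDegree < (minpoly ℤ a).natDegree ∧
      mahlerMeasureZ (minpoly ℤ b) ≤ mahlerMeasureZ (minpoly ℤ a) := by
  have hak : IsIntegral k a := ha.tower_top
  let F := k⟮a⟯
  have hfd : FiniteDimensional k F := IntermediateField.adjoin.finiteDimensional hak
  have hfdQ : FiniteDimensional ℚ F := FiniteDimensional.trans ℚ k F
  have hnf : NumberField F := { to_finiteDimensional := hfdQ }
  have hgenint : IsIntegral ℤ (AdjoinSimple.gen k a) := by
    have hinj : Function.Injective (algebraMap F L) := (algebraMap F L).injective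
    have h2 : IsIntegral ℤ (algebraMap F L (AdjoinSimple.gen k a)) := ha
    exact (isIntegral_algHom_iff (IsScalarTower.toAlgHom ℤ F L) hinj).1 h2
  set α : 𝓞 F := ⟨AdjoinSimple.gen k a, hgenint⟩ with hα
  have hαF : (α : F) = AdjoinSimple.gen k a := rfl
  have hmin : minpoly ℤ (α : F) = minpoly ℤ a :=
    (minpoly.algebraMap_eq (algebraMap F L).injective (α : F)).symm
  have hMM : MM α = mahlerMeasureZ (minpoly ℤ a) := by
    unfold MM; rw [hmin]
  have hdg : dg α = (minpoly ℤ a).natDegree := by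
    unfold dg; rw [hmin]
  have hgen : k⟮(α : F)⟯ = ⊤ := gen_top k L a
  have hα0 : α ≠ 0 := by
    intro h
    apply h0
    have h2 : (α : F) = 0 := by rw [h]; rfl
    have h3 : algebraMap F L (α : F) = 0 := by rw [h2, map_zero]
    exact h3
  have hα1 : ∀ m, 0 < m → α ^ m ≠ 1 := by
    intro m hm h
    apply h1 m hm
    have h2 : (α : F) ^ m = 1 := by
      have := congrArg (fun z : 𝓞 F => (z : F)) h
      simpa using this
    have h3 : algebraMap F L ((α : F) ^ m) = 1 := by rw [h2, map_one]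
    rw [map_pow] at h3
    exact h3
  have hunit : ∀ P : Ideal (𝓞 F), P.IsPrime → (2 : 𝓞 F) ∈ P → α ∉ P := by
    intro P hP _ hmem
    apply hP.ne_top
    rw [Ideal.eq_top_iff_one]
    have h2 : aeval α (minpoly ℤ a) = 0 := by
      apply RingOfIntegers.ext
      have h3 : ((aeval α (minpoly ℤ a) : 𝓞 F) : F) = aeval (α : F) (minpoly ℤ a) :=
        (aeval_algebraMap_apply F α (minpoly ℤ a)).symm
      rw [h3, ← hmin, minpoly.aeval]
      rfl
    rw [← X_mul_divX_add (minpoly ℤ a), map_add, map_mul, aeval_X, aeval_C, hc0, map_one] at h2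
    have h4 : (1 : 𝓞 F) = -(α * aeval α (minpoly ℤ a).divX) := by linear_combination h2
    rw [h4]
    exact P.neg_mem (P.mul_mem_right _ hmem)
  have hc : ∀ σ τ : Gal(F/k), σ * τ = τ * σ := fun σ τ =>
    (inferInstance : IsMulCommutative Gal(F/k)).is_comm.comm σ τ
  by_cases hT : ∀ σ : Gal(F/k), σ ≠ 1 → ∀ m, 0 < m → (σ • α) ^ m ≠ α ^ m
  · left
    rw [← hMM]
    exact core hc α hd hgen hα0 hα1 hT hunit (by omega) (by rwa [hdg])
  · right
    push Not at hT
    obtain ⟨σ, hσ, m, hm, hσm⟩ := hT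
    let K := ℚ⟮(α : F)⟯
    have hKint : IsIntegral ℤ (AdjoinSimple.gen ℚ (α : F)) := by
      have hinj : Function.Injective (algebraMap K F) := (algebraMap K F).injective
      have h2 : IsIntegral ℤ (algebraMap K F (AdjoinSimple.gen ℚ (α : F))) := isInt α
      exact (isIntegral_algHom_iff (IsScalarTower.toAlgHom ℤ K F) hinj).1 h2
    set a' : 𝓞 K := ⟨AdjoinSimple.gen ℚ (α : F), hKint⟩ with ha'
    have ha'K : (a' : K) = AdjoinSimple.gen ℚ (α : F) := rfl
    have hmin' : minpoly ℤ (a' : K) = minpoly ℤ a :=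
      (minpoly.algebraMap_eq (algebraMap K F).injective (a' : K)).symm.trans hmin
    have hne : ℚ⟮(a' : K) ^ m⟯ ≠ ⊤ := by
      intro htop
      have h2 : ℚ⟮(α : F)⟯ = ℚ⟮(α : F) ^ m⟯ := by
        have h3 : IntermediateField.lift (ℚ⟮(a' : K) ^ m⟯) = IntermediateField.lift ⊤ :=
          congrArg IntermediateField.lift htop
        have h4 : IntermediateField.lift (ℚ⟮(a' : K) ^ m⟯) = ℚ⟮(α : F) ^ m⟯ :=
          IntermediateField.lift_adjoin_simple (F := ℚ) K ((a' : K) ^ m)
        have h5 : IntermediateField.lift (⊤ : IntermediateField ℚ K) = K :=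
          IntermediateField.lift_top (F := ℚ) K
        exact h5.symm.trans (h3.symm.trans h4)
      have h3 : (α : F) ∈ ℚ⟮(α : F) ^ m⟯ := by
        rw [← h2]; exact mem_adjoin_simple_self ℚ _
      have h4 : ℚ⟮(α : F) ^ m⟯ ≤
          IntermediateField.fixedField (Subgroup.zpowers (σ.restrictScalars ℚ)) := by
        rw [IntermediateField.adjoin_simple_le_iff, IntermediateField.mem_fixedField_iff]
        intro g hg
        have h5 : Subgroup.zpowers (σ.restrictScalars ℚ) ≤
            MulAction.stabilizer (F ≃ₐ[ℚ] F) ((α : F) ^ m) := by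
          rw [Subgroup.zpowers_le]
          change (σ.restrictScalars ℚ) ((α : F) ^ m) = (α : F) ^ m
          rw [map_pow]
          have h6 : (algebraMap (𝓞 F) F (σ • α)) ^ m = (algebraMap (𝓞 F) F α) ^ m := by
            rw [← map_pow, hσm, map_pow]
          exact h6
        exact h5 hg
      have h5 := h4 h3
      rw [IntermediateField.mem_fixedField_iff] at h5
      exact hσ (eq_one_of_gen (α : F) hgen σ (h5 _ (Subgroup.mem_zpowers _)))
    obtain ⟨b, d, hd0, hbm, hlt, hle⟩ := descent_gen a' (gen_top ℚ F (α : F)) m hm hne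
    set bL : L := algebraMap F L (algebraMap K F (b : K)) with hbL
    have hminb : minpoly ℤ bL = minpoly ℤ (b : K) := by
      rw [hbL, minpoly.algebraMap_eq (algebraMap F L).injective,
        minpoly.algebraMap_eq (algebraMap K F).injective]
    have haL : algebraMap F L (algebraMap K F (a' : K)) = a := rfl
    have hbLm : bL ^ m = a ^ (m * d) := by
      have h2 : (b : K) ^ m = (a' : K) ^ (m * d) := by
        have := congrArg (fun z : 𝓞 K => (z : K)) hbm
        simpa using this
      rw [hbL, ← map_pow, ← map_pow, h2, map_pow, map_pow, haL]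
    refine ⟨bL, ?_, ?_, ?_, ?_, ?_⟩
    · exact ((isInt b).map (IsScalarTower.toAlgHom ℤ K F)).map (IsScalarTower.toAlgHom ℤ F L)
    · intro h
      rw [h, zero_pow hm.ne'] at hbLm
      exact pow_ne_zero _ h0 hbLm.symm
    · intro j hj hj1
      apply h1 (m * d * j) (Nat.mul_pos (Nat.mul_pos hm hd0) hj)
      rw [pow_mul, ← hbLm, ← pow_mul, mul_comm, pow_mul, hj1, one_pow]
    · rw [hminb, ← hmin']
      exact hlt
    · rw [hminb, ← hmin']
      exact hle

/-- The inequality for algebraic integers. -/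
theorem main_int {L : Type*} [Field L] [CharZero L] [Algebra k L] [IsAbelianGalois k L]
    (hd : finrank ℚ k ≤ 2) (n : ℕ) : ∀ a : L, IsIntegral ℤ a → a ≠ 0 →
      (∀ m, 0 < m → a ^ m ≠ 1) → (minpoly ℤ a).natDegree = n →
      2 ≤ mahlerMeasureZ (minpoly ℤ a) ^ 4 := by
  induction n using Nat.strong_induction_on with
  | _ n ih =>
  intro a ha h0 h1 hn
  have hpos : 0 < (minpoly ℤ a).natDegree := minpoly.natDegree_pos ha
  rcases (by omega : n = 1 ∨ 2 ≤ n) with hn1 | hn2
  · exact deg_one_case a ha h0 h1 (hn.trans hn1)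
  have hg := good_minpoly a ha h0 h1 (by omega)
  rcases le_or_gt 1.28 (mahlerMeasureZ (minpoly ℤ a)) with h | h
  · exact two_le_of h
  obtain ⟨hrev, heven⟩ := even_of hg h
  by_cases h2 : n = 2
  · exact deg_two hg (hn.trans h2)
  by_cases h4 : n = 4
  · exact deg_four hg (hn.trans h4)
  have h6 : 6 ≤ n := by
    have := heven.two_dvd
    omega
  have hc0 : (minpoly ℤ a).coeff 0 = 1 := by
    rw [← hrev, coeff_zero_reverse, hg.monic.leadingCoeff]
  rcases step hd a ha h0 h1 (by omega) heven hc0 with h5 | ⟨b, hb, hb0, hb1, hblt, hble⟩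
  · exact h5
  · have h7 := ih _ (hn ▸ hblt) b hb hb0 hb1 rfl
    exact h7.trans (pow_le_pow_left₀ (mmZ_nonneg _) hble 4)

/-- The inequality for all integer polynomials with a root in an abelian extension of `k`. -/
theorem main {L : Type*} [Field L] [CharZero L] [Algebra k L] [IsAbelianGalois k L]
    (hd : finrank ℚ k ≤ 2) (f : ℤ[X]) (hf : f ≠ 0) (a : L) (hfa : aeval a f = 0) (h0 : a ≠ 0)
    (h1 : ∀ m, 0 < m → a ^ m ≠ 1) : 2 ≤ mahlerMeasureZ f ^ 4 := by
  by_cases hlc : |f.leadingCoeff| = 1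
  · have ha : IsIntegral ℤ a := by
      have h2 : f.leadingCoeff * f.leadingCoeff = 1 := by
        rcases (abs_eq (by norm_num : (0:ℤ) ≤ 1)).1 hlc with h | h <;> rw [h] <;> norm_num
      refine ⟨C f.leadingCoeff * f, ?_, ?_⟩
      · rw [Monic, leadingCoeff_mul, leadingCoeff_C, h2]
      · rw [← aeval_def, map_mul, hfa, mul_zero]
    obtain ⟨g, hg⟩ := minpoly.isIntegrallyClosed_dvd ha hfa
    have hg0 : g ≠ 0 := by
      rintro rfl
      rw [mul_zero] at hg
      exact hf hg
    have h2 := main_int hd _ a ha h0 h1 rfl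
    have h3 : mahlerMeasureZ (minpoly ℤ a) ≤ mahlerMeasureZ f := by
      conv_rhs => rw [hg]
      rw [mmZ_mul]
      exact le_mul_of_one_le_right (mmZ_nonneg _) (one_le_mmZ hg0)
    exact h2.trans (pow_le_pow_left₀ (mmZ_nonneg _) h3 4)
  · have h2 : 2 ≤ |f.leadingCoeff| := by
      have : 1 ≤ |f.leadingCoeff| := Int.one_le_abs (leadingCoeff_ne_zero.2 hf)
      omega
    have h3 : (2 : ℝ) ≤ |(f.leadingCoeff : ℝ)| := by exact_mod_cast h2
    exact two_le_of (by linarith [lc_le_mmZ f])

/-- Comparison with Lehmer's number. -/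
theorem lehmer_lt {M : ℝ} (hM0 : 0 ≤ M) (hM : 2 ≤ M ^ 4) :
    mahlerMeasureZ lehmerPolynomial < M := by
  refine lt_of_le_of_lt lehmer_upper ?_
  by_contra hcon
  push Not at hcon
  have : M ^ 4 ≤ 1.17629 ^ 4 := pow_le_pow_left₀ hM0 hcon 4
  norm_num at this
  linarith

end Pool.Agent.H21.Leh
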