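import Pool.Agent.H21.Leh.Local

/-!
# The master inequality
-/

set_option autoImplicit false

open Polynomial N60ffa576

namespace Pool.Agent.H21.Leh

open Pool.Agent.H25

variable (p : ℕ) [hp : Fact p.Prime]

lemma intCast_inj_Om : Function.Injective (Int.castRingHom (PadicAlgCl p)) :=
  RingHom.injective_int _

/-- Product of the norms of values at the `p`-adic roots. -/
lemma resultant_norms (f H : ℤ[X]) (hf : f.Monic)
    (hne : ∀ z : ℂ, aeval z f = 0 → aeval z H ≠ 0) :
    ∃ N : ℤ, N ≠ 0 ∧
      ‖(N : PadicAlgCl p)‖ = (((f.map (Int.castRingHom (PadicAlgCl p))).roots).map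
        (fun b => ‖aeval b H‖)).prod ∧
      |(N : ℝ)| = ((croots f).map (fun z => ‖aeval z H‖)).prod := by
  refine ⟨f.resultant H f.natDegree H.natDegree, ?_, ?_, ?_⟩
  · have hres := resultant_eq_prod_eval (f.map (Int.castRingHom ℂ)) (H.map (Int.castRingHom ℂ))
      H.natDegree (natDegree_map_le) (IsAlgClosed.splits _)
    rw [resultant_map_map, natDegree_map_eq_of_injective (RingHom.injective_int _)] at hres
    intro h0
    rw [h0, map_zero, (hf.map _).leadingCoeff, one_pow, one_mul] at hres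
    have h1 := hres.symm
    rw [Multiset.prod_eq_zero_iff, Multiset.mem_map] at h1
    obtain ⟨z, hz, hz0⟩ := h1
    rw [mem_roots (hf.map _).ne_zero, IsRoot.def] at hz
    refine hne z ?_ ?_
    · rw [← eval_map_algebraMap]; exact hz
    · rw [← eval_map_algebraMap]; exact hz0
  · have hres := resultant_eq_prod_eval (f.map (Int.castRingHom (PadicAlgCl p)))
      (H.map (Int.castRingHom (PadicAlgCl p)))
      H.natDegree (natDegree_map_le) (IsAlgClosed.splits _)
    rw [resultant_map_map, natDegree_map_eq_of_injective (RingHom.injective_int _)] at hres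
    have h2 : ((f.resultant H f.natDegree H.natDegree : ℤ) : PadicAlgCl p) =
      Int.castRingHom (PadicAlgCl p) (f.resultant H f.natDegree H.natDegree) := rfl
    rw [h2, hres, (hf.map _).leadingCoeff, one_pow, one_mul]
    have h3 := map_multiset_prod (normHom : PadicAlgCl p →*₀ ℝ)
      ((f.map (Int.castRingHom (PadicAlgCl p))).roots.map
        (fun b => eval b (H.map (Int.castRingHom (PadicAlgCl p)))))
    rw [Multiset.map_map] at h3
    refine h3.trans ?_
    congr 1
    apply Multiset.map_congr rfl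
    intro b _
    simp only [Function.comp_apply]
    rw [← eval_map_algebraMap]
    rfl
  · have hres := resultant_eq_prod_eval (f.map (Int.castRingHom ℂ)) (H.map (Int.castRingHom ℂ))
      H.natDegree (natDegree_map_le) (IsAlgClosed.splits _)
    rw [resultant_map_map, natDegree_map_eq_of_injective (RingHom.injective_int _)] at hres
    have h2 : ((f.resultant H f.natDegree H.natDegree : ℤ) : ℂ) =
      Int.castRingHom ℂ (f.resultant H f.natDegree H.natDegree) := rfl
    rw [← Complex.norm_intCast, h2, hres, (hf.map _).leadingCoeff, one_pow, one_mul]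
    have h3 := map_multiset_prod (normHom : ℂ →*₀ ℝ)
      ((f.map (Int.castRingHom ℂ)).roots.map (fun b => eval b (H.map (Int.castRingHom ℂ))))
    rw [Multiset.map_map] at h3
    refine h3.trans ?_
    unfold croots
    congr 1
    apply Multiset.map_congr rfl
    intro b _
    simp only [Function.comp_apply]
    rw [← eval_map_algebraMap]
    rfl

/-- Upper bound for the values at the complex roots. -/
lemma prod_upper (f : ℤ[X]) (hf : f.Monic) (ε : ℤ) (hε : |ε| = 1) (D : ℕ) :
    ((croots f).map (fun z => ‖aeval z (X ^ D - C ε : ℤ[X])‖)).prod ≤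
      2 ^ f.natDegree * mahlerMeasureZ f ^ D := by
  have h3 : ((croots f).map (fun z => ‖aeval z (X ^ D - C ε : ℤ[X])‖)).prod ≤
      ((croots f).map (fun z => 2 * max 1 ‖z‖ ^ D)).prod := by
    apply prod_map_le_prod_map _ _ (fun z _ => norm_nonneg _)
    intro z _
    rw [map_sub, map_pow, aeval_X, aeval_C]
    have h1 : ‖z‖ ^ D ≤ max 1 ‖z‖ ^ D := by
      gcongr
      exact le_max_right _ _
    have h2 : 1 ≤ max 1 ‖z‖ ^ D := one_le_pow₀ (le_max_left _ _)
    have h4 : ‖(algebraMap ℤ ℂ) ε‖ = 1 := by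
      simp only [algebraMap_int_eq, eq_intCast, Complex.norm_intCast]
      exact_mod_cast hε
    calc ‖z ^ D - (algebraMap ℤ ℂ) ε‖ ≤ ‖z ^ D‖ + ‖(algebraMap ℤ ℂ) ε‖ := norm_sub_le _ _
      _ ≤ 2 * max 1 ‖z‖ ^ D := by rw [norm_pow, h4]; linarith
  refine h3.trans (le_of_eq ?_)
  rw [Multiset.prod_map_mul, Multiset.map_const', Multiset.prod_replicate, card_croots,
    mmZ_eq, Multiset.prod_map_pow, hf.leadingCoeff]
  simp

/-- The roots as integral elements. -/
lemma exists_roots (f : ℤ[X]) (hf : f.Monic) : ∃ R : Multiset (OO p),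
    (f.map (Int.castRingHom (PadicAlgCl p))).roots = R.map (fun b : OO p => (b : PadicAlgCl p)) ∧
    f.map (Int.castRingHom (OO p)) = (R.map (fun b => X - C b)).prod := by
  have h1 : ∀ b ∈ (f.map (Int.castRingHom (PadicAlgCl p))).roots, b ∈ OO p := by
    intro b hb
    rw [mem_roots (hf.map _).ne_zero, IsRoot.def] at hb
    apply root_norm_le p f hf
    rw [← eval_map_algebraMap]; exact hb
  obtain ⟨R, hR⟩ : ∃ R : Multiset (OO p),
      R.map (fun b : OO p => (b : PadicAlgCl p)) = (f.map (Int.castRingHom (PadicAlgCl p))).roots := by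
    refine ⟨(f.map (Int.castRingHom (PadicAlgCl p))).roots.pmap (fun b hb => ⟨b, hb⟩) h1, ?_⟩
    rw [Multiset.map_pmap]
    exact (Multiset.pmap_eq_map _ (fun a => a) _ h1).trans (Multiset.map_id' _)
  refine ⟨R, hR.symm, ?_⟩
  apply Polynomial.map_injective (OO p).subtype Subtype.val_injective
  rw [Polynomial.map_map]
  have h2 : (OO p).subtype.comp (Int.castRingHom (OO p)) = Int.castRingHom (PadicAlgCl p) :=
    RingHom.ext_int _ _
  rw [h2]
  have h3 := (IsAlgClosed.splits (f.map (Int.castRingHom (PadicAlgCl p)))).eq_prod_roots_of_monic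
    (hf.map _)
  rw [h3, ← hR, Multiset.map_map, Polynomial.map_multiset_prod, Multiset.map_map]
  congr 1
  apply Multiset.map_congr rfl
  intro b _
  simp

lemma prod_rpow_le {α : Type} (s : Multiset α) (g w : α → ℝ) (hg : ∀ x ∈ s, 0 ≤ g x)
    (hgw : ∀ x ∈ s, g x ≤ (p : ℝ) ^ (-w x)) :
    0 ≤ (s.map g).prod ∧ (s.map g).prod ≤ (p : ℝ) ^ (-(s.map w).sum) := by
  have hp0 : (0 : ℝ) < p := by exact_mod_cast hp.out.pos
  induction s using Multiset.induction_on with
  | empty => simp
  | cons a s ih =>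
    rw [Multiset.map_cons, Multiset.map_cons, Multiset.prod_cons, Multiset.sum_cons]
    obtain ⟨h1, h2⟩ := ih (fun z hz => hg z (Multiset.mem_cons_of_mem hz))
      (fun z hz => hgw z (Multiset.mem_cons_of_mem hz))
    have ha := hg a (Multiset.mem_cons_self a s)
    have hb := hgw a (Multiset.mem_cons_self a s)
    refine ⟨mul_nonneg ha h1, ?_⟩
    rw [neg_add, Real.rpow_add hp0]
    exact mul_le_mul hb h2 h1 (by positivity)

/-- The local estimate with real exponents. -/
lemma root_est {K : Type} [Field K] (φ : OO p →+* K)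
    (hφ : ∀ x, φ x = 0 ↔ ‖(x : PadicAlgCl p)‖ < 1) (f : ℤ[X]) (hf : f.Monic) (b : OO p)
    (hb : aeval b f = 0) (ε : ℤ) (hε : ε = 1 ∨ ε = -1 ∧ Odd p) (T k : ℕ)
    (hT : φ b ^ T = (ε : K)) :
    ‖((b : PadicAlgCl p) ^ (T * p ^ k) - (ε : PadicAlgCl p))‖ ≤ (p : ℝ) ^
      (-((KK p (rootMultiplicity (φ b) (f.map (Int.castRingHom K))) k : ℝ) /
        (rootMultiplicity (φ b) (f.map (Int.castRingHom K)) : ℝ))) := by
  have hp0 : (0 : ℝ) < p := by exact_mod_cast hp.out.pos
  set m := rootMultiplicity (φ b) (f.map (Int.castRingHom K)) with hm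
  have hm0 : 0 < m := by
    rw [hm, rootMultiplicity_pos (hf.map _).ne_zero, IsRoot.def, eval_map]
    have h3 : φ (aeval b f) = eval₂ (Int.castRingHom K) (φ b) f := by
      rw [aeval_def, hom_eval₂]
      congr 1
      exact RingHom.ext_int _ _
    rw [← h3, hb, map_zero]
  have h1 := local_est p φ hφ f hf b hb ε T hT
  have h2 := norm_iter p ε hε (b ^ T) m h1 k
  rw [← pow_mul] at h2
  push_cast at h2
  refine le_of_pow_le_pow_left₀ hm0.ne' (by positivity) (h2.trans (le_of_eq ?_))
  rw [← Real.rpow_natCast, ← Real.rpow_natCast, ← Real.rpow_mul hp0.le,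
    ← Real.rpow_neg_one, ← Real.rpow_mul hp0.le]
  congr 1
  have : (m : ℝ) ≠ 0 := by exact_mod_cast hm0.ne'
  field_simp

lemma aeval_OO (f : ℤ[X]) (b : OO p) :
    ((aeval b f : OO p) : PadicAlgCl p) = aeval (b : PadicAlgCl p) f := by
  rw [aeval_def, aeval_def]
  have h : ((eval₂ (algebraMap ℤ (OO p)) b f : OO p) : PadicAlgCl p) =
    (OO p).subtype (eval₂ (algebraMap ℤ (OO p)) b f) := rfl
  rw [h, hom_eval₂]
  congr 1

/-- The master inequality over an algebraically closed residue field. -/
lemma master_K {K : Type} [Field K] [DecidableEq K] (φ : OO p →+* K)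
    (hφ : ∀ x, φ x = 0 ↔ ‖(x : PadicAlgCl p)‖ < 1) (f : ℤ[X]) (hf : f.Monic)
    (ε : ℤ) (hε : ε = 1 ∨ ε = -1 ∧ Odd p) (T k : ℕ)
    (hne : ∀ z : ℂ, aeval z f = 0 → z ^ (T * p ^ k) ≠ (ε : ℂ)) :
    (p : ℝ) ^ (∑ x ∈ (f.map (Int.castRingHom K)).roots.toFinset,
      (if x ^ T = (ε : K) then KK p (rootMultiplicity x (f.map (Int.castRingHom K))) k else 0)) ≤
      2 ^ f.natDegree * mahlerMeasureZ f ^ (T * p ^ k) := by
  have hp0 : (0 : ℝ) < p := by exact_mod_cast hp.out.pos
  have hεa : |ε| = 1 := by rcases hε with h | ⟨h, _⟩ <;> rw [h] <;> simp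
  set H : ℤ[X] := X ^ (T * p ^ k) - C ε with hH
  obtain ⟨N, hN0, hN1, hN2⟩ := resultant_norms p f H hf (by
    intro z hz
    rw [hH, map_sub, map_pow, aeval_X, aeval_C]
    intro h0
    exact hne z hz (sub_eq_zero.1 h0))
  obtain ⟨R, hR1, hR2⟩ := exists_roots p f hf
  have hup := prod_upper f hf ε hεa (T * p ^ k)
  rw [← hH, ← hN2] at hup
  set fK := f.map (Int.castRingHom K) with hfK
  have hfK0 : fK ≠ 0 := (hf.map _).ne_zero
  have hroots : fK.roots = R.map φ := by
    have h1 : fK = ((R.map φ).map (fun x => X - C x)).prod := by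
      have h2 := congrArg (Polynomial.map φ) hR2
      rw [Polynomial.map_map, RingHom.ext_int (φ.comp (Int.castRingHom (OO p)))
        (Int.castRingHom K), ← hfK] at h2
      rw [h2, Polynomial.map_multiset_prod, Multiset.map_map, Multiset.map_map]
      congr 1
      apply Multiset.map_congr rfl
      intro b _
      simp
    rw [h1]
    exact roots_multiset_prod_X_sub_C _
  let w : K → ℝ := fun x => if x ^ T = (ε : K) then
    (KK p (rootMultiplicity x fK) k : ℝ) / (rootMultiplicity x fK : ℝ) else 0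
  have hprod := prod_rpow_le p R (fun b => ‖aeval (b : PadicAlgCl p) H‖) (fun b => w (φ b))
    (fun _ _ => norm_nonneg _) (by
    intro b hbR
    have hb : aeval b f = 0 := by
      have h1 : IsRoot (f.map (Int.castRingHom (OO p))) b := by
        rw [← dvd_iff_isRoot, hR2]
        exact Multiset.dvd_prod (Multiset.mem_map_of_mem (fun b => X - C b) hbR)
      rw [IsRoot.def] at h1
      rw [← eval_map_algebraMap]; exact h1
    have hval : aeval (b : PadicAlgCl p) H = (b : PadicAlgCl p) ^ (T * p ^ k) - (ε : PadicAlgCl p) := by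
      rw [hH, map_sub, map_pow, aeval_X, aeval_C]
      simp
    rw [hval]
    by_cases hT : φ b ^ T = (ε : K)
    · have h1 := root_est p φ hφ f hf b hb ε hε T k hT
      simp only [w, if_pos hT]
      exact h1
    · simp only [w, if_neg hT, neg_zero, Real.rpow_zero]
      have : ((b : PadicAlgCl p) ^ (T * p ^ k) - (ε : PadicAlgCl p)) =
          ((b ^ (T * p ^ k) - (ε : OO p) : OO p) : PadicAlgCl p) := by push_cast; rfl
      rw [this]
      exact OO_norm_le p _)
  have hNeq : ‖(N : PadicAlgCl p)‖ = (R.map (fun b : OO p => ‖aeval (b : PadicAlgCl p) H‖)).prod := by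
    rw [hN1, hR1, Multiset.map_map]
    rfl
  have hsum : (R.map (fun b => w (φ b))).sum = ((∑ x ∈ fK.roots.toFinset,
      (if x ^ T = (ε : K) then KK p (rootMultiplicity x fK) k else 0) : ℕ) : ℝ) := by
    have h1 : R.map (fun b => w (φ b)) = (fK.roots).map w := by
      rw [hroots, Multiset.map_map]; rfl
    rw [h1, Finset.sum_multiset_map_count, Nat.cast_sum]
    apply Finset.sum_congr rfl
    intro x hx
    rw [count_roots, nsmul_eq_mul]
    have hx0 : (rootMultiplicity x fK : ℝ) ≠ 0 := by
      have h2 : 0 < rootMultiplicity x fK := by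
        rw [rootMultiplicity_pos hfK0]
        rw [Multiset.mem_toFinset, mem_roots hfK0] at hx
        exact hx
      exact_mod_cast h2.ne'
    by_cases hT : x ^ T = (ε : K)
    · simp only [w, if_pos hT]
      field_simp
    · simp only [w, if_neg hT, mul_zero, Nat.cast_zero]
  rw [hsum, Real.rpow_neg hp0.le, Real.rpow_natCast, ← hNeq] at hprod
  have h1 := one_le_abs_mul_norm p N hN0
  set S := ∑ x ∈ fK.roots.toFinset,
      (if x ^ T = (ε : K) then KK p (rootMultiplicity x fK) k else 0) with hS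
  have hpS : (0 : ℝ) < (p : ℝ) ^ S := by positivity
  have h2 : 1 ≤ |(N : ℝ)| * ((p : ℝ) ^ S)⁻¹ :=
    h1.trans (mul_le_mul_of_nonneg_left hprod.2 (abs_nonneg _))
  have h3 : (p : ℝ) ^ S ≤ |(N : ℝ)| := by
    have h4 := mul_le_mul_of_nonneg_right h2 hpS.le
    rw [one_mul, mul_assoc, inv_mul_cancel₀ hpS.ne', mul_one] at h4
    exact h4
  exact h3.trans hup

/-- The master inequality. -/
theorem master {F : Type*} [Field F] [Fintype F] [DecidableEq F] [CharP F p]
    (f : ℤ[X]) (hf : f.Monic)
    (ε : ℤ) (hε : ε = 1 ∨ ε = -1 ∧ Odd p) (T k : ℕ)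
    (hne : ∀ z : ℂ, aeval z f = 0 → z ^ (T * p ^ k) ≠ (ε : ℂ)) :
    (p : ℝ) ^ (∑ a ∈ Finset.univ.filter (fun a : F => a ^ T = (ε : F)),
      KK p (rootMultiplicity a (f.map (Int.castRingHom F))) k) ≤
      2 ^ f.natDegree * mahlerMeasureZ f ^ (T * p ^ k) := by
  classical
  obtain ⟨K, hKf, hKc, φ, hφ⟩ := exists_residue p
  have hK : CharP K p := charP_residue p φ hφ
  let _ : Algebra (ZMod p) F := ZMod.algebra F p
  let _ : Algebra (ZMod p) K := ZMod.algebra K p
  let ι : F →ₐ[ZMod p] K := IsAlgClosed.lift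
  have hι : Function.Injective ι := ι.toRingHom.injective
  refine le_trans ?_ (master_K p φ hφ f hf ε hε T k hne)
  have hp1 : (1 : ℝ) ≤ p := by exact_mod_cast hp.out.one_lt.le
  apply pow_le_pow_right₀ hp1
  have hcomp : (ι : F →+* K).comp (Int.castRingHom F) = Int.castRingHom K := RingHom.ext_int _ _
  have hmult : ∀ a : F, rootMultiplicity (ι a) (f.map (Int.castRingHom K)) =
      rootMultiplicity a (f.map (Int.castRingHom F)) := by
    intro a
    rw [← hcomp, ← Polynomial.map_map]
    exact (eq_rootMultiplicity_map (f := (ι : F →+* K)) hι a).symm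
  have hpow : ∀ a : F, (ι a) ^ T = (ε : K) ↔ a ^ T = (ε : F) := by
    intro a
    constructor
    · intro h
      apply hι
      rw [map_pow, h, map_intCast]
    · intro h
      rw [← map_pow, h, map_intCast]
  set fF := f.map (Int.castRingHom F) with hfF
  have h1 : ∑ a ∈ Finset.univ.filter (fun a : F => a ^ T = (ε : F)), KK p (rootMultiplicity a fF) k
      = ∑ a ∈ Finset.univ.filter (fun a : F => rootMultiplicity a fF ≠ 0),
        (if a ^ T = (ε : F) then KK p (rootMultiplicity a fF) k else 0) := by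
    rw [Finset.sum_filter, Finset.sum_filter]
    apply Finset.sum_congr rfl
    intro a _
    by_cases h : rootMultiplicity a fF = 0
    · simp only [h, KK_zero_left, ite_self]
    · simp only [ne_eq, h, not_false_eq_true, if_true]
  rw [h1]
  have h2 : ∑ a ∈ Finset.univ.filter (fun a : F => rootMultiplicity a fF ≠ 0),
        (if a ^ T = (ε : F) then KK p (rootMultiplicity a fF) k else 0) =
      ∑ x ∈ (Finset.univ.filter (fun a : F => rootMultiplicity a fF ≠ 0)).image ι,
        (if x ^ T = (ε : K) then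
          KK p (rootMultiplicity x (f.map (Int.castRingHom K))) k else 0) := by
    rw [Finset.sum_image (fun a _ b _ h => hι h)]
    apply Finset.sum_congr rfl
    intro a _
    rw [hmult]
    simp only [hpow]
  rw [h2]
  refine Finset.sum_le_sum_of_subset_of_nonneg ?_ (fun _ _ _ => Nat.zero_le _)
  intro x hx
  rw [Finset.mem_image] at hx
  obtain ⟨a, ha, rfl⟩ := hx
  rw [Finset.mem_filter] at ha
  rw [Multiset.mem_toFinset, mem_roots (hf.map _).ne_zero, ← rootMultiplicity_pos (hf.map _).ne_zero,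
    hmult]
  omega

end Pool.Agent.H21.Leh
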