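import Pool.Agent.H21.Leh.Forms

/-!
# The field with nine elements
-/

set_option autoImplicit false

namespace Pool.Agent.H21.Leh

variable {F : Type*} [Field F] [Fintype F] [DecidableEq F]
variable {m : F → ℕ} {n : ℕ} {x μ : ℝ}

/-- The numerical contradiction. -/
lemma nine_num {n e J x μ : ℝ} (hn : 0 < n) (hx : 1.5849 ≤ x) (hμ : μ < 15 / 64)
    (hJ : 0 < J) (he1 : 0.3736 * n ≤ e) (he2 : e ≤ 0.3879 * n)
    (h1 : (J + e) * x ≤ n + 3 * J * μ) (h2 : (J + 2 * e) * x ≤ n + 9 * J * μ)
    (h3 : 2 * J ≤ 3 * (0.31 * n) → (0.31 * n * J + (n - e) * J) * x ≤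
      0.31 * n * (n + 8 * J * μ)) : False := by
  have hJμ : J * μ ≤ J * (15 / 64) := by nlinarith
  have hJx : J * 1.5849 ≤ J * x := by gcongr
  have hex : e * 1.5849 ≤ e * x := by
    have : 0 < e := by nlinarith
    gcongr
  have a1 : J * 0.881775 ≤ 0.40788136 * n := by linarith
  have a3 := h3 (by linarith)
  have a2 : 3.1698 * e - n ≤ 0.524475 * J := by linarith
  have hpos : 0 ≤ 0.31 * n * J + (n - e) * J := by
    have : 0 ≤ n - e := by linarith
    positivity
  have a4 : (0.31 * n * J + (n - e) * J) * 1.5849 ≤ 0.31 * n * (n + 1.875 * J) := by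
    have h5 : (0.31 * n * J + (n - e) * J) * 1.5849 ≤ (0.31 * n * J + (n - e) * J) * x := by
      gcongr
    have h6 : 0.31 * n * (n + 8 * J * μ) ≤ 0.31 * n * (n + 1.875 * J) :=
      mul_le_mul_of_nonneg_left (by linarith) (by positivity)
    linarith
  have a5 : J * (1.494969 * n - 1.5849 * e) ≤ 0.31 * n ^ 2 := by nlinarith
  have a6 : 0 < 1.494969 * n - 1.5849 * e := by linarith
  have a7 : (3.1698 * e - n) * (1.494969 * n - 1.5849 * e) ≤ 0.524475 * (0.31 * n ^ 2) := by
    calc (3.1698 * e - n) * (1.494969 * n - 1.5849 * e)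
        ≤ 0.524475 * J * (1.494969 * n - 1.5849 * e) := by gcongr
      _ = 0.524475 * (J * (1.494969 * n - 1.5849 * e)) := by ring
      _ ≤ _ := by gcongr
  have a8 : 0 ≤ (e - 0.3736 * n) * (0.3879 * n - e) :=
    mul_nonneg (by linarith) (by linarith)
  nlinarith

theorem no_nine (hq : Fintype.card F = 9) (h : Prof 3 m n x μ) (hx : 1.5849 ≤ x) : False := by
  obtain ⟨a, ha0, ha, hmax⟩ := h.exists_max
  have hn := h.n_pos
  have h1 := h.all0 (m a) ha hmax
  rw [hq] at h1
  norm_num at h1
  have hma : (0 : ℝ) < m a := by exact_mod_cast ha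
  have hodd : Odd 3 := by decide
  have h3 : 0.3736 * n ≤ (m a : ℝ) := by
    by_contra hcon
    push Not at hcon
    have h4 : 15 * (m a : ℝ) * 8 * (x + 2) ≤ 15 * (0.3736 * n) * 8 * (x + 2) := by
      have : 0 < x + 2 := by linarith
      gcongr
    have h5 : 0 ≤ n * (64 * x ^ 2 - 44.832 * (x + 2)) := by
      apply mul_nonneg hn.le
      nlinarith
    linarith
  have hpow : ∀ b : F, b ≠ 0 → b ^ (2 * 4) = 1 := by
    intro b hb
    have := FiniteField.pow_card_sub_one_eq_one b hb
    rw [hq] at this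
    exact this
  -- a sign has small multiplicity
  have hsmall : ∀ b : F, b = 1 ∨ b = -1 → (m b : ℝ) ≤ 0.3879 * n := by
    intro b hb
    by_contra hcon
    push Not at hcon
    have hb0 : 0 < m b := by
      have : (0 : ℝ) < m b := by linarith
      exact_mod_cast this
    have hmb : (0 : ℝ) < m b := by exact_mod_cast hb0
    have hb2 : b ^ (2 * 1) = 1 := by rcases hb with rfl | rfl <;> ring
    obtain ⟨ε, hε, hbε⟩ := exists_sign hodd hb2
    have h9 : 1.5849 * (m b : ℝ) ≤ m b * x := by
      rw [mul_comm]; exact mul_le_mul_of_nonneg_left hx hmb.le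
    have h8 : 1.5849 * (m b * x) ≤ m b * x ^ 2 := by
      calc 1.5849 * (m b * x) ≤ x * (m b * x) := by gcongr
        _ = _ := by ring
    rcases le_total (n : ℝ) (m b * x) with hle | hle
    · have h6 := h.single0 b hb0 ε hε 1 one_pos hbε hle
      norm_num at h6
      linarith
    · have h6 := h.single1 b hb0 ε hε 1 one_pos hbε hle (by linarith)
      norm_num at h6
      linarith
  -- other classes
  have hother : ∀ b : F, b ≠ 0 → b ≠ 1 → b ≠ -1 → (m b : ℝ) ≤ 0.31 * n := by
    intro b hb0' hb1 hb2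
    by_contra hcon
    push Not at hcon
    have hb0 : 0 < m b := by
      have : (0 : ℝ) < m b := by linarith
      exact_mod_cast this
    have hmb : (0 : ℝ) < m b := by exact_mod_cast hb0
    have hbinv := ne_inv hb0' hb1 hb2
    obtain ⟨ε, hε, hbε⟩ := exists_sign hodd (hpow b hb0')
    have h9 : 1.5849 * (m b : ℝ) ≤ m b * x := by
      rw [mul_comm]; exact mul_le_mul_of_nonneg_left hx hmb.le
    have h8 : 1.5849 * (m b * x) ≤ m b * x ^ 2 := by
      calc 1.5849 * (m b * x) ≤ x * (m b * x) := by gcongr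
        _ = _ := by ring
    rcases le_total (n : ℝ) (2 * m b * x) with hle | hle
    · have h6 := h.pair0 b hb0 hbinv ε hε 4 (by norm_num) hbε hle
      norm_num at h6
      linarith
    · have h6 := h.pair1 b hb0 hbinv ε hε 4 (by norm_num) hbε hle (by linarith)
      norm_num at h6
      linarith
  have hasign : a = 1 ∨ a = -1 := by
    by_contra hcon
    push Not at hcon
    have := hother a ha0 hcon.1 hcon.2
    linarith
  have he2 := hsmall a hasign
  have ha2 : a ^ (2 * 1) = 1 := by rcases hasign with rfl | rfl <;> ring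
  obtain ⟨ε, hε, haε⟩ := exists_sign hodd ha2
  -- every other class is small
  have hrest : ∀ b : F, b ≠ 0 → b ≠ a → (m b : ℝ) ≤ 0.31 * n := by
    intro b hb0 hba
    by_cases hs : b = 1 ∨ b = -1
    · by_contra hcon
      push Not at hcon
      have hS : ∀ c ∈ ({a, b} : Finset F), c ^ 2 = ((1 : ℤ) : F) := by
        intro c hc
        rw [Finset.mem_insert, Finset.mem_singleton] at hc
        rcases hc with rfl | rfl
        · rw [mul_one] at ha2; rw [ha2]; simp
        · rcases hs with rfl | rfl <;> simp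
      have h6 := h.elim 1 (Or.inl rfl) 2 0 (by norm_num) {a, b} hS (m a) (by exact_mod_cast ha)
        (by intro c _; exact_mod_cast hmax c) (m a + m b) (by rw [Finset.sum_pair hba.symm])
        (by rw [Nat.cast_zero, zero_mul]; exact hn.le)
        (by push_cast; nlinarith)
      norm_num at h6
      set D := ((m a : ℝ) + m b) * x with hD
      have hD1 : 1.083 * n ≤ D := by
        have : 0.6836 * n * 1.5849 ≤ D := by
          apply mul_le_mul (by linarith) hx (by norm_num) (by positivity)
        linarith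
      have h7 : 15 * (m a : ℝ) * 2 * (D + 2 * n) ≤ 15 * (0.3879 * n) * 2 * (D + 2 * n) := by
        have : 0 < D + 2 * n := by linarith
        gcongr
      have h8 : 1.083 * n * D ≤ D ^ 2 := by
        calc 1.083 * n * D ≤ D * D := by gcongr
          _ = D ^ 2 := by ring
      have h9 : 1.083 * n * n ≤ n * D := by nlinarith
      nlinarith
    · push Not at hs
      exact hother b hb0 hs.1 hs.2
  obtain ⟨j, hj, hj'⟩ := exists_lev (p := 3) (by norm_num) (m a : ℝ) (by exact_mod_cast ha)
  have hS1 : ∀ b ∈ ({a} : Finset F), b ^ 1 = ((ε : ℤ) : F) := by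
    intro b hb
    rw [Finset.mem_singleton] at hb
    rw [hb]; exact haε
  have hSle : ∀ b ∈ ({a} : Finset F), (m b : ℝ) ≤ m a := by
    intro b _
    exact_mod_cast hmax b
  have hA := h.scale ε hε 1 j 1 one_pos _ hS1 (m a) (by exact_mod_cast ha) hSle hj hj'
  have hB := h.scale ε hε 1 j 2 one_pos _ hS1 (m a) (by exact_mod_cast ha) hSle hj hj'
  rw [Finset.sum_singleton] at hA hB
  set J : ℝ := (3 : ℝ) ^ j with hJ
  have hJ0 : 0 < J := by positivity
  push_cast at hA hB
  rw [pow_succ, ← hJ] at hA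
  rw [pow_add, ← hJ] at hB
  have hA' : (J + m a) * x ≤ n + 3 * J * μ := by
    apply le_of_mul_le_mul_left _ hma
    linarith
  have hB' : (J + 2 * m a) * x ≤ n + 9 * J * μ := by
    apply le_of_mul_le_mul_left _ hma
    linarith
  refine nine_num hn hx h.small hJ0 h3 he2 hA' hB' ?_
  intro hcond
  set S' : Finset F := ((Finset.univ.erase 0).erase a) with hS'
  have hn1 : 1 ≤ 0.31 * (n : ℝ) := by
    have h1J : 1 ≤ J := one_le_pow₀ (by norm_num)
    have h3' : (2 : ℝ) < n := by linarith
    have h4 : (3 : ℝ) ≤ n := by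
      have : 2 < n := by exact_mod_cast h3'
      exact_mod_cast this
    rcases (by
      have : 3 ≤ n := by exact_mod_cast h4
      omega : n = 3 ∨ 4 ≤ n) with h5 | h5
    · exfalso
      rw [h5] at h3 he2
      push_cast at h3 he2
      have h6 : (1 : ℝ) < m a := by linarith
      have h7 : (m a : ℝ) < 2 := by linarith
      have h8 : 1 < m a := by exact_mod_cast h6
      have h9 : m a < 2 := by exact_mod_cast h7
      omega
    · have : (4 : ℝ) ≤ n := by exact_mod_cast h5
      linarith
  have hKa : J ≤ KK 3 (m a) j := by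
    have h4 := KK_high (p := 3) (by norm_num) (m a) j 0 (m a) (by exact_mod_cast ha) le_rfl hj hj'
    have h5 := le_of_mul_le_mul_left h4 hma
    push_cast at h5
    simpa using h5
  have hKrest : ∀ b ∈ S', (m b : ℝ) * J ≤ 0.31 * n * KK 3 (m b) j := by
    intro b hb
    rw [hS', Finset.mem_erase, Finset.mem_erase] at hb
    have h4 := KK_low (p := 3) (by norm_num) (m b) j (0.31 * n) hn1 (hrest b hb.2.1 hb.1) (by
      push_cast
      linarith)
    push_cast at h4
    exact h4
  have ha_mem : a ∈ Finset.univ.erase (0 : F) := by simp [ha0]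
  have hsplit : ∀ g : F → ℝ, ∑ b ∈ Finset.univ.erase (0 : F), g b =
      g a + ∑ b ∈ S', g b := by
    intro g
    rw [← Finset.add_sum_erase _ g ha_mem]
  have hmsum : ∑ b ∈ S', (m b : ℝ) = n - m a := by
    have h4 := hsplit (fun b => (m b : ℝ))
    have h5 : ∑ b ∈ Finset.univ.erase (0 : F), (m b : ℝ) = n := by
      rw [← h.sum, Nat.cast_sum, ← Finset.add_sum_erase _ (fun b => (m b : ℝ)) (Finset.mem_univ 0),
        h.zero]
      simp
    rw [h5] at h4
    linarith
  have hmain := h.sub 1 (Or.inl rfl) 8 j (by norm_num) (Finset.univ.erase 0) (by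
    intro b hb
    rw [Finset.mem_erase] at hb
    have := hpow b hb.1
    norm_num at this
    rw [this]; simp)
  rw [hsplit (fun b => (KK 3 (m b) j : ℝ))] at hmain
  push_cast at hmain
  rw [← hJ] at hmain
  have hx0 : 0 < x := by linarith
  calc (0.31 * n * J + (n - m a) * J) * x
      = (0.31 * n * J + ∑ b ∈ S', (m b : ℝ) * J) * x := by
        rw [← hmsum, Finset.sum_mul]
    _ ≤ (0.31 * n * KK 3 (m a) j + ∑ b ∈ S', 0.31 * n * (KK 3 (m b) j : ℝ)) * x :=
        mul_le_mul_of_nonneg_right (add_le_add (mul_le_mul_of_nonneg_left hKa (by positivity))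
          (Finset.sum_le_sum hKrest)) hx0.le
    _ = 0.31 * n * (((KK 3 (m a) j : ℝ) + ∑ b ∈ S', (KK 3 (m b) j : ℝ)) * x) := by
        rw [← Finset.mul_sum]; ring
    _ ≤ 0.31 * n * (n + 8 * J * μ) := by
        apply mul_le_mul_of_nonneg_left hmain (by linarith)

end Pool.Agent.H21.Leh
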