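import Pool.Agent.H21.Leh.Key

/-!
# Abelian extensions of number fields: the product of the primes above a prime
-/

open Polynomial Module NumberField IntermediateField Ideal

open scoped Pointwise

namespace Pool.Agent.H21.Leh

variable {k F : Type*} [Field k] [NumberField k] [Field F] [NumberField F] [Algebra k F]

/-- The product of the primes of `F` above `p`. -/
noncomputable def rad (F : Type*) [Field F] [NumberField F] [Algebra k F] (p : Ideal (𝓞 k))
    [p.IsMaximal] : Ideal (𝓞 F) :=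
  ∏ P ∈ (p.primesOver (𝓞 F)).toFinset, P

section
variable (p : Ideal (𝓞 k)) [p.IsMaximal] (hp : p ≠ ⊥)

include hp

omit [NumberField k] in
lemma mem_rad {x : 𝓞 F} : x ∈ rad F p ↔ ∀ P ∈ p.primesOver (𝓞 F), x ∈ P := by
  have h := IsDedekindDomain.inf_pow_eq_prod_of_prime (p.primesOver (𝓞 F)).toFinset
    (fun P => P) (fun _ => 1) (by
      intro P hP
      rw [Set.mem_toFinset] at hP
      exact Ideal.prime_of_isPrime (ne_bot_of_mem_primesOver hp hP) hP.1) (by
      intro P _ Q _ h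
      exact h)
  simp only [pow_one] at h
  unfold rad
  rw [← h, Submodule.mem_finsetInf]
  simp

variable [IsGalois k F]

lemma rad_pow : rad F p ^ (p.ramificationIdxIn (𝓞 F)) = p.map (algebraMap (𝓞 k) (𝓞 F)) := by
  rw [Ideal.map_algebraMap_eq_finsetProd_pow hp]
  unfold rad
  rw [← Finset.prod_pow]
  refine Finset.prod_congr rfl fun P hP => ?_
  rw [Set.mem_toFinset] at hP
  have := hP.1
  have := hP.2
  rw [ramificationIdxIn_eq_ramificationIdx p P Gal(F/k)]

lemma absNorm_rad_pow : absNorm (rad F p) ^ (p.ramificationIdxIn (𝓞 F)) =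
    absNorm p ^ finrank k F := by
  rw [← map_pow, rad_pow p hp, Ideal.absNorm_algebraMap,
    IsFractionRing.finrank_eq (𝓞 k) k (𝓞 F) F]

omit hp in
lemma ramIdx_pos : 0 < p.ramificationIdxIn (𝓞 F) :=
  Nat.pos_of_ne_zero (ramificationIdxIn_ne_zero Gal(F/k))

/-- Elements of an inertia group act trivially modulo the product of the primes above `p`. -/
lemma inertia_rad (hc : ∀ σ τ : Gal(F/k), σ * τ = τ * σ) :
    ∃ I : Subgroup Gal(F/k), Nat.card I = p.ramificationIdxIn (𝓞 F) ∧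
      ∀ σ : Gal(F/k), σ ∈ I ↔ ∀ x : 𝓞 F, σ • x - x ∈ rad F p := by
  obtain ⟨P, hP⟩ := (inferInstance : Nonempty (primesOver p (𝓞 F)))
  have := hP.1
  have := hP.2
  refine ⟨P.inertia Gal(F/k), card_inertia_eq_ramificationIdxIn p P, fun σ => ⟨fun hσ x => ?_,
    fun h => ?_⟩⟩
  · rw [mem_rad p hp]
    intro Q hQ
    have := hQ.1
    have := hQ.2
    obtain ⟨τ, rfl⟩ := exists_smul_eq_of_isGaloisGroup p P Q Gal(F/k)
    rw [Ideal.mem_pointwise_smul_iff_inv_smul_mem, smul_sub, smul_smul, hc, ← smul_smul]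
    exact hσ (τ⁻¹ • x)
  · intro x
    exact (mem_rad p hp).1 (h x) P hP

/-- A common Frobenius element. -/
lemma frob_rad (hc : ∀ σ τ : Gal(F/k), σ * τ = τ * σ) :
    ∃ φ : Gal(F/k), ∀ x : 𝓞 F, φ • x - x ^ absNorm p ∈ rad F p := by
  obtain ⟨P, hP⟩ := (inferInstance : Nonempty (primesOver p (𝓞 F)))
  have := hP.1
  have := hP.2
  have : Finite (𝓞 F ⧸ P) := Ring.HasFiniteQuotients.finiteQuotient (ne_bot_of_mem_primesOver hp hP)
  obtain ⟨φ, hφ⟩ := IsArithFrobAt.exists_of_isInvariant (𝓞 k) Gal(F/k) P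
  refine ⟨φ, fun x => ?_⟩
  rw [mem_rad p hp]
  intro Q hQ
  have := hQ.1
  have := hQ.2
  obtain ⟨τ, rfl⟩ := exists_smul_eq_of_isGaloisGroup p P Q Gal(F/k)
  have h := hφ.conj τ x
  rw [hc τ φ, mul_inv_cancel_right] at h
  have h2 : (τ • P).under (𝓞 k) = p := (Ideal.over_def (τ • P) p).symm
  rw [h2] at h
  exact h

end

end Pool.Agent.H21.Leh
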