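import Pool.Agent.H21.Leh.Forms

/-!
# The field with thirteen elements
-/

set_option autoImplicit false

namespace Pool.Agent.H21.Leh

variable {F : Type*} [Field F] [Fintype F] [DecidableEq F]
variable {m : F → ℕ} {n : ℕ} {x μ : ℝ}

/-- The numerical contradiction. -/
lemma thirteen_num {n e J x μ : ℝ} (hn : 0 < n) (hx : 3.7 ≤ x) (hμ : μ < 15 / 64)
    (hJ : 0 < J) (he1 : 0.31 * n ≤ e) (he2 : e ≤ 0.3805 * n)
    (h1 : 2 * J * x ≤ n + 6 * J * μ) (h2 : 2 * (J + e) * x ≤ n + 6 * (13 * J) * μ)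
    (h3 : 12 * J ≤ 13 * (0.2703 * n) → (2 * (0.2703 * n) * J + (n - 2 * e) * J) * x ≤
      0.2703 * n * (n + 12 * J * μ)) : False := by
  have hJμ : J * μ ≤ J * (15 / 64) := by nlinarith
  have a1 : J * (7.4 - 1.40625) ≤ n := by nlinarith
  have a3 := h3 (by linarith)
  have a2 : 7.4 * e - n ≤ 10.88125 * J := by nlinarith
  have hpos : 0 ≤ 2 * (0.2703 * n) * J + (n - 2 * e) * J := by
    have : 0 ≤ n - 2 * e := by linarith
    positivity
  have a4 : (2 * (0.2703 * n) * J + (n - 2 * e) * J) * 3.7 ≤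
      0.2703 * n * (n + 2.8125 * J) := by
    have h5 : (2 * (0.2703 * n) * J + (n - 2 * e) * J) * 3.7 ≤
        (2 * (0.2703 * n) * J + (n - 2 * e) * J) * x := by gcongr
    have h6 : 0.2703 * n * (n + 12 * J * μ) ≤ 0.2703 * n * (n + 2.8125 * J) :=
      mul_le_mul_of_nonneg_left (by linarith) (by positivity)
    linarith
  have a5 : J * (4.939 * n - 7.4 * e) ≤ 0.2703 * n ^ 2 := by nlinarith
  have a6 : 0 < 4.939 * n - 7.4 * e := by linarith
  have a7 : (7.4 * e - n) * (4.939 * n - 7.4 * e) ≤ 10.88125 * (0.2703 * n ^ 2) := by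
    calc (7.4 * e - n) * (4.939 * n - 7.4 * e) ≤ 10.88125 * J * (4.939 * n - 7.4 * e) := by
          gcongr
      _ = 10.88125 * (J * (4.939 * n - 7.4 * e)) := by ring
      _ ≤ _ := by gcongr
  have a8 : 0 ≤ (e - 0.31 * n) * (0.3805 * n - e) :=
    mul_nonneg (by linarith) (by linarith)
  nlinarith

theorem no_thirteen (hq : Fintype.card F = 13) (h : Prof 13 m n x μ) (hx : 3.7 ≤ x) : False := by
  obtain ⟨a, ha0, ha, hmax⟩ := h.exists_max
  have hn := h.n_pos
  have h1 := h.all0 (m a) ha hmax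
  rw [hq] at h1
  norm_num at h1
  have hma : (0 : ℝ) < m a := by exact_mod_cast ha
  have hodd : Odd 13 := by decide
  have h3 : 0.31 * n ≤ (m a : ℝ) := by
    by_contra hcon
    push Not at hcon
    have h4 : 15 * (m a : ℝ) * 12 * (x + 12) ≤ 15 * (0.31 * n) * 12 * (x + 12) := by
      have : 0 < x + 12 := by linarith
      gcongr
    have h5 : 0 ≤ n * (64 * x ^ 2 - 55.8 * (x + 12)) := by
      apply mul_nonneg hn.le
      nlinarith
    linarith
  -- a sign has small multiplicity
  have hsmall : ∀ b : F, b = 1 ∨ b = -1 → (m b : ℝ) ≤ 0.2703 * n := by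
    intro b hb
    by_contra hcon
    push Not at hcon
    have hb0 : 0 < m b := by
      have : (0 : ℝ) < m b := by linarith
      exact_mod_cast this
    have hmb : (0 : ℝ) < m b := by exact_mod_cast hb0
    have hb2 : b ^ (2 * 1) = 1 := by rcases hb with rfl | rfl <;> ring
    obtain ⟨ε, hε, hbε⟩ := exists_sign hodd hb2
    have h9 : 3.7 * (m b : ℝ) ≤ m b * x := by
      rw [mul_comm]; exact mul_le_mul_of_nonneg_left hx hmb.le
    have h6 := h.single0 b hb0 ε hε 1 one_pos hbε (by linarith)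
    norm_num at h6
    have h8 : 3.7 * (m b * x) ≤ m b * x ^ 2 := by
      calc 3.7 * (m b * x) ≤ x * (m b * x) := by gcongr
        _ = _ := by ring
    linarith
  have hne1 : a ≠ 1 := by
    rintro rfl
    have := hsmall 1 (Or.inl rfl)
    linarith
  have hne2 : a ≠ -1 := by
    rintro rfl
    have := hsmall (-1) (Or.inr rfl)
    linarith
  have hinv := ne_inv ha0 hne1 hne2
  have h9 : 3.7 * (m a : ℝ) ≤ m a * x := by
    rw [mul_comm]; exact mul_le_mul_of_nonneg_left hx hma.le
  have h8 : 3.7 * (m a * x) ≤ m a * x ^ 2 := by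
    calc 3.7 * (m a * x) ≤ x * (m a * x) := by gcongr
      _ = _ := by ring
  have h12 : a ^ 12 = 1 := by
    have := FiniteField.pow_card_sub_one_eq_one a ha0
    rw [hq] at this
    exact this
  have h6cases : a ^ 6 = 1 ∨ a ^ 6 = -1 := by
    have : a ^ 6 * a ^ 6 = 1 := by rw [← pow_add, h12]
    exact mul_self_eq_one_iff.1 this
  rcases h6cases with h6 | h6
  · obtain ⟨ε, hε, haε⟩ := exists_sign (T := 3) hodd (by rw [← h6])
    have h7 := h.pair0 a ha hinv ε hε 3 (by norm_num) haε (by linarith)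
    norm_num at h7
    linarith
  -- order dividing 12 with a ^ 6 = -1
  have hε6 : a ^ 6 = ((-1 : ℤ) : F) := by rw [h6]; simp
  have hεm : (-1 : ℤ) = 1 ∨ (-1 : ℤ) = -1 ∧ Odd 13 := Or.inr ⟨rfl, hodd⟩
  have h7 := h.pair0 a ha hinv (-1) hεm 6 (by norm_num) hε6 (by linarith)
  norm_num at h7
  have he2 : (m a : ℝ) ≤ 0.3805 * n := by
    by_contra hcon
    push Not at hcon
    linarith
  obtain ⟨j, hj, hj'⟩ := exists_lev (p := 13) (by norm_num) (m a : ℝ) (by exact_mod_cast ha)
  have hinv6 : (a⁻¹) ^ 6 = ((-1 : ℤ) : F) := by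
    rw [inv_pow, hε6]; simp [inv_neg]
  have hS6 : ∀ b ∈ ({a, a⁻¹} : Finset F), b ^ 6 = ((-1 : ℤ) : F) := by
    intro b hb
    rw [Finset.mem_insert, Finset.mem_singleton] at hb
    rcases hb with rfl | rfl
    · exact hε6
    · exact hinv6
  have hSle : ∀ b ∈ ({a, a⁻¹} : Finset F), (m b : ℝ) ≤ m a := by
    intro b _
    exact_mod_cast hmax b
  have hsum : ∑ b ∈ ({a, a⁻¹} : Finset F), (m b : ℝ) = 2 * m a := by
    rw [Finset.sum_pair hinv, h.inv]; ring
  have hA := h.scale (-1) hεm 6 j 0 (by norm_num) _ hS6 (m a) (by exact_mod_cast ha) hSle hj hj'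
  have hB := h.scale (-1) hεm 6 j 1 (by norm_num) _ hS6 (m a) (by exact_mod_cast ha) hSle hj hj'
  rw [hsum] at hA hB
  set J : ℝ := (13 : ℝ) ^ j with hJ
  have hJ0 : 0 < J := by positivity
  push_cast at hA hB
  rw [add_zero, ← hJ] at hA
  rw [pow_succ, ← hJ] at hB
  have hA' : 2 * J * x ≤ n + 6 * J * μ := by
    apply le_of_mul_le_mul_left _ hma
    linarith
  have hB' : 2 * (J + m a) * x ≤ n + 6 * (13 * J) * μ := by
    apply le_of_mul_le_mul_left _ hma
    linarith
  refine thirteen_num hn hx h.small hJ0 h3 he2 hA' hB' ?_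
  intro hcond
  -- all classes
  set S' : Finset F := (((Finset.univ.erase 0).erase a).erase a⁻¹) with hS'
  have hn1 : 1 ≤ 0.2703 * (n : ℝ) := by
    have : 12 * J ≤ 13 * (0.2703 * n) := hcond
    have h1J : 1 ≤ J := one_le_pow₀ (by norm_num)
    have h3' : (3 : ℝ) < n := by linarith
    have h4 : (4 : ℝ) ≤ n := by
      have : 3 < n := by exact_mod_cast h3'
      exact_mod_cast this
    linarith
  have hrest : ∀ b ∈ S', (m b : ℝ) ≤ 0.2703 * n := by
    intro b hb
    rw [hS', Finset.mem_erase, Finset.mem_erase, Finset.mem_erase] at hb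
    obtain ⟨hb1, hb2, hb3, _⟩ := hb
    by_cases hs1 : b = 1
    · exact hsmall b (Or.inl hs1)
    by_cases hs2 : b = -1
    · exact hsmall b (Or.inr hs2)
    have hbinv := ne_inv hb3 hs1 hs2
    have h4 : 2 * m a + 2 * m b ≤ n := by
      have h5 := h.sum_le {a, a⁻¹, b, b⁻¹}
      rw [Finset.sum_insert, Finset.sum_insert, Finset.sum_pair hbinv, h.inv, h.inv] at h5
      · omega
      · simp only [Finset.mem_insert, Finset.mem_singleton, not_or]
        refine ⟨fun h => hb1 h.symm, fun h => hb2 (inv_injective h).symm⟩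
      · simp only [Finset.mem_insert, Finset.mem_singleton, not_or]
        refine ⟨hinv, fun h => hb2 h.symm, fun h => hb1 ?_⟩
        rw [h, inv_inv]
    have h5 : 2 * (m a : ℝ) + 2 * m b ≤ n := by exact_mod_cast h4
    linarith
  have hKa : J ≤ KK 13 (m a) j := by
    have h4 := KK_high (p := 13) (by norm_num) (m a) j 0 (m a) (by exact_mod_cast ha) le_rfl hj hj'
    have h5 := le_of_mul_le_mul_left h4 hma
    push_cast at h5
    simpa using h5
  have hKrest : ∀ b ∈ S', (m b : ℝ) * J ≤ 0.2703 * n * KK 13 (m b) j := by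
    intro b hb
    have h4 := KK_low (p := 13) (by norm_num) (m b) j (0.2703 * n) hn1 (hrest b hb) (by
      push_cast
      linarith)
    push_cast at h4
    exact h4
  have ha_mem : a ∈ Finset.univ.erase (0 : F) := by simp [ha0]
  have hai_mem : a⁻¹ ∈ (Finset.univ.erase (0 : F)).erase a := by
    simp only [Finset.mem_erase, Finset.mem_univ, and_true]
    exact ⟨hinv.symm, inv_ne_zero ha0⟩
  have hsplit : ∀ g : F → ℝ, ∑ b ∈ Finset.univ.erase (0 : F), g b =
      g a + (g a⁻¹ + ∑ b ∈ S', g b) := by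
    intro g
    rw [← Finset.add_sum_erase _ g ha_mem, ← Finset.add_sum_erase _ g hai_mem]
  have hmsum : ∑ b ∈ S', (m b : ℝ) = n - 2 * m a := by
    have h4 := hsplit (fun b => (m b : ℝ))
    have h5 : ∑ b ∈ Finset.univ.erase (0 : F), (m b : ℝ) = n := by
      rw [← h.sum, Nat.cast_sum, ← Finset.add_sum_erase _ (fun b => (m b : ℝ)) (Finset.mem_univ 0),
        h.zero]
      simp
    rw [h5] at h4
    simp only [h.inv] at h4
    linarith
  have hmain := h.sub 1 (Or.inl rfl) 12 j (by norm_num) (Finset.univ.erase 0) (by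
    intro b hb
    rw [Finset.mem_erase] at hb
    have := FiniteField.pow_card_sub_one_eq_one b hb.1
    rw [hq] at this
    rw [this]; simp)
  rw [hsplit (fun b => (KK 13 (m b) j : ℝ))] at hmain
  simp only [h.inv] at hmain
  push_cast at hmain
  rw [← hJ] at hmain
  have hx0 : 0 < x := by linarith
  calc (2 * (0.2703 * n) * J + (n - 2 * m a) * J) * x
      = (2 * (0.2703 * n) * J + ∑ b ∈ S', (m b : ℝ) * J) * x := by
        rw [← hmsum, Finset.sum_mul]
    _ ≤ (2 * (0.2703 * n) * KK 13 (m a) j + ∑ b ∈ S', 0.2703 * n * (KK 13 (m b) j : ℝ)) * x :=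
        mul_le_mul_of_nonneg_right (add_le_add (mul_le_mul_of_nonneg_left hKa (by positivity))
          (Finset.sum_le_sum hKrest)) hx0.le
    _ = 0.2703 * n * (((KK 13 (m a) j : ℝ) + (KK 13 (m a) j +
          ∑ b ∈ S', (KK 13 (m b) j : ℝ))) * x) := by
        rw [← Finset.mul_sum]; ring
    _ ≤ 0.2703 * n * (n + 12 * J * μ) := by
        apply mul_le_mul_of_nonneg_left hmain (by linarith)

end Pool.Agent.H21.Leh
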