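import Pool.Agent.H21.Leh.Main
import Pool.Agent.H21.Leh.Master
import Pool.Agent.H21.Leh.Fields
import Pool.Agent.H21.Leh.Eight
import Pool.Agent.H21.Leh.Nine
import Pool.Agent.H21.Leh.Thirteen

/-!
# Polynomials splitting over a small finite field
-/

set_option autoImplicit false

open Polynomial N60ffa576

namespace Pool.Agent.H21.Leh

open Pool.Agent.H25

section Reverse

variable {F : Type*} [Field F]

lemma pow_dvd_reverse {a : F} (ha : a ≠ 0) (g : F[X]) (k : ℕ) (h : (X - C a) ^ k ∣ g) :
    (X - C a⁻¹) ^ k ∣ g.reverse := by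
  obtain ⟨q, rfl⟩ := h
  rw [reverse_mul_of_domain]
  apply Dvd.dvd.mul_right
  have h1 : (X - C a⁻¹) ∣ (X - C a).reverse := by
    rw [dvd_iff_isRoot, IsRoot.def]
    let i : Invertible a := invertibleOfNonzero ha
    have h2 := (eval₂_reverse_eq_zero_iff (RingHom.id F) a (X - C a)).2 (by simp)
    rw [invOf_eq_inv] at h2
    exact h2
  induction k with
  | zero => simp
  | succ k ih =>
    rw [pow_succ, pow_succ, reverse_mul_of_domain]
    exact mul_dvd_mul ih h1

lemma rootMultiplicity_le_reverse {a : F} (ha : a ≠ 0) (g : F[X]) (hg : g ≠ 0) :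
    rootMultiplicity a g ≤ rootMultiplicity a⁻¹ g.reverse := by
  rw [le_rootMultiplicity_iff (by rwa [ne_eq, reverse_eq_zero])]
  exact pow_dvd_reverse ha g _ (pow_rootMultiplicity_dvd g a)

lemma rootMultiplicity_inv (g : F[X]) (hg : g ≠ 0) (hrev : g.reverse = g) (a : F) :
    rootMultiplicity a⁻¹ g = rootMultiplicity a g := by
  by_cases ha : a = 0
  · rw [ha, inv_zero]
  apply le_antisymm
  · have := rootMultiplicity_le_reverse (inv_ne_zero ha) g hg
    rwa [hrev, inv_inv] at this
  · have := rootMultiplicity_le_reverse ha g hg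
    rwa [hrev] at this

lemma reverse_map_of_monic (f : ℤ[X]) (hf : f.Monic) (hrev : f.reverse = f) :
    (f.map (Int.castRingHom F)).reverse = f.map (Int.castRingHom F) := by
  rw [Polynomial.reverse, hf.natDegree_map, reflect_map]
  congr 1

end Reverse

lemma log_bounds {p : ℕ} (hp : 2 ≤ p) {a b : ℕ} (hb : 0 < b) (h : 2 ^ a ≤ p ^ b) :
    (a : ℝ) / b ≤ Real.log p / Real.log 2 := by
  have h2 : 0 < Real.log 2 := Real.log_pos (by norm_num)
  have hb' : (0 : ℝ) < b := by exact_mod_cast hb
  rw [div_le_div_iff₀ hb' h2]
  have h3 : (2 : ℝ) ^ a ≤ (p : ℝ) ^ b := by exact_mod_cast h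
  have h4 := Real.log_le_log (by positivity) h3
  rw [Real.log_pow, Real.log_pow] at h4
  linarith

/-- The profile of a reciprocal polynomial. -/
lemma prof_of {F : Type*} [Field F] [Fintype F] [DecidableEq F] (p : ℕ) [hp : Fact p.Prime]
    [CharP F p] (f : ℤ[X]) (hf : Good f) (hrev : f.reverse = f)
    (hs : (f.map (Int.castRingHom F)).Splits)
    (hM : Real.log (mahlerMeasureZ f) / Real.log 2 < 15 / 64) :
    Prof p (fun a : F => rootMultiplicity a (f.map (Int.castRingHom F))) f.natDegree
      (Real.log p / Real.log 2) (Real.log (mahlerMeasureZ f) / Real.log 2) where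
  two_le := hp.out.two_le
  mas := by
    intro ε hε T k hT
    have hpk : 0 < T * p ^ k := Nat.mul_pos hT (pow_pos hp.out.pos k)
    have h := master (F := F) p f hf.monic ε hε T k (by
      intro z hz h1
      rcases hε with h2 | ⟨h2, _⟩
      · rw [h2] at h1
        exact hf.unity z hz _ hpk (by rw [h1]; simp)
      · rw [h2] at h1
        refine hf.unity z hz (T * p ^ k * 2) (by positivity) ?_
        rw [pow_mul, h1]; simp)
    have h2 : 0 < Real.log 2 := Real.log_pos (by norm_num)
    have hp0 : (0 : ℝ) < p := by exact_mod_cast hp.out.pos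
    have hM1 : 1 ≤ mahlerMeasureZ f := one_le_mmZ hf.monic.ne_zero
    have h3 := Real.log_le_log (by positivity) h
    rw [Real.log_pow, Real.log_mul (by positivity) (by positivity), Real.log_pow,
      Real.log_pow] at h3
    rw [mul_div_assoc', mul_div_assoc', ← sub_nonneg]
    have h4 : (f.natDegree : ℝ) + (T * p ^ k * Real.log (mahlerMeasureZ f)) / Real.log 2 -
      ((∑ a ∈ Finset.univ.filter (fun a : F => a ^ T = (ε : F)),
        KK p (rootMultiplicity a (f.map (Int.castRingHom F))) k : ℕ) : ℝ) * Real.log p /
          Real.log 2 =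
      (f.natDegree * Real.log 2 + T * p ^ k * Real.log (mahlerMeasureZ f) -
        ((∑ a ∈ Finset.univ.filter (fun a : F => a ^ T = (ε : F)),
        KK p (rootMultiplicity a (f.map (Int.castRingHom F))) k : ℕ) : ℝ) * Real.log p) /
          Real.log 2 := by
      field_simp
    rw [h4]
    apply div_nonneg _ h2.le
    push_cast at h3 ⊢
    linarith
  inv := rootMultiplicity_inv _ (hf.monic.map _).ne_zero (reverse_map_of_monic f hf.monic hrev)
  frob := by
    intro a
    have h1 := eq_rootMultiplicity_map (p := f.map (Int.castRingHom F)) (f := frobenius F p)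
      (frobenius F p).injective a
    rw [Polynomial.map_map, RingHom.ext_int ((frobenius F p).comp (Int.castRingHom F))
      (Int.castRingHom F), frobenius_def] at h1
    exact h1.symm
  zero := by
    apply rootMultiplicity_eq_zero
    rw [IsRoot.def, ← coeff_zero_eq_eval_zero, coeff_map]
    have hc0 : f.coeff 0 = 1 := by
      rw [← hrev, coeff_zero_reverse, hf.monic.leadingCoeff]
    rw [hc0]; simp
  sum := by
    have h1 := hs.natDegree_eq_card_roots
    rw [hf.monic.natDegree_map] at h1
    rw [h1, ← Multiset.toFinset_sum_count_eq]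
    have h2 : ∑ a ∈ (f.map (Int.castRingHom F)).roots.toFinset,
        (f.map (Int.castRingHom F)).roots.count a =
        ∑ a : F, (f.map (Int.castRingHom F)).roots.count a := by
      apply Finset.sum_subset (Finset.subset_univ _)
      intro a _ ha
      rw [Multiset.count_eq_zero]
      rwa [Multiset.mem_toFinset] at ha
    rw [h2]
    apply Finset.sum_congr rfl
    intro a _
    rw [count_roots]
  pos := by have := hf.deg; omega
  nonneg := div_nonneg (Real.log_nonneg (one_le_mmZ hf.monic.ne_zero))
    (Real.log_nonneg (by norm_num))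
  small := hM
  one_le := by
    have := log_bounds hp.out.two_le (a := 1) (b := 1) one_pos (by simpa using hp.out.two_le)
    simpa using this

/-- Irreducible polynomials. -/
theorem good_split {F : Type*} [Field F] [Fintype F] (hF : Fintype.card F ≤ 13)
    (f : ℤ[X]) (hf : Good f) (hs : (f.map (Int.castRingHom F)).Splits) :
    (2 : ℝ) ^ 15 ≤ mahlerMeasureZ f ^ 64 := by
  classical
  by_contra hcon
  push Not at hcon
  have hM1 : 1 ≤ mahlerMeasureZ f := one_le_mmZ hf.monic.ne_zero
  have h128 : mahlerMeasureZ f < 1.28 := by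
    by_contra h
    push Not at h
    have h1 : (1.28 : ℝ) ^ 64 ≤ mahlerMeasureZ f ^ 64 := pow_le_pow_left₀ (by norm_num) h 64
    have h2 : (2 : ℝ) ^ 15 ≤ 1.28 ^ 64 := by norm_num
    linarith
  obtain ⟨hrev, _⟩ := even_of hf h128
  have h2 : 0 < Real.log 2 := Real.log_pos (by norm_num)
  have hM : Real.log (mahlerMeasureZ f) / Real.log 2 < 15 / 64 := by
    rw [div_lt_div_iff₀ h2 (by norm_num)]
    have h3 := Real.log_lt_log (by positivity) hcon
    rw [Real.log_pow, Real.log_pow] at h3
    push_cast at h3
    linarith
  obtain ⟨p, hpc⟩ := CharP.exists F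
  obtain ⟨r, hp, hcard⟩ := FiniteField.card F p
  have hpf : Fact p.Prime := ⟨hp⟩
  have hprof := prof_of (F := F) p f hf hrev hs hM
  have hr : 0 < (r : ℕ) := r.pos
  generalize (r : ℕ) = r' at hcard hr
  have hp13 : p ≤ 13 := by
    calc p = p ^ 1 := (pow_one p).symm
      _ ≤ p ^ r' := Nat.pow_le_pow_right hp.pos hr
      _ ≤ 13 := by rw [← hcard]; exact hF
  have hr4 : r' < 4 := by
    by_contra h
    push Not at h
    have h3 : 2 ^ 4 ≤ p ^ r' := by
      calc 2 ^ 4 ≤ p ^ 4 := Nat.pow_le_pow_left hp.two_le 4
        _ ≤ p ^ r' := Nat.pow_le_pow_right hp.pos h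
    omega
  have hp2 := hp.two_le
  interval_cases p
  · -- p = 2
    have hx : Real.log (2 : ℕ) / Real.log 2 = 1 := by
      rw [Nat.cast_ofNat, div_self h2.ne']
    rw [hx] at hprof
    interval_cases r'
    · exact no_two hcard hprof
    · exact no_four hcard hprof
    · exact no_eight hcard hprof
  · -- p = 3
    have hx := log_bounds (p := 3) (by norm_num) (a := 84) (b := 53) (by norm_num) (by norm_num)
    norm_num at hx
    interval_cases r'
    · exact no_three hcard hprof (by push_cast; linarith)
    · exact no_nine hcard hprof (by push_cast; linarith)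
    · omega
  · exact absurd hp (by norm_num)
  · -- p = 5
    have hx := log_bounds (p := 5) (by norm_num) (a := 58) (b := 25) (by norm_num) (by norm_num)
    norm_num at hx
    interval_cases r'
    · exact no_five hcard hprof (by push_cast; linarith)
    · omega
    · omega
  · exact absurd hp (by norm_num)
  · -- p = 7
    have hx := log_bounds (p := 7) (by norm_num) (a := 14) (b := 5) (by norm_num) (by norm_num)
    norm_num at hx
    interval_cases r'
    · exact no_seven hcard hprof (by push_cast; linarith)
    · omega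
    · omega
  · exact absurd hp (by norm_num)
  · exact absurd hp (by norm_num)
  · exact absurd hp (by norm_num)
  · -- p = 11
    have hx := log_bounds (p := 11) (by norm_num) (a := 69) (b := 20) (by norm_num) (by norm_num)
    norm_num at hx
    interval_cases r'
    · exact no_eleven hcard hprof (by push_cast; linarith)
    · omega
    · omega
  · exact absurd hp (by norm_num)
  · -- p = 13
    have hx := log_bounds (p := 13) (by norm_num) (a := 37) (b := 10) (by norm_num) (by norm_num)
    norm_num at hx
    interval_cases r'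
    · exact no_thirteen hcard hprof (by push_cast; linarith)
    · omega
    · omega

end Pool.Agent.H21.Leh
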