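import Pool.Agent.H21.Leh.Split

/-!
# Lehmer's inequality for polynomials splitting over a small finite field
-/

set_option autoImplicit false

open Polynomial N60ffa576

namespace Pool.Agent.H21.Leh

open Pool.Agent.H25

/-- A monic polynomial of Mahler measure greater than one has a root outside the closed disc. -/
lemma exists_large_root (f : ℤ[X]) (hlc : |f.leadingCoeff| = 1) (hM : 1 < mahlerMeasureZ f) :
    ∃ z : ℂ, aeval z f = 0 ∧ 1 < ‖z‖ := by
  have hf0 : f ≠ 0 := by
    rintro rfl; simp at hlc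
  by_contra hcon
  push Not at hcon
  rw [mmZ_eq] at hM
  have h1 : |(f.leadingCoeff : ℝ)| = 1 := by exact_mod_cast hlc
  have h2 : ((croots f).map (fun a => max 1 ‖a‖)).prod = 1 := by
    apply Multiset.prod_eq_one
    intro y hy
    rw [Multiset.mem_map] at hy
    obtain ⟨z, hz, rfl⟩ := hy
    exact max_eq_left (hcon z ((mem_croots hf0).1 hz))
  rw [h1, h2] at hM
  linarith

/-- The quantitative form of the theorem. -/
theorem split_main {F : Type*} [Field F] [Fintype F] (hF : Fintype.card F ≤ 13)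
    (f : ℤ[X]) (hs : (f.map (Int.castRingHom F)).Splits) (hM : 1 < mahlerMeasureZ f) :
    (2 : ℝ) ^ 15 ≤ mahlerMeasureZ f ^ 64 := by
  have hf0 : f ≠ 0 := by
    rintro rfl
    rw [mmZ_zero] at hM
    linarith
  by_cases hlc : |f.leadingCoeff| = 1
  · obtain ⟨z, hz, hz1⟩ := exists_large_root f hlc hM
    have hlcsq : f.leadingCoeff * f.leadingCoeff = 1 := by
      rcases (abs_eq (by norm_num : (0:ℤ) ≤ 1)).1 hlc with h | h <;> rw [h] <;> norm_num
    have hzi : IsIntegral ℤ z := by
      refine ⟨C f.leadingCoeff * f, ?_, ?_⟩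
      · rw [Monic, leadingCoeff_mul, leadingCoeff_C, hlcsq]
      · rw [← aeval_def, map_mul, hz, mul_zero]
    obtain ⟨g, hg⟩ := minpoly.isIntegrallyClosed_dvd hzi hz
    have hg0 : g ≠ 0 := by
      rintro rfl
      rw [mul_zero] at hg
      exact hf0 hg
    have hle : mahlerMeasureZ (minpoly ℤ z) ≤ mahlerMeasureZ f := by
      conv_rhs => rw [hg]
      rw [mmZ_mul]
      exact le_mul_of_one_le_right (mmZ_nonneg _) (one_le_mmZ hg0)
    have hz0 : z ≠ 0 := by
      rintro rfl
      rw [norm_zero] at hz1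
      linarith
    have hzu : ∀ m, 0 < m → z ^ m ≠ 1 := by
      intro m hm h
      have h1 : 1 < ‖z‖ ^ m := one_lt_pow₀ hz1 hm.ne'
      rw [← norm_pow, h, norm_one] at h1
      exact lt_irrefl _ h1
    have hfin : (2 : ℝ) ^ 15 ≤ mahlerMeasureZ (minpoly ℤ z) ^ 64 := by
      have hpos : 0 < (minpoly ℤ z).natDegree := minpoly.natDegree_pos hzi
      rcases (by omega : (minpoly ℤ z).natDegree = 1 ∨ 2 ≤ (minpoly ℤ z).natDegree) with h1 | h2
      · have h3 := deg_one_case z hzi hz0 hzu h1
        have h4 : (2 : ℝ) ^ 16 ≤ (mahlerMeasureZ (minpoly ℤ z) ^ 4) ^ 16 :=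
          pow_le_pow_left₀ (by norm_num) h3 16
        rw [← pow_mul] at h4
        have h5 : (2 : ℝ) ^ 15 ≤ 2 ^ 16 := by norm_num
        exact h5.trans h4
      · have hgood := good_minpoly z hzi hz0 hzu h2
        refine good_split hF _ hgood ?_
        have hne : f.map (Int.castRingHom F) ≠ 0 := by
          intro h
          have h1 : (Int.castRingHom F) f.leadingCoeff = 0 := by
            rw [← coeff_natDegree, ← coeff_map, h, coeff_zero]
          have h2 : (Int.castRingHom F) (f.leadingCoeff * f.leadingCoeff) = 0 := by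
            rw [map_mul, h1, mul_zero]
          rw [hlcsq, map_one] at h2
          exact one_ne_zero h2
        refine hs.of_dvd hne ?_
        rw [hg, Polynomial.map_mul]
        exact dvd_mul_right _ _
    exact hfin.trans (pow_le_pow_left₀ (mmZ_nonneg _) hle 64)
  · have h2 : 2 ≤ |f.leadingCoeff| := by
      have : 1 ≤ |f.leadingCoeff| := Int.one_le_abs (leadingCoeff_ne_zero.2 hf0)
      omega
    have h3 : (2 : ℝ) ≤ |(f.leadingCoeff : ℝ)| := by exact_mod_cast h2
    have h4 : (2 : ℝ) ^ 64 ≤ mahlerMeasureZ f ^ 64 :=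
      pow_le_pow_left₀ (by norm_num) (h3.trans (lc_le_mmZ f)) 64
    have h5 : (2 : ℝ) ^ 15 ≤ 2 ^ 64 := by norm_num
    exact h5.trans h4

/-- Comparison with Lehmer's number. -/
theorem lehmer_lt64 {M : ℝ} (hM0 : 0 ≤ M) (hM : (2 : ℝ) ^ 15 ≤ M ^ 64) :
    mahlerMeasureZ lehmerPolynomial < M := by
  refine lt_of_le_of_lt lehmer_upper ?_
  by_contra hcon
  push Not at hcon
  have h1 : M ^ 64 ≤ 1.17629 ^ 64 := pow_le_pow_left₀ hM0 hcon 64
  have h2 : (1.17629 : ℝ) ^ 64 < 2 ^ 15 := by norm_num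
  linarith

end Pool.Agent.H21.Leh
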