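import Pool.Agent.H21.Leh.Cases

/-!
# The case of a Galois field of twice the degree of `α`
-/

open Polynomial N60ffa576 Module NumberField IntermediateField Ideal

open scoped Pointwise

namespace Pool.Agent.H21.Leh

open Pool.Agent.H25

variable {k F : Type*} [Field k] [NumberField k] [Field F] [NumberField F] [Algebra k F]

/-- A non-trivial automorphism fixing `α`. -/
lemma exists_swap (α : 𝓞 F) (hr : finrank ℚ⟮(α : F)⟯ F = 2) :
    ∃ τ : F ≃ₐ[ℚ] F, τ (α : F) = α ∧ τ ≠ 1 := by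
  have : Algebra.IsQuadraticExtension ℚ⟮(α : F)⟯ F := ⟨hr⟩
  have h1 : Nat.card Gal(F/ℚ⟮(α : F)⟯) = 2 := by
    rw [IsGalois.card_aut_eq_finrank, hr]
  have : Nontrivial Gal(F/ℚ⟮(α : F)⟯) := by
    rw [← Finite.one_lt_card_iff_nontrivial, h1]; norm_num
  obtain ⟨τ, hτ⟩ := exists_ne (1 : Gal(F/ℚ⟮(α : F)⟯))
  refine ⟨τ.restrictScalars ℚ, ?_, ?_⟩
  · exact τ.commutes ⟨(α : F), mem_adjoin_simple_self ℚ (α : F)⟩
  · intro h
    apply hτ
    ext x
    exact congrArg (fun g : F ≃ₐ[ℚ] F => g x) h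

omit [NumberField k] [NumberField F] in
/-- An automorphism which is trivial on `k` and on a generator is trivial. -/
lemma eq_one_of_gen (a : F) (hgen : k⟮a⟯ = ⊤) (σ : Gal(F/k)) (h : σ a = a) : σ = 1 := by
  have h1 : a ∈ IntermediateField.fixedField (Subgroup.zpowers σ) := by
    rw [IntermediateField.mem_fixedField_iff]
    intro g hg
    have h2 : Subgroup.zpowers σ ≤ MulAction.stabilizer Gal(F/k) a := by
      rw [Subgroup.zpowers_le]
      exact h
    exact h2 hg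
  have h2 : IntermediateField.fixedField (Subgroup.zpowers σ) = ⊤ := by
    rw [eq_top_iff, ← hgen, IntermediateField.adjoin_simple_le_iff]
    exact h1
  ext x
  have h3 : x ∈ IntermediateField.fixedField (Subgroup.zpowers σ) := by rw [h2]; trivial
  rw [IntermediateField.mem_fixedField_iff] at h3
  exact h3 σ (Subgroup.mem_zpowers σ)

/-- The restriction of a non-trivial automorphism fixing `α` to the quadratic field `k`. -/
lemma exists_restrict (hd : finrank ℚ k = 2) (a : F) (hgen : k⟮a⟯ = ⊤) (τ : F ≃ₐ[ℚ] F)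
    (hτ : τ a = a) (hτ1 : τ ≠ 1) :
    ∃ g : Gal(k/ℚ), g ≠ 1 ∧ (∀ x : k, τ (algebraMap k F x) = algebraMap k F (g x)) := by
  have : Algebra.IsQuadraticExtension ℚ k := ⟨hd⟩
  refine ⟨τ.restrictNormal k, fun h => hτ1 ?_, fun x =>
    (AlgEquiv.restrictNormal_commutes τ k x).symm⟩
  have h1 : ∀ x : k, τ (algebraMap k F x) = algebraMap k F x := by
    intro x
    rw [← AlgEquiv.restrictNormal_commutes τ k x, h]
    rfl
  have h2 := eq_one_of_gen (k := k) a hgen (AlgEquiv.ofRingEquiv (f := τ.toRingEquiv) h1) hτ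
  ext x
  exact congrArg (fun g : F ≃ₐ[k] F => g x) h2

/-- The non-trivial automorphism of `k` exchanges the two primes above `2`. -/
lemma swap_primes (hd : finrank ℚ k = 2) (g : Gal(k/ℚ)) (hg : g ≠ 1) (p q : Ideal (𝓞 k))
    [p.IsMaximal] [q.IsMaximal] (hpq : p ≠ q) (h2p : (2 : 𝓞 k) ∈ p) (h2q : (2 : 𝓞 k) ∈ q) :
    g • p = q := by
  have : Algebra.IsQuadraticExtension ℚ k := ⟨hd⟩
  have hu : ∀ P : Ideal (𝓞 k), P.IsMaximal → (2 : 𝓞 k) ∈ P → P.LiesOver (span {(2 : ℤ)}) := by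
    intro P hP h2
    constructor
    have hmax : (span {(2 : ℤ)}).IsMaximal :=
      PrincipalIdealRing.isMaximal_of_irreducible (Nat.prime_iff_prime_int.1 Nat.prime_two).irreducible
    refine hmax.eq_of_le (Ideal.IsPrime.under ℤ P).ne_top ?_
    rw [Ideal.span_singleton_le_iff_mem, Ideal.mem_comap]
    simpa using h2
  have := hu p inferInstance h2p
  have := hu q inferInstance h2q
  obtain ⟨σ, hσ⟩ := exists_smul_eq_of_isGaloisGroup (span {(2 : ℤ)}) p q Gal(k/ℚ)
  have hσ1 : σ ≠ 1 := by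
    rintro rfl
    rw [one_smul] at hσ
    exact hpq hσ
  have hcard : Nat.card Gal(k/ℚ) = 2 := by rw [IsGalois.card_aut_eq_finrank, hd]
  have hσg : σ = g := by
    obtain ⟨x, y, hxy, huniv⟩ := Nat.card_eq_two_iff.1 hcard
    have h1 : ∀ z : Gal(k/ℚ), z = x ∨ z = y := fun z => by
      have : z ∈ ({x, y} : Set Gal(k/ℚ)) := by rw [huniv]; trivial
      simpa using this
    rcases h1 1 with h | h <;> rcases h1 σ with h' | h' <;> rcases h1 g with h'' | h'' <;>
      simp_all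
  rw [← hσg, hσ]

/-- Two subgroups of order `e` of a commutative group which meet trivially. -/
lemma sq_dvd_card {G : Type*} [Group G] (hc : ∀ σ τ : G, σ * τ = τ * σ)
    (I I' : Subgroup G) (h : ∀ σ, σ ∈ I → σ ∈ I' → σ = 1) :
    Nat.card I * Nat.card I' ∣ Nat.card G := by
  rw [← Nat.card_prod]
  let f : I × I' →* G :=
    { toFun := fun x => (x.1 : G) * (x.2 : G)
      map_one' := by simp
      map_mul' := fun x y => by
        simp only [Prod.fst_mul, Prod.snd_mul, Subgroup.coe_mul]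
        rw [mul_assoc, mul_assoc, ← mul_assoc (y.1 : G), hc (y.1 : G) x.2, mul_assoc] }
  refine Subgroup.card_dvd_of_injective f ?_
  rw [injective_iff_map_eq_one]
  rintro ⟨⟨a, ha⟩, ⟨b, hb⟩⟩ hab
  have h1 : a * b = 1 := hab
  have h2 : a = b⁻¹ := eq_inv_of_mul_eq_one_left h1
  have h3 : a = 1 := h a ha (by rw [h2]; exact I'.inv_mem hb)
  have h4 : b = 1 := by rw [h3, one_mul] at h1; exact h1
  subst h3 h4
  rfl

lemma coe_smul' (τ : F ≃ₐ[ℚ] F) (x : 𝓞 F) : ((τ • x : 𝓞 F) : F) = τ (x : F) := rfl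

lemma smul_algebraMap' (τ : F ≃ₐ[ℚ] F) (g : Gal(k/ℚ))
    (hg : ∀ x : k, τ (algebraMap k F x) = algebraMap k F (g x)) (x : 𝓞 k) :
    τ • (algebraMap (𝓞 k) (𝓞 F) x) = algebraMap (𝓞 k) (𝓞 F) (g • x) := by
  apply RingOfIntegers.ext
  rw [coe_smul']
  exact hg (x : k)

lemma smul_map' (τ : F ≃ₐ[ℚ] F) (g : Gal(k/ℚ))
    (hg : ∀ x : k, τ (algebraMap k F x) = algebraMap k F (g x)) (I : Ideal (𝓞 k)) :
    τ • (I.map (algebraMap (𝓞 k) (𝓞 F))) = (g • I).map (algebraMap (𝓞 k) (𝓞 F)) := by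
  rw [Ideal.pointwise_smul_def, Ideal.pointwise_smul_def, Ideal.map_map, Ideal.map_map]
  congr 1
  ext x
  have := smul_algebraMap' τ g hg x
  exact congrArg (fun z : 𝓞 F => (z : F)) this

variable [IsGalois k F]

/-- The case of a prime of degree one in a quadratic field in which `2` splits, when the degree of
`α` is half of the degree of `F`. -/
theorem swap_case (hc : ∀ σ τ : Gal(F/k), σ * τ = τ * σ) (α : 𝓞 F)
    (hd : finrank ℚ k = 2) (p q : Ideal (𝓞 k)) [p.IsMaximal] [q.IsMaximal] (hp : p ≠ ⊥)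
    (hpq : p ≠ q)
    (h2p : (2 : 𝓞 k) ∈ p) (h2q : (2 : 𝓞 k) ∈ q) (hN : absNorm p = 2) (hNq : absNorm q = 2)
    (hgen : k⟮(α : F)⟯ = ⊤)
    (hT : ∀ σ : Gal(F/k), σ ≠ 1 → ∀ m, 0 < m → (σ • α) ^ m ≠ α ^ m)
    (hn : 6 ≤ dg α) (heven : Even (dg α))
    (hr : finrank ℚ⟮(α : F)⟯ F = 2) (he4 : dg α < 4 * p.ramificationIdxIn (𝓞 F)) :
    2 ≤ MM α ^ 4 := by
  obtain ⟨τ, hτ, hτ1⟩ := exists_swap α hr
  obtain ⟨g, hg1, hg⟩ := exists_restrict hd (α : F) hgen τ hτ hτ1
  have hgp : g • p = q := swap_primes hd g hg1 p q hpq h2p h2q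
  set e := p.ramificationIdxIn (𝓞 F) with he
  have hepos : 0 < e := ramIdx_pos p
  have hcard : Nat.card Gal(F/k) = finrank k F := IsGalois.card_aut_eq_finrank k F
  have hdg : dg α = finrank k F := by
    have h3 := dg_mul α
    rw [hr, ← Module.finrank_mul_finrank ℚ k F, hd] at h3
    omega
  obtain ⟨I, hIc, hI⟩ := inertia_rad (F := F) p hp hc
  have hdvd : e ∣ finrank k F := by
    rw [← hcard, he, ← hIc]
    exact Subgroup.card_subgroup_dvd_card I
  -- the product ideal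
  set R := rad F p with hR
  have hRe : R ^ e = p.map (algebraMap (𝓞 k) (𝓞 F)) := rad_pow p hp
  have hRe' : (τ • R) ^ e = q.map (algebraMap (𝓞 k) (𝓞 F)) := by
    rw [← hgp, ← smul_map' τ g hg, ← hRe]
    rw [Ideal.pointwise_smul_def, Ideal.pointwise_smul_def, Ideal.map_pow]
  have hcop : IsCoprime R (τ • R) := by
    have h1 : IsCoprime (R ^ e) ((τ • R) ^ e) := by
      rw [hRe, hRe']
      have h2 : IsCoprime p q := Ideal.isCoprime_of_isMaximal hpq
      rw [Ideal.isCoprime_iff_sup_eq] at h2 ⊢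
      rw [← Ideal.map_sup, h2, Ideal.map_top]
    exact (IsCoprime.pow_iff hepos hepos).1 h1
  have hR2 : (2 : 𝓞 F) ∈ (R * (τ • R)) ^ e := by
    rw [mul_pow, hRe, hRe', ← Ideal.map_mul]
    have h1 : (2 : 𝓞 k) ∈ p * q := by
      rw [Ideal.mul_eq_inf_of_coprime]
      · exact ⟨h2p, h2q⟩
      · exact Ideal.isCoprime_iff_sup_eq.1 (Ideal.isCoprime_of_isMaximal hpq)
    have h := Ideal.mem_map_of_mem (algebraMap (𝓞 k) (𝓞 F)) h1
    rwa [map_ofNat] at h
  have hRN : absNorm (R * (τ • R)) ^ e = 2 ^ finrank ℚ F := by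
    rw [← map_pow, mul_pow, hRe, hRe', map_mul, Ideal.absNorm_algebraMap, Ideal.absNorm_algebraMap,
      hN, hNq, ← pow_add, ← IsFractionRing.finrank_eq (𝓞 k) k (𝓞 F) F,
      ← Module.finrank_mul_finrank ℚ k F, hd, two_mul]
  -- conjugation by `τ`
  have hmap : ∀ x : k, τ.symm (algebraMap k F x) = algebraMap k F (g.symm x) := by
    intro x
    rw [AlgEquiv.symm_apply_eq, hg, AlgEquiv.apply_symm_apply]
  let c : Gal(F/k) →* Gal(F/k) :=
    { toFun := fun σ => AlgEquiv.ofRingEquiv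
        (f := ((τ.symm.trans (σ.restrictScalars ℚ)).trans τ).toRingEquiv) (by
          intro x
          change τ (σ (τ.symm (algebraMap k F x))) = algebraMap k F x
          rw [hmap, AlgEquiv.commutes, hg, AlgEquiv.apply_symm_apply])
      map_one' := by
        ext x
        change τ (τ.symm x) = x
        simp
      map_mul' := fun σ σ' => by
        ext x
        change τ (σ (σ' (τ.symm x))) = τ (σ (τ.symm (τ (σ' (τ.symm x)))))
        simp }
  have hcinj : Function.Injective c := by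
    rw [injective_iff_map_eq_one]
    intro σ hσ
    ext x
    have h1 : c σ (τ x) = τ x := by rw [hσ]; rfl
    have h2 : c σ (τ x) = τ (σ (τ.symm (τ x))) := rfl
    rw [h2, AlgEquiv.symm_apply_apply] at h1
    exact τ.injective h1
  have hI'c : Nat.card (I.map c) = e := by
    rw [he, ← hIc]
    exact (Nat.card_congr (I.equivMapOfInjective c hcinj).toEquiv).symm
  -- a non-trivial common element
  obtain ⟨σ, hσI, hσI', hσ1⟩ : ∃ σ, σ ∈ I ∧ σ ∈ I.map c ∧ σ ≠ 1 := by
    by_contra hcon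
    push Not at hcon
    have h1 := sq_dvd_card hc I (I.map c) hcon
    rw [hI'c, hIc, ← he, hcard, ← hdg] at h1
    rw [← hdg] at hdvd
    have h2 : e * e ≤ dg α := Nat.le_of_dvd (dg_pos α) h1
    have h3 : e < 4 := by nlinarith
    interval_cases e
    · omega
    · have : 4 ∣ dg α := h1
      omega
    · have : 9 ∣ dg α := h1
      have := heven.two_dvd
      omega
  have hx : σ • α - α ∈ R * (τ • R) := by
    rw [Ideal.mul_eq_inf_of_coprime (Ideal.isCoprime_iff_sup_eq.1 hcop)]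
    refine ⟨(hI σ).1 hσI α, ?_⟩
    obtain ⟨ρ, hρ, rfl⟩ := hσI'
    have h1 := (hI ρ).1 hρ (τ⁻¹ • α)
    have h2 : c ρ • α - α = τ • (ρ • (τ⁻¹ • α) - τ⁻¹ • α) := by
      rw [smul_sub, smul_inv_smul]
      rfl
    rw [h2]
    exact Ideal.smul_mem_pointwise_smul τ _ R h1
  exact final_one α (R * (τ • R)) e hepos hR2 hRN (σ • α) α hx (hT σ hσ1) 2
    (by rw [hgt_smul, sq]) (by
      have := Nat.le_of_dvd (by rw [← hdg]; exact dg_pos α) hdvd
      omega)

end Pool.Agent.H21.Leh
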